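import Pool.Agent.H.MP_e23cd6_ag.Defs

/-! Basic facts on the split projective bundle: the chosen charts `κ p b φ`, the local functions
`loc` of a section, the sections `sect b` of `π`. -/

set_option autoImplicit false

open scoped Manifold ContDiff Topology ENNReal
open MeasureTheory Set

namespace Pool.Agent.Abd

/-- Exponents `α : Fin (r + 1) → ℕ` of total degree `d`. -/
abbrev Idx (r d : ℕ) : Type := {α : Fin (r + 1) → Fin (d + 1) // ∑ c, (α c : ℕ) = d}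

/-- The form `∑ s_α x ^ α` of degree `d` in `x_0, …, x_r`. -/
noncomputable def form {r d : ℕ} (s : Idx r d → ℂ) (x : Fin (r + 1) → ℂ) : ℂ :=
  ∑ α, s α * ∏ c, x c ^ (α.1 c : ℕ)

namespace SplitBundle

variable {E : Type} [NormedAddCommGroup E] [NormedSpace ℂ E] {r : ℕ}
variable {X Y : Type} [TopologicalSpace X] [TopologicalSpace Y]
  [ChartedSpace (E × (Fin r → ℂ)) X] [ChartedSpace E Y]
variable {π : X → Y} (h : SplitBundle E r π)

/-- The chosen chart of `X` over `W p ∩ φ.source`, away from `H b`. -/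
noncomputable def κ (p : h.P) (b : Fin (r + 1)) (φ : OpenPartialHomeomorph Y E)
    (hφ : φ ∈ Charts E Y) : OpenPartialHomeomorph X (E × (Fin r → ℂ)) :=
  (h.chart p b φ hφ).choose

variable {φ : OpenPartialHomeomorph Y E} (hφ : φ ∈ Charts E Y)

theorem κ_mem (p : h.P) (b : Fin (r + 1)) : h.κ p b φ hφ ∈ Charts (E × (Fin r → ℂ)) X :=
  (h.chart p b φ hφ).choose_spec.1

theorem κ_source (p : h.P) (b : Fin (r + 1)) :
    (h.κ p b φ hφ).source = {x | π x ∈ h.W p ∧ π x ∈ φ.source ∧ x ∉ h.H b} :=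
  (h.chart p b φ hφ).choose_spec.2.1

theorem mem_κ_source (p : h.P) (b : Fin (r + 1)) (x : X) :
    x ∈ (h.κ p b φ hφ).source ↔ π x ∈ h.W p ∧ π x ∈ φ.source ∧ x ∉ h.H b := by
  rw [κ_source]; rfl

theorem κ_target (p : h.P) (b : Fin (r + 1)) :
    (h.κ p b φ hφ).target = (φ '' (h.W p ∩ φ.source)) ×ˢ univ :=
  (h.chart p b φ hφ).choose_spec.2.2.1

theorem κ_apply (p : h.P) (b : Fin (r + 1)) (x : X) (hx : x ∈ (h.κ p b φ hφ).source) :
    h.κ p b φ hφ x = (φ (π x), fun c => h.z p b x (b.succAbove c)) :=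
  (h.chart p b φ hφ).choose_spec.2.2.2 x hx

theorem mem_κ_target (p : h.P) (b : Fin (r + 1)) {y : Y} (hy : y ∈ h.W p) (hy' : y ∈ φ.source)
    (w : Fin r → ℂ) : (φ y, w) ∈ (h.κ p b φ hφ).target := by
  rw [κ_target]
  exact ⟨⟨y, ⟨hy, hy'⟩, rfl⟩, mem_univ _⟩

/-- The point of `X` over `y` with the coordinates `w` in the chart `κ p b φ`. -/
noncomputable def pt (p : h.P) (b : Fin (r + 1)) (φ : OpenPartialHomeomorph Y E)
    (hφ : φ ∈ Charts E Y) (y : Y) (w : Fin r → ℂ) : X := (h.κ p b φ hφ).symm (φ y, w)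

section pt

variable (p : h.P) (b : Fin (r + 1)) {y : Y} (hy : y ∈ h.W p) (hy' : y ∈ φ.source)
  (w : Fin r → ℂ)

include hy hy'

theorem pt_mem : h.pt p b φ hφ y w ∈ (h.κ p b φ hφ).source :=
  (h.κ p b φ hφ).map_target (h.mem_κ_target hφ p b hy hy' w)

theorem κ_pt : h.κ p b φ hφ (h.pt p b φ hφ y w) = (φ y, w) :=
  (h.κ p b φ hφ).right_inv (h.mem_κ_target hφ p b hy hy' w)

theorem pi_pt : π (h.pt p b φ hφ y w) = y := by
  have h1 := h.pt_mem hφ p b hy hy' w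
  have h2 := h.κ_apply hφ p b _ h1
  rw [h.κ_pt hφ p b hy hy' w] at h2
  have h3 : φ y = φ (π (h.pt p b φ hφ y w)) := congrArg Prod.fst h2
  exact (φ.injOn hy' ((h.mem_κ_source hφ p b _).1 h1).2.1 h3).symm

theorem pt_notMem : h.pt p b φ hφ y w ∉ h.H b :=
  ((h.mem_κ_source hφ p b _).1 (h.pt_mem hφ p b hy hy' w)).2.2

theorem z_pt_succAbove (c : Fin r) : h.z p b (h.pt p b φ hφ y w) (b.succAbove c) = w c := by
  have h1 := h.pt_mem hφ p b hy hy' w
  have h2 := h.κ_apply hφ p b _ h1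
  rw [h.κ_pt hφ p b hy hy' w] at h2
  exact (congrFun (congrArg Prod.snd h2) c).symm

theorem z_pt : h.z p b (h.pt p b φ hφ y w) = b.insertNth (1 : ℂ) w := by
  funext c
  rcases Fin.eq_self_or_eq_succAbove b c with rfl | ⟨c', rfl⟩
  · rw [Fin.insertNth_apply_same]
    exact h.z_self p c _ (by rw [h.pi_pt hφ p c hy hy' w]; exact hy)
      (h.pt_notMem hφ p c hy hy' w)
  · rw [Fin.insertNth_apply_succAbove]
    exact h.z_pt_succAbove hφ p b hy hy' w c'

end pt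

/-- Every point of the domain of the chart is `pt` of its coordinates. -/
theorem pt_eq (p : h.P) (b : Fin (r + 1)) {x : X} (hx : x ∈ (h.κ p b φ hφ).source) :
    h.pt p b φ hφ (π x) (fun c => h.z p b x (b.succAbove c)) = x := by
  unfold pt
  rw [← h.κ_apply hφ p b x hx]
  exact (h.κ p b φ hφ).left_inv hx

variable [IsManifold 𝓘(ℂ, E) ω Y] [IsManifold 𝓘(ℂ, E × (Fin r → ℂ)) ω X]

theorem exists_sect (b : Fin (r + 1)) (y : Y) :
    ∃ x, π x = y ∧ x ∉ h.H b ∧ ∀ c, c ≠ b → x ∈ h.H c := by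
  obtain ⟨p, hp⟩ := h.cover y
  have hφ := IsManifold.chart_mem_maximalAtlas (I := 𝓘(ℂ, E)) (n := ω) y
  have hy := mem_chart_source E y
  refine ⟨h.pt p b _ hφ y 0, h.pi_pt hφ p b hp hy 0, h.pt_notMem hφ p b hp hy 0, fun c hc => ?_⟩
  have h1 := h.z_pt hφ p b hp hy 0
  obtain ⟨c', rfl⟩ := Fin.exists_succAbove_eq hc
  refine (h.z_eq_zero p b _ _ ?_ (h.pt_notMem hφ p b hp hy 0)).1 ?_
  · rw [h.pi_pt hφ p b hp hy 0]; exact hp
  · rw [h1, Fin.insertNth_apply_succAbove]; rfl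

/-- The section `x_c = 0` for all `c ≠ b` of the bundle. -/
noncomputable def sect (b : Fin (r + 1)) (y : Y) : X := (h.exists_sect b y).choose

theorem pi_sect (b : Fin (r + 1)) (y : Y) : π (h.sect b y) = y :=
  (h.exists_sect b y).choose_spec.1

theorem sect_notMem (b : Fin (r + 1)) (y : Y) : h.sect b y ∉ h.H b :=
  (h.exists_sect b y).choose_spec.2.1

theorem sect_mem (b : Fin (r + 1)) (y : Y) {c : Fin (r + 1)} (hc : c ≠ b) : h.sect b y ∈ h.H c :=
  (h.exists_sect b y).choose_spec.2.2 c hc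

theorem eq_of_sect_notMem {b : Fin (r + 1)} {y : Y} {c : Fin (r + 1)} (hc : h.sect b y ∉ h.H c) :
    c = b := by
  by_contra hne
  exact hc (h.sect_mem b y hne)

theorem sect_eq_pt (p : h.P) (b : Fin (r + 1)) {y : Y} (hy : y ∈ h.W p) (hy' : y ∈ φ.source) :
    h.sect b y = h.pt p b φ hφ y 0 := by
  have hx : h.sect b y ∈ (h.κ p b φ hφ).source := by
    rw [h.mem_κ_source, h.pi_sect]
    exact ⟨hy, hy', h.sect_notMem b y⟩
  have h1 := h.pt_eq hφ p b hx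
  rw [← h1, h.pi_sect]
  congr 1
  funext c
  exact (h.z_eq_zero p b _ _ (by rw [h.pi_sect]; exact hy) (h.sect_notMem b y)).2
    (h.sect_mem b y (Fin.succAbove_ne b c))

theorem sect_contMDiffAt (b : Fin (r + 1)) (y : Y) :
    ContMDiffAt 𝓘(ℂ, E) 𝓘(ℂ, E × (Fin r → ℂ)) ω (h.sect b) y := by
  obtain ⟨p, hp⟩ := h.cover y
  have hφ := IsManifold.chart_mem_maximalAtlas (I := 𝓘(ℂ, E)) (n := ω) y
  have hy := mem_chart_source E y
  have h1 := contMDiffAt_of_mem_maximalAtlas hφ hy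
  have h2 : ContMDiffAt 𝓘(ℂ, E) 𝓘(ℂ, E × (Fin r → ℂ)) ω
      (fun v : E => (v, (0 : Fin r → ℂ))) (chartAt E y y) :=
    (contDiff_id.prodMk contDiff_const).contMDiff.contMDiffAt
  have h3 := h2.comp y h1
  have h4 : ContMDiffAt 𝓘(ℂ, E × (Fin r → ℂ)) 𝓘(ℂ, E × (Fin r → ℂ)) ω
      (h.κ p b _ hφ).symm (chartAt E y y, 0) :=
    contMDiffAt_symm_of_mem_maximalAtlas (h.κ_mem hφ p b) (h.mem_κ_target hφ p b hp hy 0)
  have h5 := ContMDiffAt.comp y h4 h3
  refine h5.congr_of_eventuallyEq ?_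
  filter_upwards [(h.isOpen p).mem_nhds hp, (chartAt E y).open_source.mem_nhds hy] with y' h6 h7
  exact h.sect_eq_pt hφ p b h6 h7

variable {L : LineBundle E Y} {a k m : ℕ}

/-- The local function of a section in the chart `κ p b φ`. -/
noncomputable def loc (s : Sec (h.twist L a) k m) (i : L.ι) (p : h.P) (b : Fin (r + 1))
    (φ : OpenPartialHomeomorph Y E) (hφ : φ ∈ Charts E Y) (v : E × (Fin r → ℂ)) : ℂ :=
  s.f (i, p, b) (h.κ p b φ hφ) ((h.κ p b φ hφ).symm v)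

theorem loc_pt (s : Sec (h.twist L a) k m) (i : L.ι) (p : h.P) (b : Fin (r + 1)) (y : Y)
    (w : Fin r → ℂ) : h.loc s i p b φ hφ (φ y, w) =
      s.f (i, p, b) (h.κ p b φ hφ) (h.pt p b φ hφ y w) := rfl

/-- The local function is analytic. -/
theorem loc_analyticAt (s : Sec (h.twist L a) k m) {i : L.ι} {p : h.P} (b : Fin (r + 1)) {y : Y}
    (hi : y ∈ L.U i) (hp : y ∈ h.W p) (hy : y ∈ φ.source) (w : Fin r → ℂ) :
    ContDiffAt ℂ ω (h.loc s i p b φ hφ) (φ y, w) := by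
  have hx := h.pt_mem hφ p b hp hy w
  have h1 : HolAt (E × (Fin r → ℂ)) (s.f (i, p, b) (h.κ p b φ hφ)) (h.pt p b φ hφ y w) := by
    refine s.hol (i, p, b) _ (h.κ_mem hφ p b) _ ?_ hx
    refine ⟨?_, ?_, h.pt_notMem hφ p b hp hy w⟩
    · show π _ ∈ L.U i
      rw [h.pi_pt hφ p b hp hy w]; exact hi
    · rw [h.pi_pt hφ p b hp hy w]; exact hp
  have h2 : ContMDiffAt 𝓘(ℂ, E × (Fin r → ℂ)) 𝓘(ℂ, E × (Fin r → ℂ)) ω
      (h.κ p b φ hφ).symm (φ y, w) :=
    contMDiffAt_symm_of_mem_maximalAtlas (h.κ_mem hφ p b) (h.mem_κ_target hφ p b hp hy w)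
  exact (ContMDiffAt.comp (φ y, w) h1 h2).contDiffAt

end SplitBundle

end Pool.Agent.Abd
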