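import Mathlib

/-! The analytic Bertini lemma (Fubini). -/

set_option autoImplicit false

open scoped ENNReal
open MeasureTheory Set

namespace Pool.Agent.Abd

/-- The negative power `‖t‖ ^ (-τ)` has finite integral over the unit disc. -/
theorem bertini_ball {τ : ℝ} (hτ2 : τ < 2) :
    ∫⁻ t in Metric.ball (0 : ℂ) 1, ‖t‖ₑ ^ (-τ) < ⊤ := by
  have h : IntegrableOn (fun x : ℂ => ‖x‖ ^ (-τ)) (Metric.ball (0 : ℂ) 1) := by
    rw [integrableOn_fun_norm_addHaar volume (f := fun y : ℝ => y ^ (-τ))]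
    have h1 : IntegrableOn (fun y : ℝ => y ^ (1 - τ)) (Ioo 0 1) :=
      (intervalIntegral.integrableOn_Ioo_rpow_iff zero_lt_one).2 (by linarith)
    refine h1.congr_fun (fun y hy => ?_) measurableSet_Ioo
    have hy0 : 0 < y := hy.1
    simp only [Complex.finrank_real_complex, smul_eq_mul]
    rw [show (2 - 1 : ℕ) = 1 from rfl, pow_one, sub_eq_add_neg, Real.rpow_add hy0, Real.rpow_one]
  have h2 : ∫⁻ t in Metric.ball (0 : ℂ) 1, ‖‖t‖ ^ (-τ)‖ₑ < ⊤ := h.2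
  refine lt_of_le_of_lt (le_of_eq ?_) h2
  refine lintegral_congr_ae (ae_restrict_of_ae ?_)
  have h3 : ∀ᵐ t : ℂ, t ≠ 0 := by
    simp [ae_iff]
  filter_upwards [h3] with t ht
  have ht0 : 0 < ‖t‖ := norm_pos_iff.2 ht
  rw [Real.enorm_eq_ofReal (Real.rpow_nonneg ht0.le _), ← ENNReal.ofReal_rpow_of_pos ht0,
    ofReal_norm_eq_enorm]

/-- `∫_{|t| ≤ 1} |t + a| ^ (-τ) dt` is bounded independently of `a`, for `τ < 2`.
(Split by `|t + a| ≤ 1`: the integral is at most `∫_{|t| ≤ 1} |t| ^ (-τ) dt + π`, translation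
invariance; the first integral is finite since `τ < 2 = dim_ℝ ℂ`: polar coordinates
`Complex.lintegral_comp_polarCoord_symm`, or Mathlib's integrability of `‖x‖ ^ (-τ)` near `0`.) -/
theorem disc_bound {τ : ℝ} (hτ : 0 < τ) (hτ2 : τ < 2) : ∃ K : ℝ≥0∞, K ≠ ⊤ ∧
    ∀ a : ℂ, ∫⁻ t in Metric.closedBall (0 : ℂ) 1, ‖t + a‖ₑ ^ (-τ) ≤ K := by
  refine ⟨(∫⁻ t in Metric.ball (0 : ℂ) 1, ‖t‖ₑ ^ (-τ)) + volume (Metric.closedBall (0 : ℂ) 1),
    ENNReal.add_ne_top.2 ⟨(bertini_ball hτ2).ne, measure_closedBall_lt_top.ne⟩, fun a => ?_⟩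
  set G : ℂ → ℝ≥0∞ := (Metric.ball (0 : ℂ) 1).indicator (fun t => ‖t‖ₑ ^ (-τ)) with hG
  have hGm : Measurable G := by
    refine Measurable.indicator ?_ measurableSet_ball
    exact (measurable_enorm).pow_const _
  have hle : ∀ t : ℂ, ‖t + a‖ₑ ^ (-τ) ≤ G (t + a) + 1 := by
    intro t
    by_cases h : t + a ∈ Metric.ball (0 : ℂ) 1
    · rw [hG, indicator_of_mem h]
      exact le_self_add
    · have h1 : 1 ≤ ‖t + a‖ := by
        simpa using h
      have h2 : (1 : ℝ≥0∞) ≤ ‖t + a‖ₑ := by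
        rw [← ofReal_norm_eq_enorm]
        exact ENNReal.one_le_ofReal.2 h1
      calc ‖t + a‖ₑ ^ (-τ) ≤ 1 := by
            rw [ENNReal.rpow_neg]
            exact ENNReal.inv_le_one.2 (ENNReal.one_le_rpow h2 hτ)
        _ ≤ G (t + a) + 1 := le_add_self
  calc ∫⁻ t in Metric.closedBall (0 : ℂ) 1, ‖t + a‖ₑ ^ (-τ)
      ≤ ∫⁻ t in Metric.closedBall (0 : ℂ) 1, (G (t + a) + 1) := lintegral_mono fun t => hle t
    _ = (∫⁻ t in Metric.closedBall (0 : ℂ) 1, G (t + a)) +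
          volume (Metric.closedBall (0 : ℂ) 1) := by
        rw [lintegral_add_right _ measurable_const, lintegral_one, Measure.restrict_apply_univ]
    _ ≤ (∫⁻ t : ℂ, G (t + a)) + volume (Metric.closedBall (0 : ℂ) 1) := by
        gcongr
        exact Measure.restrict_le_self
    _ = (∫⁻ t : ℂ, G t) + volume (Metric.closedBall (0 : ℂ) 1) := by
        rw [lintegral_add_right_eq_self G a]
    _ = _ := by
        rw [hG, lintegral_indicator measurableSet_ball]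

/-- The inner integral of `average_bound`. -/
theorem bertini_inner {τ : ℝ} {K : ℝ≥0∞}
    (hK : ∀ a : ℂ, ∫⁻ t in Metric.closedBall (0 : ℂ) 1, ‖t + a‖ₑ ^ (-τ) ≤ K) {z : ℂ} (hz : z ≠ 0)
    (y : ℂ) : ∫⁻ t in Metric.closedBall (0 : ℂ) 1, ‖t * z + y‖ₑ ^ (-τ) ≤ ‖z‖ₑ ^ (-τ) * K := by
  have h1 : ∀ t : ℂ, ‖t * z + y‖ₑ ^ (-τ) = ‖z‖ₑ ^ (-τ) * ‖t + y / z‖ₑ ^ (-τ) := by
    intro t
    rw [← ENNReal.mul_rpow_of_ne_top enorm_ne_top enorm_ne_top, ← enorm_mul]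
    congr 2
    field_simp
  simp_rw [h1]
  rw [lintegral_const_mul]
  · gcongr
    exact hK _
  · exact ((measurable_id.add_const _).enorm).pow_const _

/-- For `x ∈ ℂ^Λ` the average of `|∑ c_l x_l| ^ (-τ)` over the unit polydisc of all `c` is at most
a constant times `(∑ |x_l|) ^ (-τ)`.
Proof. `Λ` empty, or `x = 0`: the right side is `⊤` (take the constant positive). Otherwise choose `l0`
with `‖x l0‖` maximal, so `∑ ‖x l‖ ≤ N ‖x l0‖`, `N` the number of elements of `Λ`. Integrate over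
`c l0` first (`MeasureTheory.lintegral_pi`-type Tonelli: `volume_preserving_piFinSuccAbove`, or
`lmarginal`, or `MeasureTheory.Measure.pi` and `MeasurableEquiv.piEquivPiSubtypeProd`):
`∫ ‖t * x l0 + y‖ ^ (-τ) dt = ‖x l0‖ ^ (-τ) ∫ ‖t + y / x l0‖ ^ (-τ) dt ≤ K ‖x l0‖ ^ (-τ)`, and
`‖x l0‖ ^ (-τ) ≤ N ^ τ (∑ ‖x l‖) ^ (-τ)`. The remaining polydisc has finite volume. -/
theorem average_bound {Λ : Type} [Fintype Λ] {τ : ℝ} (hτ : 0 < τ) (hτ2 : τ < 2) :
    ∃ K : ℝ≥0∞, K ≠ ⊤ ∧ K ≠ 0 ∧ ∀ x : Λ → ℂ,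
      ∫⁻ c in Metric.closedBall (0 : Λ → ℂ) 1, ‖∑ l, c l * x l‖ₑ ^ (-τ) ≤
        K * (∑ l, ‖x l‖ₑ) ^ (-τ) := by
  classical
  obtain ⟨K, hK, hKb⟩ := disc_bound hτ hτ2
  set m : ℝ≥0∞ := volume (Metric.closedBall (0 : ℂ) 1) with hm
  have hmt : m ≠ ⊤ := measure_closedBall_lt_top.ne
  set N : ℝ≥0∞ := (Fintype.card Λ : ℝ≥0∞) with hN
  have hNt : N ≠ ⊤ := ENNReal.natCast_ne_top _
  refine ⟨N ^ τ * K * m ^ (Fintype.card Λ - 1) + 1, ?_, ?_, fun x => ?_⟩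
  · refine ENNReal.add_ne_top.2 ⟨ENNReal.mul_ne_top (ENNReal.mul_ne_top ?_ hK)
      (ENNReal.pow_ne_top hmt), ENNReal.one_ne_top⟩
    exact ENNReal.rpow_ne_top_of_nonneg hτ.le hNt
  · exact (lt_of_lt_of_le zero_lt_one le_add_self).ne'
  by_cases hx : x = 0
  · subst hx
    simp only [Pi.zero_apply, enorm_zero, Finset.sum_const_zero]
    rw [ENNReal.zero_rpow_of_neg (by linarith), ENNReal.mul_top]
    · exact le_top
    · exact (lt_of_lt_of_le zero_lt_one le_add_self).ne'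
  obtain ⟨l1, hl1⟩ : ∃ l, x l ≠ 0 := by
    by_contra h
    push Not at h
    exact hx (funext h)
  obtain ⟨l0, -, hl0⟩ := Finset.exists_max_image Finset.univ (fun l => ‖x l‖ₑ) ⟨l1, Finset.mem_univ _⟩
  have hx0 : x l0 ≠ 0 := by
    intro h
    have h1 := hl0 l1 (Finset.mem_univ _)
    rw [h, enorm_zero] at h1
    exact hl1 (enorm_eq_zero.1 (le_antisymm h1 zero_le))
  -- the integrand
  set F : (Λ → ℂ) → ℝ≥0∞ := fun c => ‖∑ l, c l * x l‖ₑ ^ (-τ) with hF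
  have hFm : Measurable F := by
    refine Measurable.pow_const (Measurable.enorm ?_) _
    exact Finset.measurable_sum _ fun l _ => (measurable_pi_apply l).mul_const _
  set ν : Λ → Measure ℂ := fun _ => volume.restrict (Metric.closedBall (0 : ℂ) 1) with hν
  have hres : (volume : Measure (Λ → ℂ)).restrict (Metric.closedBall (0 : Λ → ℂ) 1) =
      Measure.pi ν := by
    rw [closedBall_pi _ zero_le_one, volume_pi, Measure.restrict_pi_pi]
    rfl
  have hinner : ∀ c : Λ → ℂ, ∫⁻ t, F (Function.update c l0 t) ∂(ν l0) ≤ ‖x l0‖ₑ ^ (-τ) * K := by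
    intro c
    have h1 : ∀ t : ℂ, F (Function.update c l0 t) =
        ‖t * x l0 + ∑ l ∈ Finset.univ.erase l0, c l * x l‖ₑ ^ (-τ) := by
      intro t
      rw [hF]
      simp only
      rw [← Finset.add_sum_erase Finset.univ _ (Finset.mem_univ l0), Function.update_self]
      congr 3
      refine Finset.sum_congr rfl fun l hl => ?_
      rw [Function.update_of_ne (Finset.ne_of_mem_erase hl)]
    simp_rw [h1]
    exact bertini_inner hKb hx0 _
  have hmain : ∫⁻ c, F c ∂(Measure.pi ν) ≤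
      ‖x l0‖ₑ ^ (-τ) * K * m ^ (Fintype.card Λ - 1) := by
    rw [lintegral_eq_lmarginal_univ (μ := ν) (0 : Λ → ℂ),
      lmarginal_erase' (μ := ν) F hFm (Finset.mem_univ l0)]
    calc (lmarginal ν (Finset.univ.erase l0)
          (fun c => ∫⁻ t, F (Function.update c l0 t) ∂(ν l0))) 0
        ≤ (lmarginal ν (Finset.univ.erase l0) (fun _ => ‖x l0‖ₑ ^ (-τ) * K)) 0 :=
          lmarginal_mono (fun c => hinner c) 0
      _ = ‖x l0‖ₑ ^ (-τ) * K * m ^ (Fintype.card Λ - 1) := by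
          rw [lmarginal, lintegral_const, Measure.pi_univ]
          congr 1
          simp only [hν, Measure.restrict_apply_univ]
          rw [Finset.prod_const, Finset.card_univ, Fintype.card_coe, Finset.card_erase_of_mem
            (Finset.mem_univ l0), Finset.card_univ]
  have hsum : ∑ l, ‖x l‖ₑ ≤ N * ‖x l0‖ₑ := by
    calc ∑ l, ‖x l‖ₑ ≤ ∑ _l : Λ, ‖x l0‖ₑ := Finset.sum_le_sum fun l hl => hl0 l hl
      _ = N * ‖x l0‖ₑ := by rw [Finset.sum_const, Finset.card_univ, nsmul_eq_mul]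
  have hN0 : N ≠ 0 := by
    rw [hN]
    have : 0 < Fintype.card Λ := Fintype.card_pos_iff.2 ⟨l0⟩
    exact_mod_cast this.ne'
  have hpow : ‖x l0‖ₑ ^ (-τ) ≤ N ^ τ * (∑ l, ‖x l‖ₑ) ^ (-τ) := by
    have h1 : (N * ‖x l0‖ₑ) ^ (-τ) ≤ (∑ l, ‖x l‖ₑ) ^ (-τ) := by
      rw [ENNReal.rpow_neg, ENNReal.rpow_neg]
      exact ENNReal.inv_le_inv.2 (ENNReal.rpow_le_rpow hsum hτ.le)
    rw [ENNReal.mul_rpow_of_ne_top hNt enorm_ne_top] at h1
    calc ‖x l0‖ₑ ^ (-τ) = N ^ τ * (N ^ (-τ) * ‖x l0‖ₑ ^ (-τ)) := by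
          rw [← mul_assoc, ← ENNReal.rpow_add _ _ hN0 hNt, add_neg_cancel, ENNReal.rpow_zero,
            one_mul]
      _ ≤ N ^ τ * (∑ l, ‖x l‖ₑ) ^ (-τ) := by gcongr
  rw [hres]
  calc ∫⁻ c, F c ∂(Measure.pi ν) ≤ ‖x l0‖ₑ ^ (-τ) * K * m ^ (Fintype.card Λ - 1) := hmain
    _ ≤ (N ^ τ * (∑ l, ‖x l‖ₑ) ^ (-τ)) * K * m ^ (Fintype.card Λ - 1) := by gcongr
    _ = (N ^ τ * K * m ^ (Fintype.card Λ - 1)) * (∑ l, ‖x l‖ₑ) ^ (-τ) := by ring
    _ ≤ (N ^ τ * K * m ^ (Fintype.card Λ - 1) + 1) * (∑ l, ‖x l‖ₑ) ^ (-τ) := by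
        gcongr
        exact le_self_add

/-- Analytic Bertini: finitely many s-finite measures `μ j`, functions `g j l`; if
`(∑ l, |g j l|) ^ (-τ)` has finite integral for each `j`, then for some `c` the function
`|∑ c_l g j l| ^ (-τ)` has finite integral for all `j`.
Proof. Tonelli: `∫_c ∫_v ‖∑ c l * g j l v‖ ^ (-τ) = ∫_v ∫_c … ≤ K ∫_v (∑ ‖g j l v‖) ^ (-τ) < ⊤`
(first replace `g j l` by measurable representatives), so for almost all `c` in the unit polydisc the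
inner integral is finite (`ae_lt_top`), for all `j` at once (`J` finite); the unit polydisc has
positive measure. -/
theorem bertini {Λ J V : Type} [Fintype Λ] [Finite J] [MeasurableSpace V] (μ : J → Measure V)
    [∀ j, SFinite (μ j)] (g : J → Λ → V → ℂ) (hg : ∀ j l, AEMeasurable (g j l) (μ j)) {τ : ℝ}
    (hτ : 0 < τ) (hτ2 : τ < 2)
    (h : ∀ j, ∫⁻ v, (∑ l, ‖g j l v‖ₑ) ^ (-τ) ∂(μ j) < ⊤) :
    ∃ c : Λ → ℂ, ∀ j, ∫⁻ v, ‖∑ l, c l * g j l v‖ₑ ^ (-τ) ∂(μ j) < ⊤ := by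
  obtain ⟨K, hK, hK0, hKb⟩ := average_bound (Λ := Λ) hτ hτ2
  set P : Measure (Λ → ℂ) := volume.restrict (Metric.closedBall (0 : Λ → ℂ) 1) with hP
  -- measurable representatives
  set g' : J → Λ → V → ℂ := fun j l => (hg j l).mk (g j l) with hg'
  have hg'm : ∀ j l, Measurable (g' j l) := fun j l => (hg j l).measurable_mk
  have hae : ∀ j, ∀ᵐ v ∂(μ j), ∀ l, g j l v = g' j l v := fun j =>
    ae_all_iff.2 fun l => (hg j l).ae_eq_mk
  have hFm : ∀ j, Measurable (Function.uncurry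
      (fun (c : Λ → ℂ) (v : V) => ‖∑ l, c l * g' j l v‖ₑ ^ (-τ))) := by
    intro j
    refine Measurable.pow_const (Measurable.enorm ?_) _
    refine Finset.measurable_sum _ fun l _ => ?_
    exact ((measurable_pi_apply l).comp measurable_fst).mul ((hg'm j l).comp measurable_snd)
  have hfin : ∀ j, ∫⁻ c, ∫⁻ v, ‖∑ l, c l * g' j l v‖ₑ ^ (-τ) ∂(μ j) ∂P < ⊤ := by
    intro j
    rw [lintegral_lintegral_swap (hFm j).aemeasurable]
    calc ∫⁻ v, ∫⁻ c, ‖∑ l, c l * g' j l v‖ₑ ^ (-τ) ∂P ∂(μ j)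
        ≤ ∫⁻ v, K * (∑ l, ‖g' j l v‖ₑ) ^ (-τ) ∂(μ j) :=
          lintegral_mono fun v => hKb fun l => g' j l v
      _ = K * ∫⁻ v, (∑ l, ‖g' j l v‖ₑ) ^ (-τ) ∂(μ j) := by
          rw [lintegral_const_mul]
          exact (Finset.measurable_sum _ fun l _ => (hg'm j l).enorm).pow_const _
      _ = K * ∫⁻ v, (∑ l, ‖g j l v‖ₑ) ^ (-τ) ∂(μ j) := by
          congr 1
          refine lintegral_congr_ae ?_
          filter_upwards [hae j] with v hv
          simp_rw [hv]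
      _ < ⊤ := ENNReal.mul_lt_top hK.lt_top (h j)
  have hall : ∀ᵐ c ∂P, ∀ j, ∫⁻ v, ‖∑ l, c l * g' j l v‖ₑ ^ (-τ) ∂(μ j) < ⊤ := by
    rw [ae_all_iff]
    intro j
    exact ae_lt_top (hFm j).lintegral_prod_right (hfin j).ne
  have hPne : P ≠ 0 := by
    intro h0
    have h1 : P univ = 0 := by rw [h0]; rfl
    rw [hP, Measure.restrict_apply_univ] at h1
    exact (Metric.measure_closedBall_pos volume (0 : Λ → ℂ) zero_lt_one).ne' h1
  haveI : (ae P).NeBot := ae_neBot.2 hPne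
  obtain ⟨c, hc⟩ := hall.exists
  refine ⟨c, fun j => ?_⟩
  refine lt_of_le_of_lt (le_of_eq ?_) (hc j)
  refine lintegral_congr_ae ?_
  filter_upwards [hae j] with v hv
  simp_rw [hv]

end Pool.Agent.Abd
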