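import Pool.Agent.H.MP_e23cd6_ag.Basic

/-! The Jacobian of the charts `κ p b φ` and `κ q b ψ`. -/

set_option autoImplicit false

open scoped Manifold ContDiff Topology ENNReal
open MeasureTheory Set

namespace Pool.Agent.Abd

/-- The determinant of a block triangular map of `E × ℂ ^ r`. -/
theorem jac2_det {E : Type} [AddCommGroup E] [Module ℂ E] [FiniteDimensional ℂ E] {r : ℕ}
    (A : E →ₗ[ℂ] E) (K : E →ₗ[ℂ] (Fin r → ℂ)) (ρ : Fin r → ℂ)
    (T : E × (Fin r → ℂ) →ₗ[ℂ] E × (Fin r → ℂ))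
    (hT : ∀ v w, T (v, w) = (A v, fun c => ρ c * w c + K v c)) :
    LinearMap.det T = LinearMap.det A * ∏ c, ρ c := by
  classical
  let b1 := Module.finBasis ℂ E
  let b2 := Pi.basisFun ℂ (Fin r)
  have hM : LinearMap.toMatrix (b1.prod b2) (b1.prod b2) T =
      Matrix.fromBlocks (LinearMap.toMatrix b1 b1 A) 0 (LinearMap.toMatrix b1 b2 K)
        (Matrix.diagonal ρ) := by
    ext i j
    rcases i with i | i <;> rcases j with j | j
    · simp [LinearMap.toMatrix_apply, hT]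
    · simp [LinearMap.toMatrix_apply, hT]
    · simp [LinearMap.toMatrix_apply, hT, b2]
    · by_cases hij : i = j
      · subst hij; simp [LinearMap.toMatrix_apply, hT, b2]
      · simp [LinearMap.toMatrix_apply, hT, b2, hij]
  rw [← LinearMap.det_toMatrix (b1.prod b2), hM, Matrix.det_fromBlocks_zero₁₂,
    LinearMap.det_toMatrix, Matrix.det_diagonal]

namespace SplitBundle

variable {E : Type} [NormedAddCommGroup E] [NormedSpace ℂ E] [FiniteDimensional ℂ E] {r : ℕ}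
variable {X Y : Type} [TopologicalSpace X] [TopologicalSpace Y]
  [ChartedSpace (E × (Fin r → ℂ)) X] [ChartedSpace E Y]
variable {π : X → Y} (h : SplitBundle E r π)
variable [IsManifold 𝓘(ℂ, E) ω Y] [IsManifold 𝓘(ℂ, E × (Fin r → ℂ)) ω X]
variable {φ ψ : OpenPartialHomeomorph Y E} (hφ : φ ∈ Charts E Y) (hψ : ψ ∈ Charts E Y)

omit [FiniteDimensional ℂ E] in
theorem γ_ne_zero (p q : h.P) (b : Fin (r + 1)) {y : Y} (hp : y ∈ h.W p) (hq : y ∈ h.W q) :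
    h.γ p q b y ≠ 0 := by
  intro h0
  have h1 := h.γ_mul p q p b y hp hq hp
  rw [h0, zero_mul, h.γ_one p b y hp] at h1
  exact zero_ne_one h1

omit [FiniteDimensional ℂ E] [IsManifold 𝓘(ℂ, E × (Fin r → ℂ)) ω X] [IsManifold 𝓘(ℂ, E) ω Y] in
include hψ in
/-- The transition functions are differentiable in a chart of the base. -/
theorem jac2_diff (p q : h.P) (c : Fin (r + 1)) {y : Y} (hp : y ∈ h.W p) (hq : y ∈ h.W q)
    (hy : y ∈ ψ.source) :
    DifferentiableAt ℂ (fun v => h.γ p q c (ψ.symm v)) (ψ y) := by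
  have h1 : ContMDiffAt 𝓘(ℂ, E) 𝓘(ℂ) ω (h.γ p q c) y := h.γ_hol p q c y hp hq
  have h2 : ContMDiffAt 𝓘(ℂ, E) 𝓘(ℂ, E) ω ψ.symm (ψ y) :=
    contMDiffAt_symm_of_mem_maximalAtlas hψ (ψ.map_source hy)
  have h3 : ContMDiffAt 𝓘(ℂ, E) 𝓘(ℂ) ω (h.γ p q c) (ψ.symm (ψ y)) := by
    rw [ψ.left_inv hy]; exact h1
  have h4 := (ContMDiffAt.comp (ψ y) h3 h2).contDiffAt
  exact h4.differentiableAt (by simp)

omit [FiniteDimensional ℂ E] in
/-- The change of charts near a point. -/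
theorem jac2_eventually (p q : h.P) (b : Fin (r + 1)) {x : X} (hp : π x ∈ h.W p)
    (hq : π x ∈ h.W q) (hx : π x ∈ φ.source) (hx' : π x ∈ ψ.source) (hb : x ∉ h.H b) :
    ((h.κ p b φ hφ) ∘ (h.κ q b ψ hψ).symm) =ᶠ[𝓝 (h.κ q b ψ hψ x)]
      fun v => (φ (ψ.symm v.1), fun c => h.γ p q (b.succAbove c) (ψ.symm v.1) /
        h.γ p q b (ψ.symm v.1) * v.2 c) := by
  have hxs : x ∈ (h.κ q b ψ hψ).source := (h.mem_κ_source hψ q b x).2 ⟨hq, hx', hb⟩
  have hO2 : IsOpen (ψ.target ∩ ψ.symm ⁻¹' (h.W p ∩ φ.source)) :=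
    ψ.symm.isOpen_inter_preimage ((h.isOpen p).inter φ.open_source)
  have hκx : h.κ q b ψ hψ x = (ψ (π x), fun c => h.z q b x (b.succAbove c)) :=
    h.κ_apply hψ q b x hxs
  have e1 : ∀ᶠ v in 𝓝 (h.κ q b ψ hψ x), v ∈ (h.κ q b ψ hψ).target :=
    (h.κ q b ψ hψ).open_target.mem_nhds ((h.κ q b ψ hψ).map_source hxs)
  have e2 : ∀ᶠ v in 𝓝 (h.κ q b ψ hψ x), v.1 ∈ ψ.target ∩ ψ.symm ⁻¹' (h.W p ∩ φ.source) := by
    apply continuous_fst.continuousAt.eventually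
    apply hO2.mem_nhds
    rw [hκx]
    refine ⟨ψ.map_source hx', ?_⟩
    show ψ.symm (ψ (π x)) ∈ h.W p ∩ φ.source
    rw [ψ.left_inv hx']
    exact ⟨hp, hx⟩
  filter_upwards [e1, e2] with v hv1 hv2
  obtain ⟨v1, v2⟩ := v
  rw [h.κ_target hψ q b] at hv1
  obtain ⟨⟨y, ⟨hyq, hyψ⟩, hyv⟩, -⟩ := hv1
  simp only at hyv
  subst hyv
  have hys : ψ.symm (ψ y) = y := ψ.left_inv hyψ
  have hy2 : y ∈ h.W p ∩ φ.source := by
    have := hv2.2
    simpa only [mem_preimage, hys] using this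
  have hpi := h.pi_pt hψ q b hyq hyψ v2
  have hnm := h.pt_notMem hψ q b hyq hyψ v2
  have hps : h.pt q b ψ hψ y v2 ∈ (h.κ p b φ hφ).source :=
    (h.mem_κ_source hφ p b _).2 ⟨by rw [hpi]; exact hy2.1, by rw [hpi]; exact hy2.2, hnm⟩
  have h1 := h.κ_apply hφ p b _ hps
  show h.κ p b φ hφ (h.pt q b ψ hψ y v2) = _
  rw [h1, hpi]
  simp only [hys]
  refine Prod.ext rfl ?_
  funext c
  have h2 := h.z_trans p q b (b.succAbove c) (h.pt q b ψ hψ y v2) (by rw [hpi]; exact hy2.1)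
    (by rw [hpi]; exact hyq) hnm
  rw [hpi, h.z_pt_succAbove hψ q b hyq hyψ v2 c] at h2
  have h3 := h.γ_ne_zero p q b hy2.1 hyq
  show h.z p b (h.pt q b ψ hψ y v2) (b.succAbove c) =
    h.γ p q (b.succAbove c) y / h.γ p q b y * v2 c
  rw [div_mul_eq_mul_div, eq_div_iff h3, mul_comm]
  exact h2

/-- Change of the chart of the base and of the frames of the `L_c`:
`jac (κ p b φ) (κ q b ψ) = jac φ ψ * ∏_{c ≠ b} (γ_c / γ_b)`. -/
theorem jac_change (p q : h.P) (b : Fin (r + 1)) {x : X} (hp : π x ∈ h.W p) (hq : π x ∈ h.W q)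
    (hx : π x ∈ φ.source) (hx' : π x ∈ ψ.source) (hb : x ∉ h.H b) :
    jac (h.κ p b φ hφ) (h.κ q b ψ hψ) x * h.γ p q b (π x) ^ r =
      jac φ ψ (π x) * ∏ c : Fin r, h.γ p q (b.succAbove c) (π x) := by
  have hxs : x ∈ (h.κ q b ψ hψ).source := (h.mem_κ_source hψ q b x).2 ⟨hq, hx', hb⟩
  have hκx : h.κ q b ψ hψ x = (ψ (π x), fun c => h.z q b x (b.succAbove c)) :=
    h.κ_apply hψ q b x hxs
  have hγ : h.γ p q b (π x) ≠ 0 := h.γ_ne_zero p q b hp hq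
  have hys : ψ.symm (ψ (π x)) = π x := ψ.left_inv hx'
  -- the functions
  set ρ : Fin r → E → ℂ := fun c v => h.γ p q (b.succAbove c) (ψ.symm v) /
    h.γ p q b (ψ.symm v) with hρ
  have hγ2 : h.γ p q b (ψ.symm (ψ (π x))) ≠ 0 := by rw [hys]; exact hγ
  have hρd : ∀ c, DifferentiableAt ℂ (ρ c) (ψ (π x)) := by
    intro c
    have h1 := h.jac2_diff hψ p q (b.succAbove c) hp hq hx'
    have h2 := h.jac2_diff hψ p q b hp hq hx'
    simp only [hρ, div_eq_mul_inv]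
    exact h1.mul (h2.fun_inv hγ2)
  have hgd : DifferentiableAt ℂ (φ ∘ ψ.symm) (ψ (π x)) := by
    have h2 : ContMDiffAt 𝓘(ℂ, E) 𝓘(ℂ, E) ω ψ.symm (ψ (π x)) :=
      contMDiffAt_symm_of_mem_maximalAtlas hψ (ψ.map_source hx')
    have h3 : ContMDiffAt 𝓘(ℂ, E) 𝓘(ℂ, E) ω φ (ψ.symm (ψ (π x))) := by
      rw [hys]; exact contMDiffAt_of_mem_maximalAtlas hφ hx
    exact (ContMDiffAt.comp (ψ (π x)) h3 h2).contDiffAt.differentiableAt (by simp)
  set w : Fin r → ℂ := fun c => h.z q b x (b.succAbove c) with hw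
  -- the derivative
  have hd1 : HasFDerivAt (fun v : E × (Fin r → ℂ) => (φ ∘ ψ.symm) v.1)
      ((fderiv ℂ (φ ∘ ψ.symm) (ψ (π x))).comp (ContinuousLinearMap.fst ℂ E (Fin r → ℂ)))
      (ψ (π x), w) :=
    HasFDerivAt.comp (f := fun v : E × (Fin r → ℂ) => v.1) (ψ (π x), w) hgd.hasFDerivAt
      hasFDerivAt_fst
  have hd2 : ∀ c, HasFDerivAt (fun v : E × (Fin r → ℂ) => ρ c v.1 * v.2 c)
      (ρ c (ψ (π x)) • ((ContinuousLinearMap.proj c : (Fin r → ℂ) →L[ℂ] ℂ).comp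
        (ContinuousLinearMap.snd ℂ E (Fin r → ℂ))) +
       w c • ((fderiv ℂ (ρ c) (ψ (π x))).comp (ContinuousLinearMap.fst ℂ E (Fin r → ℂ))))
      (ψ (π x), w) := by
    intro c
    have h1 : HasFDerivAt (fun v : E × (Fin r → ℂ) => ρ c v.1)
        ((fderiv ℂ (ρ c) (ψ (π x))).comp (ContinuousLinearMap.fst ℂ E (Fin r → ℂ)))
        (ψ (π x), w) :=
      HasFDerivAt.comp (f := fun v : E × (Fin r → ℂ) => v.1) (ψ (π x), w) (hρd c).hasFDerivAt
        hasFDerivAt_fst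
    have h2 : HasFDerivAt (fun v : E × (Fin r → ℂ) => v.2 c)
        ((ContinuousLinearMap.proj c : (Fin r → ℂ) →L[ℂ] ℂ).comp
          (ContinuousLinearMap.snd ℂ E (Fin r → ℂ))) (ψ (π x), w) :=
      ((ContinuousLinearMap.proj c : (Fin r → ℂ) →L[ℂ] ℂ).comp
        (ContinuousLinearMap.snd ℂ E (Fin r → ℂ))).hasFDerivAt
    exact h1.mul h2
  let T : E × (Fin r → ℂ) →L[ℂ] E × (Fin r → ℂ) :=
      (((fderiv ℂ (φ ∘ ψ.symm) (ψ (π x))).comp (ContinuousLinearMap.fst ℂ E (Fin r → ℂ))).prod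
        (ContinuousLinearMap.pi fun c =>
          (ρ c (ψ (π x)) • ((ContinuousLinearMap.proj c : (Fin r → ℂ) →L[ℂ] ℂ).comp
            (ContinuousLinearMap.snd ℂ E (Fin r → ℂ))) +
           w c • ((fderiv ℂ (ρ c) (ψ (π x))).comp (ContinuousLinearMap.fst ℂ E (Fin r → ℂ))))))
  have hd : HasFDerivAt (fun v : E × (Fin r → ℂ) => ((φ ∘ ψ.symm) v.1, fun c => ρ c v.1 * v.2 c))
      T (ψ (π x), w) := hd1.prodMk (hasFDerivAt_pi.2 hd2)
  have hev := h.jac2_eventually hφ hψ p q b hp hq hx hx' hb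
  have hfd : fderiv ℂ ((h.κ p b φ hφ) ∘ (h.κ q b ψ hψ).symm) (h.κ q b ψ hψ x) = T := by
    rw [hev.fderiv_eq, hκx]
    exact hd.fderiv
  have hdet : jac (h.κ p b φ hφ) (h.κ q b ψ hψ) x =
      jac φ ψ (π x) * ∏ c, ρ c (ψ (π x)) := by
    unfold jac
    rw [hfd]
    refine jac2_det (E := E) (fderiv ℂ (φ ∘ ψ.symm) (ψ (π x)) : E →ₗ[ℂ] E)
      ((ContinuousLinearMap.pi fun c => w c • fderiv ℂ (ρ c) (ψ (π x)) :
        E →L[ℂ] (Fin r → ℂ)) : E →ₗ[ℂ] (Fin r → ℂ)) (fun c => ρ c (ψ (π x))) _ ?_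
    intro v w'
    rfl
  rw [hdet, mul_assoc]
  congr 1
  have h5 : ∀ c, ρ c (ψ (π x)) = h.γ p q (b.succAbove c) (π x) / h.γ p q b (π x) := by
    intro c
    show h.γ p q (b.succAbove c) (ψ.symm (ψ (π x))) / h.γ p q b (ψ.symm (ψ (π x))) = _
    rw [hys]
  simp only [h5, Finset.prod_div_distrib, Finset.prod_const, Finset.card_univ, Fintype.card_fin]
  rw [div_mul_cancel₀ _ (pow_ne_zero _ hγ)]

end SplitBundle

end Pool.Agent.Abd
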