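import Pool.Agent.H.MP_e23cd6_ag.Basic

/-! Entire functions of polynomial growth with holomorphic parameters. -/

set_option autoImplicit false

open scoped Manifold ContDiff Topology ENNReal
open MeasureTheory Set

namespace Pool.Agent.Abd

theorem poly_iter_zero {f : ℂ → ℂ} (hf : Differentiable ℂ f) {d : ℕ} {C : ℝ}
    (hC : ∀ t, ‖f t‖ ≤ C * (1 + ‖t‖) ^ d) {n : ℕ} (hn : d < n) : iteratedDeriv n f 0 = 0 := by
  have hC0 : 0 ≤ C := by
    have h0 := hC 0
    simp only [norm_zero, add_zero, one_pow, mul_one] at h0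
    exact (norm_nonneg _).trans h0
  have h1 : ∀ R : ℝ, 0 < R →
      ‖iteratedDeriv n f 0‖ ≤ n.factorial * (C * (1 + R) ^ d) / R ^ n := by
    intro R hR
    refine Complex.norm_iteratedDeriv_le_of_forall_mem_sphere_norm_le n hR hf.diffContOnCl ?_
    intro z hz
    have hz' : ‖z‖ = R := by simpa using hz
    have h0 := hC z
    rw [hz'] at h0
    exact h0
  have h2 : ∀ R : ℝ, 1 ≤ R → ‖iteratedDeriv n f 0‖ ≤ (n.factorial * C * 2 ^ d) / R := by
    intro R hR
    have hR0 : 0 < R := by linarith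
    refine (h1 R hR0).trans ?_
    rw [div_le_div_iff₀ (pow_pos hR0 n) hR0]
    have h3 : (1 + R) ^ d ≤ (2 * R) ^ d := pow_le_pow_left₀ (by linarith) (by linarith) d
    have h4 : R ^ (d + 1) ≤ R ^ n := pow_le_pow_right₀ hR hn
    have h5 : 0 ≤ (n.factorial : ℝ) * C := by positivity
    calc (n.factorial : ℝ) * (C * (1 + R) ^ d) * R
        = (n.factorial * C) * ((1 + R) ^ d * R) := by ring
      _ ≤ (n.factorial * C) * ((2 * R) ^ d * R) := by
          apply mul_le_mul_of_nonneg_left _ h5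
          exact mul_le_mul_of_nonneg_right h3 hR0.le
      _ = (n.factorial * C * 2 ^ d) * R ^ (d + 1) := by ring
      _ ≤ (n.factorial * C * 2 ^ d) * R ^ n := by
          apply mul_le_mul_of_nonneg_left h4
          positivity
  have h3 : Filter.Tendsto (fun R : ℝ => (n.factorial * C * 2 ^ d) / R) Filter.atTop (𝓝 0) :=
    tendsto_const_nhds.div_atTop Filter.tendsto_id
  have h4 : ‖iteratedDeriv n f 0‖ ≤ 0 :=
    ge_of_tendsto h3 (Filter.eventually_atTop.2 ⟨1, h2⟩)
  exact norm_le_zero_iff.1 h4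

theorem poly_nodes_inj (d : ℕ) :
    Set.InjOn (fun j : Fin (d + 1) => ((j : ℕ) : ℂ)) (Finset.univ : Finset (Fin (d + 1))) := by
  intro i _ j _ hij
  exact Fin.ext (Nat.cast_injective hij)

theorem poly_entire {f : ℂ → ℂ} (hf : Differentiable ℂ f) {d : ℕ} {C : ℝ}
    (hC : ∀ t, ‖f t‖ ≤ C * (1 + ‖t‖) ^ d) :
    ∃ p : Polynomial ℂ, p.degree < (d + 1 : ℕ) ∧ ∀ t, f t = p.eval t := by
  refine ⟨∑ n ∈ Finset.range (d + 1),
    Polynomial.C ((n.factorial : ℂ)⁻¹ * iteratedDeriv n f 0) * Polynomial.X ^ n, ?_, ?_⟩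
  · refine (Polynomial.degree_sum_le _ _).trans_lt ?_
    rw [Finset.sup_lt_iff (by exact WithBot.bot_lt_coe _)]
    intro n hn
    refine (Polynomial.degree_C_mul_X_pow_le _ _).trans_lt ?_
    exact_mod_cast Finset.mem_range.1 hn
  · intro t
    have h1 := Complex.hasSum_taylorSeries_of_entire hf 0 t
    have h2 : HasSum (fun n : ℕ ↦ (n.factorial : ℂ)⁻¹ • (t - 0) ^ n • iteratedDeriv n f 0)
        (∑ n ∈ Finset.range (d + 1),
          (n.factorial : ℂ)⁻¹ • (t - 0) ^ n • iteratedDeriv n f 0) := by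
      apply hasSum_sum_of_ne_finset_zero
      intro n hn
      have hn' : d < n := by
        rw [Finset.mem_range] at hn
        omega
      rw [poly_iter_zero hf hC hn', smul_zero, smul_zero]
    rw [h1.unique h2, Polynomial.eval_finsetSum]
    refine Finset.sum_congr rfl fun n _ => ?_
    rw [Polynomial.eval_mul, Polynomial.eval_C, Polynomial.eval_pow, Polynomial.eval_X, sub_zero,
      smul_eq_mul, smul_eq_mul]
    ring

/-- One variable: an entire function of growth `O((1 + |t|)^d)` is its Lagrange interpolation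
polynomial in the nodes `0, …, d`. (Cauchy estimates: `iteratedDeriv n f 0 = 0` for `n > d`, and
`Complex.taylorSeries_eq_of_entire`.) -/
theorem eq_interpolate {f : ℂ → ℂ} (hf : Differentiable ℂ f) {d : ℕ} {C : ℝ}
    (hC : ∀ t, ‖f t‖ ≤ C * (1 + ‖t‖) ^ d) (t : ℂ) :
    f t = ∑ j : Fin (d + 1), f (j : ℕ) *
      (Lagrange.basis Finset.univ (fun j : Fin (d + 1) => ((j : ℕ) : ℂ)) j).eval t := by
  obtain ⟨p, hp, hfp⟩ := poly_entire hf hC
  have h1 : p.degree < ((Finset.univ : Finset (Fin (d + 1))).card : WithBot ℕ) := by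
    rw [Finset.card_univ, Fintype.card_fin]
    exact hp
  have h2 := Lagrange.eq_interpolate (poly_nodes_inj d) h1
  rw [hfp t, h2, Lagrange.interpolate_apply, Polynomial.eval_finsetSum]
  refine Finset.sum_congr rfl fun j _ => ?_
  rw [Polynomial.eval_mul, Polynomial.eval_C, ← hfp]

theorem poly_mv {ι : Type} [Fintype ι] {r : ℕ} (e : ι → (Fin r → ℕ)) (he : Function.Injective e)
    (a b : ι → ℂ) (h : ∀ w : Fin r → ℂ, ∑ i, a i * ∏ c, w c ^ e i c =
      ∑ i, b i * ∏ c, w c ^ e i c) : a = b := by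
  classical
  let e' : ι → (Fin r →₀ ℕ) := fun i => Finsupp.equivFunOnFinite.symm (e i)
  have he' : Function.Injective e' := Finsupp.equivFunOnFinite.symm.injective.comp he
  have hev : ∀ (a : ι → ℂ) (w : Fin r → ℂ),
      MvPolynomial.eval w (∑ i, MvPolynomial.monomial (e' i) (a i)) =
        ∑ i, a i * ∏ c, w c ^ e i c := by
    intro a w
    rw [map_sum]
    refine Finset.sum_congr rfl fun i _ => ?_
    rw [MvPolynomial.eval_monomial, Finsupp.prod_fintype _ _ (fun c => pow_zero _)]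
    rfl
  have hab : (∑ i, MvPolynomial.monomial (e' i) (a i) : MvPolynomial (Fin r) ℂ) =
      ∑ i, MvPolynomial.monomial (e' i) (b i) := by
    apply MvPolynomial.funext
    intro w
    rw [hev, hev]
    exact h w
  have hco : ∀ (a : ι → ℂ) (i : ι),
      MvPolynomial.coeff (e' i) (∑ i, MvPolynomial.monomial (e' i) (a i)) = a i := by
    intro a i
    rw [MvPolynomial.coeff_sum, Finset.sum_eq_single i]
    · rw [MvPolynomial.coeff_monomial, if_pos rfl]
    · intro j _ hj
      rw [MvPolynomial.coeff_monomial, if_neg (fun h => hj (he' h))]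
    · intro hi
      exact absurd (Finset.mem_univ i) hi
  funext i
  rw [← hco a i, hab, hco b i]

theorem poly_form {r d : ℕ} (s : Idx r d → ℂ) (w : Fin r → ℂ) :
    form s ((0 : Fin (r + 1)).insertNth (1 : ℂ) w) =
      ∑ α : Idx r d, s α * ∏ c : Fin r, w c ^ (α.1 c.succ : ℕ) := by
  unfold form
  refine Finset.sum_congr rfl fun α _ => ?_
  rw [Fin.prod_univ_succ]
  simp

theorem poly_idx_inj {r d : ℕ} {α β : Idx r d} (h : ∀ c : Fin r, (α.1 c.succ : ℕ) = β.1 c.succ) :
    α = β := by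
  have h0 : (α.1 0 : ℕ) = β.1 0 := by
    have h1 := α.2
    have h2 := β.2
    rw [Fin.sum_univ_succ] at h1 h2
    have h3 : ∑ c : Fin r, (α.1 c.succ : ℕ) = ∑ c : Fin r, (β.1 c.succ : ℕ) :=
      Finset.sum_congr rfl fun c _ => h c
    omega
  apply Subtype.ext
  funext c
  refine Fin.cases ?_ (fun c => ?_) c
  · exact Fin.ext h0
  · exact Fin.ext (h c)

/-- A form is determined by its values at the points with `x_0 = 1`.
(`MvPolynomial.funext`; or induction. The monomials `∏ c : Fin r, w c ^ α (c.succ)`, `α ∈ Idx r d`,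
are different monomials since `α 0 = d - ∑ c, α c.succ`.) -/
theorem coef_unique {r d : ℕ} (s s' : Idx r d → ℂ)
    (h : ∀ w : Fin r → ℂ, form s ((0 : Fin (r + 1)).insertNth (1 : ℂ) w) =
      form s' ((0 : Fin (r + 1)).insertNth (1 : ℂ) w)) : s = s' := by
  refine poly_mv (fun α : Idx r d => fun c : Fin r => (α.1 c.succ : ℕ)) ?_ s s' ?_
  · intro α β hαβ
    exact poly_idx_inj fun c => congrFun hαβ c
  · intro w
    rw [← poly_form, ← poly_form]
    exact h w

theorem poly_norm_cons {r : ℕ} (t : ℂ) (w : Fin r → ℂ) :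
    1 + ‖(Fin.cons t w : Fin (r + 1) → ℂ)‖ ≤ (1 + ‖t‖) * (1 + ‖w‖) := by
  have h1 : ‖(Fin.cons t w : Fin (r + 1) → ℂ)‖ ≤ ‖t‖ + ‖w‖ := by
    rw [pi_norm_le_iff_of_nonneg (by positivity)]
    intro i
    refine Fin.cases ?_ (fun i => ?_) i
    · rw [Fin.cons_zero]
      linarith [norm_nonneg w]
    · rw [Fin.cons_succ]
      linarith [norm_nonneg t, norm_le_pi_norm w i]
  nlinarith [norm_nonneg t, norm_nonneg w, mul_nonneg (norm_nonneg t) (norm_nonneg w)]

theorem poly_basis_eval (d : ℕ) (j : Fin (d + 1)) (x : ℂ) :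
    (Lagrange.basis Finset.univ (fun j : Fin (d + 1) => ((j : ℕ) : ℂ)) j).eval x =
      ∑ n : Fin (d + 1),
        (Lagrange.basis Finset.univ (fun j : Fin (d + 1) => ((j : ℕ) : ℂ)) j).coeff n * x ^ (n : ℕ) := by
  rw [Polynomial.eval_eq_sum_range' (n := d + 1), Finset.sum_range]
  have h1 := Lagrange.degree_basis (poly_nodes_inj d) (Finset.mem_univ j)
  rw [Finset.card_univ, Fintype.card_fin, Nat.add_sub_cancel] at h1
  rw [Polynomial.natDegree_eq_of_degree_eq_some h1]
  exact Nat.lt_succ_self d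

theorem poly_ex {V : Type} [NormedAddCommGroup V] [NormedSpace ℂ V] (d : ℕ) (U : Set V) :
    ∀ (r : ℕ) (f : V × (Fin r → ℂ) → ℂ), (∀ v ∈ U, ∀ w, ContDiffAt ℂ ω f (v, w)) →
    (∀ v ∈ U, ∃ C : ℝ, ∀ w, ‖f (v, w)‖ ≤ C * (1 + ‖w‖) ^ d) →
    ∃ c : (Fin r → Fin (d + 1)) → V → ℂ, (∀ β, ∀ v ∈ U, ContDiffAt ℂ ω (c β) v) ∧
      ∀ v ∈ U, ∀ w, f (v, w) = ∑ β, c β v * ∏ i, w i ^ (β i : ℕ) := by
  intro r
  induction r with
  | zero =>
    intro f hf hg
    refine ⟨fun _ v => f (v, 0), ?_, ?_⟩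
    · intro β v hv
      exact (hf v hv 0).comp v (contDiffAt_id.prodMk contDiffAt_const)
    · intro v hv w
      have hw : w = 0 := Subsingleton.elim _ _
      subst hw
      simp
  | succ r ih =>
    intro f hf hg
    have h1 : ∀ j : Fin (d + 1), ∃ c : (Fin r → Fin (d + 1)) → V → ℂ,
        (∀ β, ∀ v ∈ U, ContDiffAt ℂ ω (c β) v) ∧
        ∀ v ∈ U, ∀ w, f (v, (Fin.cons ((j : ℕ) : ℂ) w : Fin (r + 1) → ℂ)) =
          ∑ β, c β v * ∏ i, w i ^ (β i : ℕ) := by
      intro j
      refine ih (fun p => f (p.1, (Fin.cons ((j : ℕ) : ℂ) p.2 : Fin (r + 1) → ℂ))) ?_ ?_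
      · intro v hv w
        have h2 : ContDiff ℂ ω (fun p : V × (Fin r → ℂ) =>
            (p.1, (Fin.cons ((j : ℕ) : ℂ) p.2 : Fin (r + 1) → ℂ))) := by
          refine contDiff_fst.prodMk (contDiff_pi.2 fun i => ?_)
          refine Fin.cases ?_ (fun i => ?_) i
          · simp only [Fin.cons_zero]
            exact contDiff_const
          · simp only [Fin.cons_succ]
            exact (contDiff_apply ℂ ℂ i).comp contDiff_snd
        exact ContDiffAt.comp (v, w) (hf v hv _) h2.contDiffAt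
      · intro v hv
        obtain ⟨C, hC⟩ := hg v hv
        have hC0 : 0 ≤ C := by
          have h0 := hC 0
          simp only [norm_zero, add_zero, one_pow, mul_one] at h0
          exact (norm_nonneg _).trans h0
        refine ⟨C * (1 + ‖((j : ℕ) : ℂ)‖) ^ d, fun w => (hC _).trans ?_⟩
        rw [mul_assoc, ← mul_pow]
        apply mul_le_mul_of_nonneg_left _ hC0
        exact pow_le_pow_left₀ (by positivity) (poly_norm_cons _ w) d
    choose c hc1 hc2 using h1
    refine ⟨fun β v => ∑ j, c j (Fin.tail β) v *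
      (Lagrange.basis Finset.univ (fun j : Fin (d + 1) => ((j : ℕ) : ℂ)) j).coeff (β 0 : ℕ),
      ?_, ?_⟩
    · intro β v hv
      refine ContDiffAt.sum fun j _ => ?_
      exact (hc1 j _ v hv).mul contDiffAt_const
    · intro v hv w
      obtain ⟨C, hC⟩ := hg v hv
      have hC0 : 0 ≤ C := by
        have h0 := hC 0
        simp only [norm_zero, add_zero, one_pow, mul_one] at h0
        exact (norm_nonneg _).trans h0
      obtain ⟨t, w', rfl⟩ : ∃ t w', w = (Fin.cons t w' : Fin (r + 1) → ℂ) :=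
        ⟨w 0, Fin.tail w, (Fin.cons_self_tail w).symm⟩
      have hd : Differentiable ℂ (fun t : ℂ => f (v, (Fin.cons t w' : Fin (r + 1) → ℂ))) := by
        intro t
        have h3 : DifferentiableAt ℂ f (v, (Fin.cons t w' : Fin (r + 1) → ℂ)) :=
          (hf v hv _).differentiableAt (by simp)
        have h4 : DifferentiableAt ℂ
            (fun t : ℂ => (v, (Fin.cons t w' : Fin (r + 1) → ℂ))) t := by
          refine (differentiableAt_const v).prodMk (differentiableAt_pi.2 fun i => ?_)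
          refine Fin.cases ?_ (fun i => ?_) i
          · simp only [Fin.cons_zero]
            exact differentiableAt_id
          · simp only [Fin.cons_succ]
            exact differentiableAt_const _
        exact DifferentiableAt.comp t h3 h4
      have hgr : ∀ t : ℂ, ‖f (v, (Fin.cons t w' : Fin (r + 1) → ℂ))‖ ≤
          (C * (1 + ‖w'‖) ^ d) * (1 + ‖t‖) ^ d := by
        intro t
        refine (hC _).trans ?_
        rw [mul_assoc, ← mul_pow]
        apply mul_le_mul_of_nonneg_left _ hC0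
        refine pow_le_pow_left₀ (by positivity) ?_ d
        rw [mul_comm]
        exact poly_norm_cons t w'
      have e1 := eq_interpolate hd hgr t
      rw [e1]
      rw [← (Fin.consEquiv (fun _ : Fin (r + 1) => Fin (d + 1))).sum_comp, Fintype.sum_prod_type]
      have e2 : ∀ j : Fin (d + 1), f (v, (Fin.cons ((j : ℕ) : ℂ) w' : Fin (r + 1) → ℂ)) *
          (Lagrange.basis Finset.univ (fun j : Fin (d + 1) => ((j : ℕ) : ℂ)) j).eval t =
          ∑ n : Fin (d + 1), ∑ β : Fin r → Fin (d + 1), c j β v *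
            (Lagrange.basis Finset.univ (fun j : Fin (d + 1) => ((j : ℕ) : ℂ)) j).coeff (n : ℕ) *
            (t ^ (n : ℕ) * ∏ i, w' i ^ (β i : ℕ)) := by
        intro j
        rw [hc2 j v hv w', poly_basis_eval, Finset.mul_sum]
        refine Finset.sum_congr rfl fun n _ => ?_
        rw [Finset.sum_mul]
        refine Finset.sum_congr rfl fun β _ => ?_
        ring
      simp only [e2]
      rw [Finset.sum_comm]
      refine Finset.sum_congr rfl fun n _ => ?_
      rw [Finset.sum_comm]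
      refine Finset.sum_congr rfl fun β _ => ?_
      have e3 : Fin.tail ((Fin.consEquiv (fun _ : Fin (r + 1) => Fin (d + 1))) (n, β)) = β := rfl
      rw [e3]
      simp only [Fin.consEquiv_apply, Fin.cons_zero, Fin.prod_univ_succ, Fin.cons_succ]
      rw [Finset.sum_mul]

theorem poly_high {r d : ℕ} {C : ℝ} (a : (Fin r → Fin (d + 1)) → ℂ)
    (hC : ∀ w : Fin r → ℂ, ‖∑ β, a β * ∏ i, w i ^ (β i : ℕ)‖ ≤ C * (1 + ‖w‖) ^ d)
    (β₀ : Fin r → Fin (d + 1)) (hβ : d < ∑ i, (β₀ i : ℕ)) : a β₀ = 0 := by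
  classical
  have hC0 : 0 ≤ C := by
    have h0 := hC 0
    simp only [norm_zero, add_zero, one_pow, mul_one] at h0
    exact (norm_nonneg _).trans h0
  have key : ∀ w : Fin r → ℂ,
      ∑ β : Fin r → Fin (d + 1), (if ∑ i, (β i : ℕ) = ∑ i, (β₀ i : ℕ) then a β else 0) *
        ∏ i, w i ^ (β i : ℕ) = 0 := by
    intro w
    let p : Polynomial ℂ := ∑ β : Fin r → Fin (d + 1),
      Polynomial.C (a β * ∏ i, w i ^ (β i : ℕ)) * Polynomial.X ^ (∑ i, (β i : ℕ))
    have hp : ∀ t : ℂ, p.eval t = ∑ β, a β * ∏ i, (t • w) i ^ (β i : ℕ) := by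
      intro t
      simp only [p]
      rw [Polynomial.eval_finsetSum]
      refine Finset.sum_congr rfl fun β _ => ?_
      rw [Polynomial.eval_mul, Polynomial.eval_C, Polynomial.eval_pow, Polynomial.eval_X,
        mul_assoc]
      congr 1
      simp only [Pi.smul_apply, smul_eq_mul, mul_pow]
      rw [Finset.prod_mul_distrib, Finset.prod_pow_eq_pow_sum]
      ring
    have hgr : ∀ t : ℂ, ‖p.eval t‖ ≤ (C * (1 + ‖w‖) ^ d) * (1 + ‖t‖) ^ d := by
      intro t
      rw [hp]
      refine (hC _).trans ?_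
      rw [mul_assoc, ← mul_pow]
      apply mul_le_mul_of_nonneg_left _ hC0
      refine pow_le_pow_left₀ (by positivity) ?_ d
      rw [norm_smul]
      nlinarith [norm_nonneg t, norm_nonneg w]
    obtain ⟨q, hq, hpq⟩ := poly_entire (f := fun t => p.eval t) p.differentiable hgr
    have hpq' : p = q := Polynomial.funext hpq
    have h1 : p.coeff (∑ i, (β₀ i : ℕ)) = 0 := by
      rw [hpq']
      apply Polynomial.coeff_eq_zero_of_degree_lt
      refine hq.trans_le ?_
      exact_mod_cast hβ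
    simp only [p] at h1
    rw [Polynomial.finsetSum_coeff] at h1
    refine Eq.trans ?_ h1
    refine Finset.sum_congr rfl fun β _ => ?_
    rw [Polynomial.coeff_C_mul, Polynomial.coeff_X_pow]
    by_cases h : ∑ i, (β i : ℕ) = ∑ i, (β₀ i : ℕ)
    · rw [if_pos h, if_pos h.symm, mul_one]
    · rw [if_neg h, if_neg (fun h' => h h'.symm), mul_zero, zero_mul]
  have h2 := poly_mv (fun β : Fin r → Fin (d + 1) => fun c : Fin r => (β c : ℕ))
    (fun β γ h => funext fun c => Fin.ext (congrFun h c))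
    (fun β => if ∑ i, (β i : ℕ) = ∑ i, (β₀ i : ℕ) then a β else 0) (fun _ => 0) (by
      intro w
      rw [key w]
      simp)
  have h3 := congrFun h2 β₀
  simpa using h3

/-- Let `f (v, w)` be analytic on `U × ℂ^r` with, for each `v ∈ U`, a bound
`‖f (v, w)‖ ≤ C (1 + ‖w‖)^d`. Then `f (v, w) = form (c · v) (1, w)` with coefficients `c α` analytic
on `U`.

Proof. Apply `eq_interpolate` in each of the `r` variables `w c` in turn (the other variables fixed,
in particular values in `{0, …, d}` after they have been treated):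
`f (v, w) = ∑ J : Fin r → Fin (d+1), f (v, J) * ∏ c, (basis (J c)).eval (w c)`.
Expand into monomials: `f (v, w) = ∑ β : Fin r → Fin (d+1), c' β v * ∏ c, w c ^ β c` with
`c' β v = ∑ J, f (v, J) * ∏ c, (basis (J c)).coeff (β c)`, analytic in `v` as a finite sum of
`v ↦ f (v, J)`. The coefficients with `∑ β > d` vanish: for fixed `v, w` the polynomial
`λ ↦ f (v, λ • w) = ∑_n λ^n * (∑_{|β| = n} c' β v * w ^ β)` is `O(|λ|^d)`, so its coefficients with
`n > d` are zero for all `w`; then use `MvPolynomial.funext`. Finally reindex: `β` with `∑ β ≤ d`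
corresponds to `α ∈ Idx r d` with `α c.succ = β c`, `α 0 = d - ∑ β`. -/
theorem poly_expand {V : Type} [NormedAddCommGroup V] [NormedSpace ℂ V] {r d : ℕ} (U : Set V)
    (f : V × (Fin r → ℂ) → ℂ) (hf : ∀ v ∈ U, ∀ w, ContDiffAt ℂ ω f (v, w))
    (hg : ∀ v ∈ U, ∃ C : ℝ, ∀ w, ‖f (v, w)‖ ≤ C * (1 + ‖w‖) ^ d) :
    ∃ c : Idx r d → V → ℂ, (∀ α, ∀ v ∈ U, ContDiffAt ℂ ω (c α) v) ∧
      ∀ v ∈ U, ∀ w, f (v, w) = form (fun α => c α v) ((0 : Fin (r + 1)).insertNth (1 : ℂ) w) := by
  obtain ⟨c, hc1, hc2⟩ := poly_ex d U r f hf hg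
  refine ⟨fun α => c (fun i => α.1 i.succ), fun α v hv => hc1 _ v hv, fun v hv w => ?_⟩
  rw [poly_form, hc2 v hv w]
  symm
  refine Fintype.sum_of_injective (fun α : Idx r d => fun i : Fin r => α.1 i.succ) ?_ _ _ ?_ ?_
  · intro α β hαβ
    exact poly_idx_inj fun c => congrArg Fin.val (congrFun hαβ c)
  · intro β hβ
    obtain ⟨C, hC⟩ := hg v hv
    have hlt : d < ∑ i, (β i : ℕ) := by
      by_contra hle
      push Not at hle
      apply hβ
      refine ⟨⟨Fin.cons ⟨d - ∑ i, (β i : ℕ), by omega⟩ β, ?_⟩, ?_⟩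
      · rw [Fin.sum_univ_succ]
        simp only [Fin.cons_zero, Fin.cons_succ]
        omega
      · funext i
        simp only [Fin.cons_succ]
    rw [poly_high (C := C) (fun β => c β v) (fun w => by rw [← hc2 v hv w]; exact hC w) β hlt,
      zero_mul]
  · intro α
    rfl

end Pool.Agent.Abd
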