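import Pool.Agent.H.MP_e23cd6_ag.Jac1
import Pool.Agent.H.MP_e23cd6_ag.Jac2
import Pool.Agent.H.MP_e23cd6_ag.Poly

/-! The coefficients of a section of `(π^* L ⊗ 𝒪(a))^k ⊗ K^(-m)`. -/

set_option autoImplicit false

open scoped Manifold ContDiff Topology ENNReal
open MeasureTheory Set

namespace Pool.Agent.Abd

namespace SplitBundle

variable {E : Type} [NormedAddCommGroup E] [NormedSpace ℂ E] [FiniteDimensional ℂ E] {r : ℕ}
variable {X Y : Type} [TopologicalSpace X] [TopologicalSpace Y]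
  [ChartedSpace (E × (Fin r → ℂ)) X] [ChartedSpace E Y]
variable {π : X → Y} (h : SplitBundle E r π)
variable [IsManifold 𝓘(ℂ, E) ω Y] [IsManifold 𝓘(ℂ, E × (Fin r → ℂ)) ω X]
variable {L : LineBundle E Y} {a k m : ℕ}

/-- The local functions in the charts `κ p b φ` and `κ p c φ`: `|f_b| = |x_c / x_b| ^ d |f_c|`,
`d = k * a + (r + 1) * m`.
Proof. `s.trans (i,p,b) (i,p,c) (κ p b φ) (κ p c φ) x`: the transition function of `twist` is
`L.g i i * (γ p p b * z p b x c) ^ a = z p b x c ^ a` (`L.one`, `γ_one`), and `norm_jac_same`. -/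
theorem norm_f_same (s : Sec (h.twist L a) k m) {φ : OpenPartialHomeomorph Y E}
    (hφ : φ ∈ Charts E Y) (i : L.ι) (p : h.P) (b c : Fin (r + 1)) {x : X} (hi : π x ∈ L.U i)
    (hp : π x ∈ h.W p) (hx : π x ∈ φ.source) (hb : x ∉ h.H b) (hc : x ∉ h.H c) :
    ‖s.f (i, p, b) (h.κ p b φ hφ) x‖ =
      ‖h.z p b x c‖ ^ (k * a + (r + 1) * m) * ‖s.f (i, p, c) (h.κ p c φ hφ) x‖ := by
  have h1 := s.trans (i, p, b) (i, p, c) (h.κ p b φ hφ) (h.κ_mem hφ p b) (h.κ p c φ hφ)
    (h.κ_mem hφ p c) x ⟨hi, hp, hb⟩ ⟨hi, hp, hc⟩ ((h.mem_κ_source hφ p b x).2 ⟨hp, hx, hb⟩)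
    ((h.mem_κ_source hφ p c x).2 ⟨hp, hx, hc⟩)
  have h2 : (h.twist L a).g (i, p, b) (i, p, c) x =
      L.g i i (π x) * (h.γ p p b (π x) * h.z p b x c) ^ a := rfl
  rw [h2, L.one i _ hi, h.γ_one p b _ hp, one_mul, one_mul] at h1
  rw [h1, norm_mul, norm_mul, norm_pow, norm_pow, norm_pow, h.norm_jac_same hφ p b c hp hx hb hc,
    ← pow_mul, ← pow_mul, mul_comm a k, ← pow_add]

omit [NormedAddCommGroup E] [NormedSpace ℂ E] [FiniteDimensional ℂ E] in
theorem coef_form_smul {d : ℕ} (s : Idx r d → ℂ) (t : ℂ) (v u : Fin (r + 1) → ℂ)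
    (hu : ∀ e, u e = t * v e) : form s u = t ^ d * form s v := by
  unfold form
  rw [Finset.mul_sum]
  refine Finset.sum_congr rfl fun α _ => ?_
  have h0 : t ^ d = ∏ c, t ^ (α.1 c : ℕ) := by rw [Finset.prod_pow_eq_pow_sum, α.2]
  have h1 : ∏ c, u c ^ (α.1 c : ℕ) = t ^ d * ∏ c, v c ^ (α.1 c : ℕ) := by
    rw [h0, ← Finset.prod_mul_distrib]
    refine Finset.prod_congr rfl fun c _ => ?_
    rw [hu c, mul_pow]
  rw [h1]
  ring

theorem coef_form_continuous {d : ℕ} (s : Idx r d → ℂ) : Continuous (form s) := by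
  unfold form
  fun_prop

/-- the local function has polynomial growth on the fibre -/
theorem coef_bound (s : Sec (h.twist L a) k m) {φ : OpenPartialHomeomorph Y E}
    (hφ : φ ∈ Charts E Y) (i : L.ι) (p : h.P) {y : Y} (hi : y ∈ L.U i) (hp : y ∈ h.W p)
    (hy : y ∈ φ.source) : ∃ C : ℝ, ∀ w : Fin r → ℂ,
      ‖h.loc s i p 0 φ hφ (φ y, w)‖ ≤ C * (1 + ‖w‖) ^ (k * a + (r + 1) * m) := by
  have hcont : ∀ b : Fin (r + 1), Continuous fun w : Fin r → ℂ => h.loc s i p b φ hφ (φ y, w) := by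
    intro b
    rw [continuous_iff_continuousAt]
    intro w
    have h1 := (h.loc_analyticAt hφ s b hi hp hy w).continuousAt
    have h2 : ContinuousAt (fun w : Fin r → ℂ => (φ y, w)) w :=
      (Continuous.prodMk_right (φ y)).continuousAt
    exact ContinuousAt.comp (f := fun w : Fin r → ℂ => (φ y, w)) h1 h2
  have hbd : ∀ b : Fin (r + 1), ∃ M : ℝ, ∀ w ∈ Metric.closedBall (0 : Fin r → ℂ) 1,
      ‖h.loc s i p b φ hφ (φ y, w)‖ ≤ M := fun b =>
    (isCompact_closedBall (0 : Fin r → ℂ) 1).exists_bound_of_continuousOn (hcont b).continuousOn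
  choose M hM using hbd
  have hM0 : ∀ b, 0 ≤ M b := fun b => (norm_nonneg _).trans (hM b 0 (by simp))
  refine ⟨∑ b, M b, fun w => ?_⟩
  have hd : h.loc s i p 0 φ hφ (φ y, w) = s.f (i, p, 0) (h.κ p 0 φ hφ) (h.pt p 0 φ hφ y w) := rfl
  rw [hd]
  have hz := h.z_pt hφ p 0 hp hy w
  have hπ := h.pi_pt hφ p 0 hp hy w
  have hx0 := h.pt_notMem hφ p 0 hp hy w
  generalize h.pt p 0 φ hφ y w = x at hz hπ hx0
  have hpx : π x ∈ h.W p := by rw [hπ]; exact hp
  obtain ⟨b, hb⟩ := Finite.exists_max fun e => ‖h.z p 0 x e‖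
  have hz0 : h.z p 0 x 0 = 1 := h.z_self p 0 x hpx hx0
  have hb1 : 1 ≤ ‖h.z p 0 x b‖ := by
    have := hb 0
    simp only [hz0, norm_one] at this
    exact this
  have hb2 : ‖h.z p 0 x b‖ ≤ 1 + ‖w‖ := by
    rw [hz]
    rcases Fin.eq_self_or_eq_succAbove 0 b with rfl | ⟨c, rfl⟩
    · rw [Fin.insertNth_apply_same, norm_one]
      linarith [norm_nonneg w]
    · rw [Fin.insertNth_apply_succAbove]
      linarith [norm_le_pi_norm w c]
  have hbne : h.z p 0 x b ≠ 0 := by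
    intro h0
    rw [h0, norm_zero] at hb1
    linarith
  have hxb : x ∉ h.H b := fun hmem => hbne ((h.z_eq_zero p 0 b x hpx hx0).2 hmem)
  rw [h.norm_f_same s hφ i p 0 b (by rw [hπ]; exact hi) hpx (by rw [hπ]; exact hy) hx0 hxb]
  have hxs : x ∈ (h.κ p b φ hφ).source :=
    (h.mem_κ_source hφ p b x).2 ⟨hpx, by rw [hπ]; exact hy, hxb⟩
  have h3 := h.pt_eq hφ p b hxs
  rw [hπ] at h3
  have h4 : s.f (i, p, b) (h.κ p b φ hφ) x =
      h.loc s i p b φ hφ (φ y, fun c => h.z p b x (b.succAbove c)) := by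
    rw [h.loc_pt hφ s i p b y, h3]
  have h5 : (fun c => h.z p b x (b.succAbove c)) ∈ Metric.closedBall (0 : Fin r → ℂ) 1 := by
    rw [mem_closedBall_zero_iff, pi_norm_le_iff_of_nonneg zero_le_one]
    intro c
    have h6 := h.z_mul p 0 b (b.succAbove c) x hpx hx0 hxb
    have h7 : ‖h.z p 0 x b‖ * ‖h.z p b x (b.succAbove c)‖ ≤ ‖h.z p 0 x b‖ * 1 := by
      rw [← norm_mul, h6, mul_one]
      exact hb _
    exact le_of_mul_le_mul_left h7 (by linarith)
  have h8 : ‖s.f (i, p, b) (h.κ p b φ hφ) x‖ ≤ ∑ b, M b := by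
    rw [h4]
    exact (hM b _ h5).trans (Finset.single_le_sum (fun b _ => hM0 b) (Finset.mem_univ b))
  have h9 : ‖h.z p 0 x b‖ ^ (k * a + (r + 1) * m) ≤ (1 + ‖w‖) ^ (k * a + (r + 1) * m) :=
    pow_le_pow_left₀ (norm_nonneg _) hb2 _
  rw [mul_comm]
  exact mul_le_mul h8 h9 (by positivity) (Finset.sum_nonneg fun b _ => hM0 b)

/-- the coefficients for one frame and one chart -/
theorem coef_one (s : Sec (h.twist L a) k m) (i : L.ι) (p : h.P)
    (φ : OpenPartialHomeomorph Y E) : ∃ c : Idx r (k * a + (r + 1) * m) → E → ℂ,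
      ∀ hφ : φ ∈ Charts E Y, (∀ α y, y ∈ L.U i → y ∈ h.W p → y ∈ φ.source →
        ContDiffAt ℂ ω (c α) (φ y)) ∧ ∀ y, y ∈ L.U i → y ∈ h.W p → y ∈ φ.source →
        ∀ w : Fin r → ℂ, h.loc s i p 0 φ hφ (φ y, w) =
          form (fun α => c α (φ y)) ((0 : Fin (r + 1)).insertNth (1 : ℂ) w) := by
  by_cases hφ : φ ∈ Charts E Y
  · obtain ⟨c, hc1, hc2⟩ := poly_expand (d := k * a + (r + 1) * m)
      (φ '' (L.U i ∩ (h.W p ∩ φ.source))) (h.loc s i p 0 φ hφ) (by
        rintro v ⟨y, ⟨hi, hp, hy⟩, rfl⟩ w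
        exact h.loc_analyticAt hφ s 0 hi hp hy w) (by
        rintro v ⟨y, ⟨hi, hp, hy⟩, rfl⟩
        exact h.coef_bound s hφ i p hi hp hy)
    refine ⟨c, fun _ => ⟨fun α y hi hp hy => hc1 α _ ⟨y, ⟨hi, hp, hy⟩, rfl⟩,
      fun y hi hp hy w => hc2 _ ⟨y, ⟨hi, hp, hy⟩, rfl⟩ w⟩⟩
  · exact ⟨fun _ _ => 0, fun h' => absurd h' hφ⟩

/-- the representation at any point of the fibre away from `H 0` -/
theorem coef_rep (s : Sec (h.twist L a) k m) (i : L.ι) (p : h.P)
    {φ : OpenPartialHomeomorph Y E} (hφ : φ ∈ Charts E Y)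
    (c : Idx r (k * a + (r + 1) * m) → ℂ) {y : Y} (hp : y ∈ h.W p) (hy : y ∈ φ.source)
    (hc : ∀ w : Fin r → ℂ, h.loc s i p 0 φ hφ (φ y, w) =
      form c ((0 : Fin (r + 1)).insertNth (1 : ℂ) w)) {x : X} (hπ : π x = y) (hx : x ∉ h.H 0) :
    s.f (i, p, 0) (h.κ p 0 φ hφ) x = form c (h.z p 0 x) := by
  have hxs : x ∈ (h.κ p 0 φ hφ).source :=
    (h.mem_κ_source hφ p 0 x).2 ⟨by rw [hπ]; exact hp, by rw [hπ]; exact hy, hx⟩
  have h3 := h.pt_eq hφ p 0 hxs
  rw [hπ] at h3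
  have h4 := hc (fun e => h.z p 0 x ((0 : Fin (r + 1)).succAbove e))
  rw [h.loc_pt hφ s i p 0 y, h3] at h4
  have h5 := h.z_pt hφ p 0 hp hy (fun e => h.z p 0 x ((0 : Fin (r + 1)).succAbove e))
  rw [h3] at h5
  rw [h4, ← h5]

/-- Existence of the coefficients.

Proof. Let `d = k * a + (r + 1) * m`. For `y ∈ U = L.U i ∩ W p ∩ φ.source` and the chart `b = 0` the
function `f (v, w) = loc s i p 0 φ (v, w)` is analytic at `(φ y, w)` (`loc_analyticAt`) and, for fixed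
`y`, `‖f (φ y, w)‖ ≤ C (1 + ‖w‖) ^ d`: let `x = pt p 0 φ y w`, choose `b` with `‖z p 0 x b‖` maximal
(it is `≥ ‖z p 0 x 0‖ = 1` and `≤ 1 + ‖w‖`), so `x ∉ H b` (`z_eq_zero`), and by `norm_f_same`
`‖f (φ y, w)‖ = ‖z p 0 x b‖ ^ d * ‖loc s i p b φ (φ y, w')‖`, where `w' c = z p b x (b.succAbove c)`,
`‖w' c‖ = ‖z p 0 x (…)‖ / ‖z p 0 x b‖ ≤ 1` (`z_mul`), and `w' ↦ ‖loc s i p b φ (φ y, w')‖` is
continuous, hence bounded on the closed unit ball (`pt_eq` for `x = pt p b φ y w'`).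
Apply `poly_expand` on `φ '' U`; put `c i p φ α y = c_α (φ y)` (junk outside). `hol`: composition with
the chart `φ`. `rep` for `b = 0`: `z_pt`, for all `b`: for `w` with `x = pt p b φ y w ∉ H 0`
`‖s.f (i,p,b) x‖ = ‖z p b x 0‖ ^ d * ‖s.f (i,p,0) x‖ = ‖z p b x 0‖ ^ d * ‖form c (z p 0 x)‖ =
‖form c (z p b x)‖` (homogeneity, `z p b x 0 * z p 0 x e = z p b x e`), `z p b x = b.insertNth 1 w`;
the set of `w` with `(b.insertNth 1 w) 0 ≠ 0` is dense and both sides are continuous in `w`.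
`trans`: for `x = pt q 0 ψ y w`, all `w`: `s.trans (i,p,0) (j,q,0) (κ p 0 φ) (κ q 0 ψ) x` with
`g = L.g i j y * (γ q p 0 y * 1) ^ a` and `jac_change`:
`form c_{ip} (z p 0 x) = L.g i j y ^ k * γ q p 0 y ^ (k a) * (jac φ ψ y * ∏_{c ≠ 0} γ p q c y / γ p q 0 y ^ r) ^ m
* form c_{jq} (z q 0 x)` and `γ p q 0 y * z p 0 x e = γ p q e y * z q 0 x e` (`z_trans`), so
`γ_0 ^ d * form c_{ip} (z p 0 x) = ∑ c_{ip α} γ ^ α (z q 0 x) ^ α`; compare with `coef_unique`
(`γ q p 0 y = (γ p q 0 y)⁻¹`). NOTE: representation at `b = 0` has to hold without absolute values for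
this: use an internal version (`loc s i p 0 φ (φ y, w) = form …`). -/
theorem exists_coef (s : Sec (h.twist L a) k m) :
    ∃ c : L.ι → h.P → OpenPartialHomeomorph Y E → Idx r (k * a + (r + 1) * m) → Y → ℂ,
      (∀ i p, ∀ φ ∈ Charts E Y, ∀ y, y ∈ L.U i → y ∈ h.W p → y ∈ φ.source →
        ∀ α, HolAt E (c i p φ α) y) ∧
      (∀ i p b φ (hφ : φ ∈ Charts E Y) y, y ∈ L.U i → y ∈ h.W p → y ∈ φ.source →
        ∀ w : Fin r → ℂ, ‖h.loc s i p b φ hφ (φ y, w)‖ =
          ‖form (fun α => c i p φ α y) (b.insertNth (1 : ℂ) w)‖) ∧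
      (∀ i j p q, ∀ φ ∈ Charts E Y, ∀ ψ ∈ Charts E Y, ∀ y, y ∈ L.U i → y ∈ L.U j → y ∈ h.W p →
        y ∈ h.W q → y ∈ φ.source → y ∈ ψ.source → ∀ α,
        c i p φ α y * ∏ e, h.γ p q e y ^ (α.1 e : ℕ) =
          L.g i j y ^ k * jac φ ψ y ^ m * (∏ e, h.γ p q e y) ^ m * c j q ψ α y) := by
  choose c hc using fun (i : L.ι) (p : h.P) (φ : OpenPartialHomeomorph Y E) => h.coef_one s i p φ
  refine ⟨fun i p φ α y => c i p φ α (φ y), ?_, ?_, ?_⟩
  · intro i p φ hφ y hi hp hy α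
    have h1 : ContMDiffAt 𝓘(ℂ, E) 𝓘(ℂ) ω (c i p φ α) (φ y) :=
      ((hc i p φ hφ).1 α y hi hp hy).contMDiffAt
    exact h1.comp y (contMDiffAt_of_mem_maximalAtlas hφ hy)
  · intro i p b φ hφ y hi hp hy w
    have hrep := (hc i p φ hφ).2 y hi hp hy
    have hcA : Continuous fun w : Fin r → ℂ => ‖h.loc s i p b φ hφ (φ y, w)‖ := by
      refine Continuous.norm ?_
      rw [continuous_iff_continuousAt]
      intro w
      have h1 := (h.loc_analyticAt hφ s b hi hp hy w).continuousAt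
      have h2 : ContinuousAt (fun w : Fin r → ℂ => (φ y, w)) w :=
        (Continuous.prodMk_right (φ y)).continuousAt
      exact ContinuousAt.comp (f := fun w : Fin r → ℂ => (φ y, w)) h1 h2
    have hcB : Continuous fun w : Fin r → ℂ =>
        ‖form (fun α => c i p φ α (φ y)) (b.insertNth (1 : ℂ) w)‖ := by
      refine Continuous.norm ((coef_form_continuous _).comp ?_)
      refine continuous_pi fun e => ?_
      rcases Fin.eq_self_or_eq_succAbove b e with rfl | ⟨e', rfl⟩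
      · simp only [Fin.insertNth_apply_same]
        exact continuous_const
      · simp only [Fin.insertNth_apply_succAbove]
        exact continuous_apply e'
    have hdense : Dense {w : Fin r → ℂ | (b.insertNth (1 : ℂ) w : Fin (r + 1) → ℂ) 0 ≠ 0} := by
      rcases Fin.eq_self_or_eq_succAbove b 0 with h0 | ⟨e', h0⟩
      · have : {w : Fin r → ℂ | (b.insertNth (1 : ℂ) w : Fin (r + 1) → ℂ) 0 ≠ 0} = univ := by
          ext w
          simp only [mem_setOf_eq, mem_univ, iff_true]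
          rw [h0, Fin.insertNth_apply_same]
          exact one_ne_zero
        rw [this]
        exact dense_univ
      · have : {w : Fin r → ℂ | (b.insertNth (1 : ℂ) w : Fin (r + 1) → ℂ) 0 ≠ 0} =
            (fun w : Fin r → ℂ => w e') ⁻¹' {0}ᶜ := by
          ext w
          simp only [mem_setOf_eq, mem_preimage, mem_compl_iff, mem_singleton_iff]
          rw [h0, Fin.insertNth_apply_succAbove]
        rw [this]
        exact (dense_compl_singleton (0 : ℂ)).preimage (isOpenMap_eval e')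
    have hAB := Continuous.ext_on hdense hcA hcB (by
      intro w hw
      simp only [mem_setOf_eq] at hw
      simp only
      rw [h.loc_pt hφ s i p b y]
      have hz := h.z_pt hφ p b hp hy w
      have hπ := h.pi_pt hφ p b hp hy w
      have hxb := h.pt_notMem hφ p b hp hy w
      generalize h.pt p b φ hφ y w = x at hz hπ hxb
      rw [← hz] at hw ⊢
      have hpx : π x ∈ h.W p := by rw [hπ]; exact hp
      have hx0 : x ∉ h.H 0 := fun hmem => hw ((h.z_eq_zero p b 0 x hpx hxb).2 hmem)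
      rw [h.norm_f_same s hφ i p b 0 (by rw [hπ]; exact hi) hpx (by rw [hπ]; exact hy) hxb hx0,
        h.coef_rep s i p hφ _ hp hy hrep hπ hx0,
        coef_form_smul (fun α => c i p φ α (φ y)) (h.z p b x 0) (h.z p 0 x) (h.z p b x)
          (fun e => (h.z_mul p b 0 e x hpx hxb hx0).symm), norm_mul, norm_pow])
    exact congrFun hAB w
  · intro i j p q φ hφ ψ hψ y hi hj hp hq hy hy'
    have hrep := (hc i p φ hφ).2 y hi hp hy
    have hrep' := (hc j q ψ hψ).2 y hj hq hy'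
    have hγ : h.γ p q 0 y * h.γ q p 0 y = 1 := by
      rw [h.γ_mul p q p 0 y hp hq hp, h.γ_one p 0 y hp]
    have key : (fun α => c i p φ α (φ y) * ∏ e, h.γ p q e y ^ (α.1 e : ℕ)) =
        fun α => L.g i j y ^ k * jac φ ψ y ^ m * (∏ e, h.γ p q e y) ^ m * c j q ψ α (ψ y) := by
      refine coef_unique _ _ fun w => ?_
      have hz := h.z_pt hψ q 0 hq hy' w
      have hπ := h.pi_pt hψ q 0 hq hy' w
      have hx0 := h.pt_notMem hψ q 0 hq hy' w
      generalize h.pt q 0 ψ hψ y w = x at hz hπ hx0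
      rw [← hz]
      have hpx : π x ∈ h.W p := by rw [hπ]; exact hp
      have hqx : π x ∈ h.W q := by rw [hπ]; exact hq
      have h1 : form (fun α => c i p φ α (φ y) * ∏ e, h.γ p q e y ^ (α.1 e : ℕ)) (h.z q 0 x) =
          form (fun α => c i p φ α (φ y)) (fun e => h.γ p q e y * h.z q 0 x e) := by
        unfold form
        refine Finset.sum_congr rfl fun α _ => ?_
        simp only [mul_pow, Finset.prod_mul_distrib]
        ring
      have h2 : form (fun α => c i p φ α (φ y)) (fun e => h.γ p q e y * h.z q 0 x e) =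
          h.γ p q 0 y ^ (k * a + (r + 1) * m) * form (fun α => c i p φ α (φ y)) (h.z p 0 x) := by
        refine coef_form_smul _ _ _ _ fun e => ?_
        have := h.z_trans p q 0 e x hpx hqx hx0
        rw [hπ] at this
        exact this.symm
      have h3 : form (fun α => L.g i j y ^ k * jac φ ψ y ^ m * (∏ e, h.γ p q e y) ^ m *
          c j q ψ α (ψ y)) (h.z q 0 x) = L.g i j y ^ k * jac φ ψ y ^ m * (∏ e, h.γ p q e y) ^ m *
          form (fun α => c j q ψ α (ψ y)) (h.z q 0 x) := by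
        unfold form
        rw [Finset.mul_sum]
        refine Finset.sum_congr rfl fun α _ => ?_
        ring
      rw [h1, h2, h3, ← h.coef_rep s i p hφ _ hp hy hrep hπ hx0,
        ← h.coef_rep s j q hψ _ hq hy' hrep' hπ hx0]
      have h4 := s.trans (i, p, 0) (j, q, 0) (h.κ p 0 φ hφ) (h.κ_mem hφ p 0) (h.κ q 0 ψ hψ)
        (h.κ_mem hψ q 0) x ⟨by show π x ∈ L.U i; rw [hπ]; exact hi, hpx, hx0⟩
        ⟨by show π x ∈ L.U j; rw [hπ]; exact hj, hqx, hx0⟩
        ((h.mem_κ_source hφ p 0 x).2 ⟨hpx, by rw [hπ]; exact hy, hx0⟩)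
        ((h.mem_κ_source hψ q 0 x).2 ⟨hqx, by rw [hπ]; exact hy', hx0⟩)
      have h5 : (h.twist L a).g (i, p, 0) (j, q, 0) x =
        L.g i j (π x) * (h.γ q p 0 (π x) * h.z q 0 x 0) ^ a := rfl
      rw [h5, h.z_self q 0 x hqx hx0, mul_one, hπ] at h4
      have h6 := h.jac_change hφ hψ p q 0 hpx hqx (by rw [hπ]; exact hy) (by rw [hπ]; exact hy') hx0
      rw [hπ] at h6
      have h7 : ∏ e, h.γ p q e y = h.γ p q 0 y * ∏ c : Fin r, h.γ p q ((0 : Fin (r + 1)).succAbove c) y :=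
        Fin.prod_univ_succAbove _ 0
      rw [h4, h7]
      generalize jac (h.κ p 0 φ hφ) (h.κ q 0 ψ hψ) x = J at h6 ⊢
      generalize s.f (j, q, 0) (h.κ q 0 ψ hψ) x = F
      generalize (∏ c : Fin r, h.γ p q ((0 : Fin (r + 1)).succAbove c) y) = G at h6 ⊢
      generalize jac φ ψ y = K at h6 ⊢
      generalize h.γ p q 0 y = g at h6 hγ ⊢
      generalize h.γ q p 0 y = g' at hγ ⊢
      generalize L.g i j y = l
      calc g ^ (k * a + (r + 1) * m) * ((l * g' ^ a) ^ k * J ^ m * F)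
          = (g * g') ^ (k * a) * l ^ k * (g * (J * g ^ r)) ^ m * F := by
            rw [pow_add, pow_mul g (r + 1) m, pow_succ g r]
            simp only [mul_pow, pow_mul]
            ring
        _ = l ^ k * K ^ m * (g * G) ^ m * F := by
            rw [hγ, h6]
            simp only [mul_pow, one_pow]
            ring
    intro α
    exact congrFun key α

end SplitBundle

end Pool.Agent.Abd
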