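import Mathlib

/-! MP_e23cd6_ag (abundance conjecture): the definitions used in the statement. Complex manifolds are
Mathlib manifolds `IsManifold 𝓘(ℂ, E) ω M` modelled on a finite dimensional complex normed space `E`;
holomorphic means complex analytic in charts. Line bundles are given by transition functions. -/

set_option autoImplicit false

open scoped Manifold ContDiff Topology ENNReal
open MeasureTheory Set

namespace Pool.Agent.Abd

section basic

variable (E : Type) [NormedAddCommGroup E] [NormedSpace ℂ E]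
variable (M : Type) [TopologicalSpace M] [ChartedSpace E M]

/-- The holomorphic charts of the complex manifold `M` (the maximal atlas). -/
abbrev Charts : Set (OpenPartialHomeomorph M E) := IsManifold.maximalAtlas 𝓘(ℂ, E) ω M

variable {M}

/-- The function `f` is holomorphic near the point `x` of the complex manifold `M`. -/
def HolAt (f : M → ℂ) (x : M) : Prop := ContMDiffAt 𝓘(ℂ, E) 𝓘(ℂ) ω f x

variable {E}

/-- The Jacobian determinant of the chart `φ` with respect to the chart `ψ`, at the point `x`. -/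
noncomputable def jac (φ ψ : OpenPartialHomeomorph M E) (x : M) : ℂ :=
  (fderiv ℂ (φ ∘ ψ.symm) (ψ x)).det

variable (E M)

/-- A holomorphic line bundle on `M`: an open cover `U i` (over which the bundle has frames) and
transition functions `g i j`, holomorphic on `U i ∩ U j`, with the cocycle relations. -/
structure LineBundle where
  ι : Type
  U : ι → Set M
  isOpen : ∀ i, IsOpen (U i)
  cover : ∀ x, ∃ i, x ∈ U i
  g : ι → ι → M → ℂ
  hol : ∀ i j x, x ∈ U i → x ∈ U j → HolAt E (g i j) x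
  one : ∀ i x, x ∈ U i → g i i x = 1
  mul : ∀ i j l x, x ∈ U i → x ∈ U j → x ∈ U l → g i j x * g j l x = g i l x

variable {E M}

/-- A global holomorphic section of `B ^ k`: functions `f i` on `U i` with `f i = (g i j) ^ k * f j`. -/
structure PowSec (B : LineBundle E M) (k : ℕ) where
  f : B.ι → M → ℂ
  hol : ∀ i x, x ∈ B.U i → HolAt E (f i) x
  trans : ∀ i j x, x ∈ B.U i → x ∈ B.U j → f i x = B.g i j x ^ k * f j x

/-- `B` is semiample: some power `B ^ k`, `k ≥ 1`, is generated by its global sections. -/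
def LineBundle.Semiample (B : LineBundle E M) : Prop :=
  ∃ k : ℕ, 1 ≤ k ∧ ∀ x, ∃ s : PowSec B k, ∃ i, x ∈ B.U i ∧ s.f i x ≠ 0

/-- A global holomorphic section `s` of `B ^ k ⊗ K ^ (-m)`, where `K` is the canonical bundle of `M`:
`s = f i φ * e_i ^ k * (dφ) ^ (-m)` for the frame `e_i` of `B` over `U i` and the volume form `dφ` of
the chart `φ`. -/
structure Sec (B : LineBundle E M) (k m : ℕ) where
  f : B.ι → OpenPartialHomeomorph M E → M → ℂ
  hol : ∀ i, ∀ φ ∈ Charts E M, ∀ x, x ∈ B.U i → x ∈ φ.source → HolAt E (f i φ) x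
  trans : ∀ i j, ∀ φ ∈ Charts E M, ∀ ψ ∈ Charts E M, ∀ x, x ∈ B.U i → x ∈ B.U j → x ∈ φ.source →
    x ∈ ψ.source → f i φ x = B.g i j x ^ k * jac φ ψ x ^ m * f j ψ x

/-- The effective `ℚ`-divisor `Δ = (1/m) div s` is klt: `|s| ^ (-2/m)` is locally integrable (so `s`
is not identically zero near any point). Here `m (K + Δ)` is linearly equivalent to `k B`. -/
def Sec.Klt [MeasureSpace E] {B : LineBundle E M} {k m : ℕ} (s : Sec B k m) : Prop :=
  ∀ i, ∀ φ ∈ Charts E M, ∀ x, x ∈ B.U i → x ∈ φ.source →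
    ∃ N ∈ 𝓝 (φ x), ∫⁻ z in N, ‖s.f i φ (φ.symm z)‖ₑ ^ (-(2 : ℝ) / m) < ⊤

/-- `σ` is a meromorphic section of the pull-back `ν^* B` to the Riemann surface `C` (with some
values assigned at the poles), and `o c` is its order at the point `c` (in particular `σ` is not
identically zero). -/
def IsMeroSec (B : LineBundle E M) {C : Type} [TopologicalSpace C] [ChartedSpace ℂ C] (ν : C → M)
    (σ : B.ι → C → ℂ) (o : C → ℤ) : Prop :=
  (∀ i j c, ν c ∈ B.U i → ν c ∈ B.U j → σ i c = B.g i j (ν c) * σ j c) ∧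
  ∀ i c, ∀ χ ∈ Charts ℂ C, ν c ∈ B.U i → c ∈ χ.source →
    MeromorphicAt (σ i ∘ χ.symm) (χ c) ∧ meromorphicOrderAt (σ i ∘ χ.symm) (χ c) = (o c : WithTop ℤ)

/-- `B` is nef: for every holomorphic map `ν` from a compact connected Riemann surface `C` to `M`
the bundle `ν^* B` has nonnegative degree, that is, the orders of each meromorphic section of
`ν^* B` have a nonnegative sum. -/
def LineBundle.Nef (B : LineBundle E M) : Prop :=
  ∀ (C : Type) [TopologicalSpace C] [ChartedSpace ℂ C] [IsManifold 𝓘(ℂ) ω C] [CompactSpace C]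
    [T2Space C] [ConnectedSpace C] (ν : C → M), ContMDiff 𝓘(ℂ) 𝓘(ℂ, E) ω ν →
    ∀ (σ : B.ι → C → ℂ) (o : C → ℤ), IsMeroSec B ν σ o → 0 ≤ ∑ᶠ c, o c

variable (E M)

/-- Abundance for `M`: if `Δ` is an effective `ℚ`-divisor on `M` such that `(M, Δ)` is klt and `K + Δ`
is nef, then `K + Δ` is semiample. -/
def Abundant [MeasureSpace E] : Prop :=
  ∀ (B : LineBundle E M) (k m : ℕ), 1 ≤ k → 1 ≤ m → ∀ s : Sec B k m, s.Klt → B.Nef → B.Semiample

end basic

section bundle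

/-- `π : X → Y` is a split projective bundle `ℙ(L₀ ⊕ … ⊕ L_r) → Y`. Here `H b` is the coordinate
hyperplane `x_b = 0`, and over the open sets `W p` of `Y` there are the quotients
`z p b x c = x_c / x_b` of homogeneous coordinates of the point `x` (away from `H b`), such that
`(φ ∘ π, (z p b · c)_{c ≠ b})` is a holomorphic chart of `X` with values in `E × ℂ ^ r` for each
chart `φ` of `Y`; the homogeneous coordinates over `W p` and `W q` are related by
`x_b = γ p q b * x_b` with the transition functions `γ p q b` of the line bundle `L_b`. -/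
structure SplitBundle (E : Type) [NormedAddCommGroup E] [NormedSpace ℂ E] (r : ℕ) {X Y : Type}
    [TopologicalSpace X] [TopologicalSpace Y] [ChartedSpace (E × (Fin r → ℂ)) X]
    [ChartedSpace E Y] (π : X → Y) where
  cont : Continuous π
  H : Fin (r + 1) → Set X
  closed : ∀ b, IsClosed (H b)
  inter : ∀ x, ∃ b, x ∉ H b
  P : Type
  W : P → Set Y
  isOpen : ∀ p, IsOpen (W p)
  cover : ∀ y, ∃ p, y ∈ W p
  z : P → Fin (r + 1) → X → Fin (r + 1) → ℂ
  γ : P → P → Fin (r + 1) → Y → ℂ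
  chart : ∀ p b, ∀ φ ∈ Charts E Y, ∃ κ ∈ Charts (E × (Fin r → ℂ)) X,
    κ.source = {x | π x ∈ W p ∧ π x ∈ φ.source ∧ x ∉ H b} ∧
    κ.target = (φ '' (W p ∩ φ.source)) ×ˢ univ ∧
    ∀ x ∈ κ.source, κ x = (φ (π x), fun c => z p b x (b.succAbove c))
  z_self : ∀ p b x, π x ∈ W p → x ∉ H b → z p b x b = 1
  z_eq_zero : ∀ p b c x, π x ∈ W p → x ∉ H b → (z p b x c = 0 ↔ x ∈ H c)
  z_mul : ∀ p b c e x, π x ∈ W p → x ∉ H b → x ∉ H c → z p b x c * z p c x e = z p b x e
  z_trans : ∀ p q b c x, π x ∈ W p → π x ∈ W q → x ∉ H b →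
    γ p q b (π x) * z p b x c = γ p q c (π x) * z q b x c
  γ_hol : ∀ p q b y, y ∈ W p → y ∈ W q → HolAt E (γ p q b) y
  γ_one : ∀ p b y, y ∈ W p → γ p p b y = 1
  γ_mul : ∀ p q l b y, y ∈ W p → y ∈ W q → y ∈ W l → γ p q b y * γ q l b y = γ p l b y

namespace SplitBundle

variable {E : Type} [NormedAddCommGroup E] [NormedSpace ℂ E] {r : ℕ}
variable {X Y : Type} [TopologicalSpace X] [TopologicalSpace Y]
  [ChartedSpace (E × (Fin r → ℂ)) X] [ChartedSpace E Y]
variable {π : X → Y} (h : SplitBundle E r π)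

include h in
theorem pi_contMDiffAt [IsManifold 𝓘(ℂ, E) ω Y] [IsManifold 𝓘(ℂ, E × (Fin r → ℂ)) ω X] (x : X) :
    ContMDiffAt 𝓘(ℂ, E × (Fin r → ℂ)) 𝓘(ℂ, E) ω π x := by
  obtain ⟨p, hp⟩ := h.cover (π x)
  obtain ⟨b, hb⟩ := h.inter x
  have hφ := IsManifold.chart_mem_maximalAtlas (I := 𝓘(ℂ, E)) (n := ω) (π x)
  obtain ⟨κ, hκ, hs, ht, ha⟩ := h.chart p b (chartAt E (π x)) hφ
  have hx : x ∈ κ.source := by rw [hs]; exact ⟨hp, mem_chart_source E (π x), hb⟩
  have h1 := contMDiffAt_of_mem_maximalAtlas hκ hx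
  have h2 : ContMDiffAt 𝓘(ℂ, E × (Fin r → ℂ)) 𝓘(ℂ, E) ω
      (fun v : E × (Fin r → ℂ) => v.1) (κ x) := contDiff_fst.contMDiff.contMDiffAt
  have h3 : ContMDiffAt 𝓘(ℂ, E × (Fin r → ℂ)) 𝓘(ℂ, E) ω (fun x' => (κ x').1) x := h2.comp x h1
  have e1 : (κ x).1 = chartAt E (π x) (π x) := by rw [ha x hx]
  have h4 : ContMDiffAt 𝓘(ℂ, E) 𝓘(ℂ, E) ω (chartAt E (π x)).symm (κ x).1 := by
    apply contMDiffAt_symm_of_mem_maximalAtlas hφ
    rw [e1]
    exact mem_chart_target E (π x)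
  have h5 := ContMDiffAt.comp x h4 h3
  refine h5.congr_of_eventuallyEq ?_
  filter_upwards [κ.open_source.mem_nhds hx] with x' hx'
  have hx2 := hx'
  rw [hs] at hx2
  simp only [Function.comp]
  rw [ha x' hx', (chartAt E (π x)).left_inv hx2.2.1]

theorem z_hol [IsManifold 𝓘(ℂ, E) ω Y] [IsManifold 𝓘(ℂ, E × (Fin r → ℂ)) ω X] (p : h.P)
    (b c : Fin (r + 1)) (x : X) (hx : π x ∈ h.W p) (hx' : x ∉ h.H b) :
    HolAt (E × (Fin r → ℂ)) (fun x => h.z p b x c) x := by
  have hφ := IsManifold.chart_mem_maximalAtlas (I := 𝓘(ℂ, E)) (n := ω) (π x)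
  obtain ⟨κ, hκ, hs, ht, ha⟩ := h.chart p b (chartAt E (π x)) hφ
  have hxs : x ∈ κ.source := by rw [hs]; exact ⟨hx, mem_chart_source E (π x), hx'⟩
  have hev : ∀ᶠ x' in 𝓝 x, x' ∈ κ.source := κ.open_source.mem_nhds hxs
  rcases Fin.eq_self_or_eq_succAbove b c with rfl | ⟨c', rfl⟩
  · have h0 : HolAt (E × (Fin r → ℂ)) (fun _ : X => (1 : ℂ)) x := contMDiffAt_const
    refine h0.congr_of_eventuallyEq ?_
    filter_upwards [hev] with x' hx2
    rw [hs] at hx2
    exact h.z_self p c x' hx2.1 hx2.2.2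
  · have h1 := contMDiffAt_of_mem_maximalAtlas hκ hxs
    have h2 : ContMDiffAt 𝓘(ℂ, E × (Fin r → ℂ)) 𝓘(ℂ) ω
        (fun v : E × (Fin r → ℂ) => v.2 c') (κ x) :=
      ((contDiff_apply ℂ ℂ c').comp contDiff_snd).contMDiff.contMDiffAt
    have h3 := h2.comp x h1
    refine h3.congr_of_eventuallyEq ?_
    filter_upwards [hev] with x' hx2
    simp only [Function.comp]
    rw [ha x' hx2]

variable [IsManifold 𝓘(ℂ, E) ω Y] [IsManifold 𝓘(ℂ, E × (Fin r → ℂ)) ω X]

/-- The line bundle `π^* L ⊗ 𝒪(a)` on `X = ℙ(L₀ ⊕ … ⊕ L_r)`: away from `H b` and over `W p` its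
frames are the frames of `π^* L` times `x_b ^ a`. -/
noncomputable def twist (L : LineBundle E Y) (a : ℕ) : LineBundle (E × (Fin r → ℂ)) X where
  ι := L.ι × h.P × Fin (r + 1)
  U := fun i => {x | π x ∈ L.U i.1 ∧ π x ∈ h.W i.2.1 ∧ x ∉ h.H i.2.2}
  g := fun i j x =>
    L.g i.1 j.1 (π x) * (h.γ j.2.1 i.2.1 i.2.2 (π x) * h.z j.2.1 i.2.2 x j.2.2) ^ a
  isOpen := fun i => ((L.isOpen i.1).preimage h.cont).inter
    (((h.isOpen i.2.1).preimage h.cont).inter (h.closed i.2.2).isOpen_compl)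
  cover := by
    intro x
    obtain ⟨i, hi⟩ := L.cover (π x)
    obtain ⟨p, hp⟩ := h.cover (π x)
    obtain ⟨b, hb⟩ := h.inter x
    exact ⟨(i, p, b), hi, hp, hb⟩
  hol := by
    rintro ⟨i, p, b⟩ ⟨j, q, c⟩ x hx hx'
    have h1 : HolAt (E × (Fin r → ℂ)) (fun x => L.g i j (π x)) x :=
      (L.hol i j (π x) hx.1 hx'.1).comp x (h.pi_contMDiffAt x)
    have h2 : HolAt (E × (Fin r → ℂ)) (fun x => h.γ q p b (π x)) x :=
      (h.γ_hol q p b (π x) hx'.2.1 hx.2.1).comp x (h.pi_contMDiffAt x)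
    exact h1.mul ((h2.mul (h.z_hol q b c x hx'.2.1 hx.2.2)).pow a)
  one := by
    rintro ⟨i, p, b⟩ x hx
    simp only [L.one i _ hx.1, h.γ_one p b _ hx.2.1, h.z_self p b x hx.2.1 hx.2.2, one_pow,
      mul_one]
  mul := by
    rintro ⟨i, p, b⟩ ⟨j, q, c⟩ ⟨l, t, e⟩ x hx hx' hx''
    simp only
    have h1 := h.z_trans t q b c x hx''.2.1 hx'.2.1 hx.2.2
    have h2 := h.z_mul t b c e x hx''.2.1 hx.2.2 hx'.2.2
    have h3 := h.γ_mul t q p b (π x) hx''.2.1 hx'.2.1 hx.2.1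
    rw [← L.mul i j l (π x) hx.1 hx'.1 hx''.1, ← h2, ← h3]
    calc _ = L.g i j (π x) * L.g j l (π x) *
          (h.γ q p b (π x) * (h.γ t q c (π x) * h.z q b x c) * h.z t c x e) ^ a := by ring
      _ = _ := by rw [← h1]; ring

/-- The line bundle `L ⊗ L_b ^ (-a)` on `Y` (frames as in `twist`): the restriction of
`π^* L ⊗ 𝒪(a)` to the section of `X → Y` on which `x_c = 0` for all `c ≠ b`. -/
noncomputable def edge (L : LineBundle E Y) (a : ℕ) (b : Fin (r + 1)) : LineBundle E Y where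
  ι := L.ι × h.P
  U := fun i => L.U i.1 ∩ h.W i.2
  g := fun i j y => L.g i.1 j.1 y * h.γ j.2 i.2 b y ^ a
  isOpen := fun i => (L.isOpen i.1).inter (h.isOpen i.2)
  cover := by
    intro y
    obtain ⟨i, hi⟩ := L.cover y
    obtain ⟨p, hp⟩ := h.cover y
    exact ⟨(i, p), hi, hp⟩
  hol := by
    rintro ⟨i, p⟩ ⟨j, q⟩ y hy hy'
    have h1 : HolAt E (L.g i j) y := L.hol i j y hy.1 hy'.1
    have h2 : HolAt E (h.γ q p b) y := h.γ_hol q p b y hy'.2 hy.2
    exact h1.mul (h2.pow a)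
  one := by
    rintro ⟨i, p⟩ y hy
    simp only [L.one i _ hy.1, h.γ_one p b _ hy.2, one_pow, mul_one]
  mul := by
    rintro ⟨i, p⟩ ⟨j, q⟩ ⟨l, t⟩ y hy hy' hy''
    simp only
    rw [← L.mul i j l y hy.1 hy'.1 hy''.1, ← h.γ_mul t q p b y hy''.2 hy'.2 hy.2]
    ring

end SplitBundle

end bundle

end Pool.Agent.Abd
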