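import Pool.Agent.H.MP_e23cd6_ag.Jac2

/-! Products of coefficients give sections over the base. -/

set_option autoImplicit false

open scoped Manifold ContDiff Topology ENNReal
open MeasureTheory Set

namespace Pool.Agent.Abd

namespace SplitBundle

variable {E : Type} [NormedAddCommGroup E] [NormedSpace ℂ E] {r : ℕ}
variable {X Y : Type} [TopologicalSpace X] [TopologicalSpace Y]
  [ChartedSpace (E × (Fin r → ℂ)) X] [ChartedSpace E Y]
variable {π : X → Y} (h : SplitBundle E r π)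
variable [IsManifold 𝓘(ℂ, E) ω Y] [IsManifold 𝓘(ℂ, E × (Fin r → ℂ)) ω X]
variable {L : LineBundle E Y} {a k m : ℕ}

/-- The transition rule of a product of coefficients. -/
theorem mono_trans {d q : ℕ} (c c' : Idx r d → ℂ) (γ : Fin (r + 1) → ℂ) (γ' G J : ℂ)
    (hγ : ∀ e, γ e ≠ 0) (b : Fin (r + 1)) (hγ' : γ b * γ' = 1)
    (hc : ∀ α, c α * ∏ e, γ e ^ (α.1 e : ℕ) = G ^ k * J ^ m * (∏ e, γ e) ^ m * c' α)
    (l : Idx r d → ℕ) (h1 : ∑ α, l α = q)
    (h2 : ∀ e, ∑ α, l α * (α.1 e : ℕ) = q * (m + if e = b then k * a else 0)) :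
    ∏ α, c α ^ l α = (G * γ' ^ a) ^ (k * q) * J ^ (m * q) * ∏ α, c' α ^ l α := by
  have e1 : ∏ α, (c α * ∏ e, γ e ^ (α.1 e : ℕ)) ^ l α =
      (∏ α, c α ^ l α) * ((∏ e, γ e) ^ (m * q) * γ b ^ (k * q * a)) := by
    simp only [mul_pow, Finset.prod_mul_distrib]
    congr 1
    have : ∀ α : Idx r d, (∏ e, γ e ^ (α.1 e : ℕ)) ^ l α = ∏ e, γ e ^ (l α * (α.1 e : ℕ)) := by
      intro α
      rw [← Finset.prod_pow]
      exact Finset.prod_congr rfl (fun e _ => by rw [← pow_mul, mul_comm])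
    simp only [this]
    rw [Finset.prod_comm]
    simp only [Finset.prod_pow_eq_pow_sum, h2]
    have : ∀ e, γ e ^ (q * (m + if e = b then k * a else 0)) =
        γ e ^ (m * q) * (if e = b then γ b ^ (k * q * a) else 1) := by
      intro e
      split_ifs with he
      · subst he
        rw [← pow_add]
        congr 1
        ring
      · rw [add_zero, mul_one, mul_comm]
    simp only [this, Finset.prod_mul_distrib, Finset.prod_pow, Finset.prod_ite_eq',
      Finset.mem_univ, if_true]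
  have e2 : ∏ α, (c α * ∏ e, γ e ^ (α.1 e : ℕ)) ^ l α =
      (G ^ (k * q) * J ^ (m * q) * (∏ e, γ e) ^ (m * q)) * ∏ α, c' α ^ l α := by
    simp only [hc]
    simp only [mul_pow, Finset.prod_mul_distrib, Finset.prod_pow_eq_pow_sum, h1]
    congr 1
    simp only [← pow_mul]
  rw [e1] at e2
  have h3 : (∏ e, γ e) ^ (m * q) ≠ 0 := pow_ne_zero _ (Finset.prod_ne_zero_iff.2 fun e _ => hγ e)
  have e3 : (∏ α, c α ^ l α) * γ b ^ (k * q * a) =
      G ^ (k * q) * J ^ (m * q) * ∏ α, c' α ^ l α := by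
    apply mul_left_cancel₀ h3
    linear_combination e2
  have e4 : γ b ^ (k * q * a) * (γ' ^ a) ^ (k * q) = 1 := by
    rw [← pow_mul, mul_comm a (k * q), ← mul_pow, hγ', one_pow]
  rw [mul_pow]
  linear_combination (γ' ^ a) ^ (k * q) * e3 - (∏ α, c α ^ l α) * e4

/-- The section of `(edge L a b) ^ (k q) ⊗ K ^ (-m q)` given by a linear combination of products of
coefficients. -/
noncomputable def combSec (b : Fin (r + 1)) {q : ℕ}
    (c : L.ι → h.P → OpenPartialHomeomorph Y E → Idx r (k * a + (r + 1) * m) → Y → ℂ)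
    (chol : ∀ i p, ∀ φ ∈ Charts E Y, ∀ y, y ∈ L.U i → y ∈ h.W p → y ∈ φ.source →
        ∀ α, HolAt E (c i p φ α) y)
    (ctrans : ∀ i j p q, ∀ φ ∈ Charts E Y, ∀ ψ ∈ Charts E Y, ∀ y, y ∈ L.U i → y ∈ L.U j →
        y ∈ h.W p → y ∈ h.W q → y ∈ φ.source → y ∈ ψ.source → ∀ α,
        c i p φ α y * ∏ e, h.γ p q e y ^ (α.1 e : ℕ) =
          L.g i j y ^ k * jac φ ψ y ^ m * (∏ e, h.γ p q e y) ^ m * c j q ψ α y)
    (Λ : Finset (Idx r (k * a + (r + 1) * m) → ℕ))
    (hΛ : ∀ l ∈ Λ, ∑ α, l α = q ∧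
        ∀ e, ∑ α, l α * (α.1 e : ℕ) = q * (m + if e = b then k * a else 0))
    (C : Λ → ℂ) : Sec (h.edge L a b) (k * q) (m * q) where
  f := fun i φ y => ∑ l : Λ, C l * ∏ α, c i.1 i.2 φ α y ^ (l : Idx r (k * a + (r + 1) * m) → ℕ) α
  hol := by
    rintro ⟨i, p⟩ φ hφ y hy hy'
    have h1 : ∀ α, HolAt E (c i p φ α) y := chol i p φ hφ y hy.1 hy.2 hy'
    have h2 : ∀ l : Λ, HolAt E (fun y => C l * ∏ α, c i p φ α y ^
        (l : Idx r (k * a + (r + 1) * m) → ℕ) α) y := by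
      intro l
      have h3 : HolAt E (fun y => ∏ α, c i p φ α y ^
          (l : Idx r (k * a + (r + 1) * m) → ℕ) α) y :=
        contMDiffAt_finsetProd (fun α _ => (h1 α).pow _)
      exact ContMDiffAt.mul contMDiffAt_const h3
    exact contMDiffAt_finsetSum (fun l _ => h2 l)
  trans := by
    rintro ⟨i, p⟩ ⟨j, p'⟩ φ hφ ψ hψ y hy hy' hφy hψy
    rw [Finset.mul_sum]
    refine Finset.sum_congr rfl (fun l _ => ?_)
    have h0 := hΛ l l.2
    have h1 := mono_trans (k := k) (a := a) (m := m) (fun α => c i p φ α y) (fun α => c j p' ψ α y)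
      (fun e => h.γ p p' e y) (h.γ p' p b y) (L.g i j y) (jac φ ψ y)
      (fun e => h.γ_ne_zero p p' e hy.2 hy'.2) b
      (by rw [h.γ_mul p p' p b y hy.2 hy'.2 hy.2, h.γ_one p b y hy.2])
      (ctrans i j p p' φ hφ ψ hψ y hy.1 hy'.1 hy.2 hy'.2 hφy hψy) l h0.1 h0.2
    simp only [edge]
    rw [h1]
    ring

end SplitBundle

end Pool.Agent.Abd
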