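import Mathlib

/-! Fourier-Motzkin elimination in multiplicative form. -/

set_option autoImplicit false

open Finset

namespace Pool.Agent.Abd

/-- One variable version. -/
theorem fm_one {S : Type} [Fintype S] (d : S → ℝ) (hd : ∀ s, 0 ≤ d s) (e : S → ℤ)
    (h0 : ∀ s, e s = 0 → d s ≤ 1)
    (h : ∀ s t, 0 < e s → e t < 0 → d s ^ (e t).natAbs * d t ^ (e s).natAbs ≤ 1) :
    ∃ w : ℝ, 0 < w ∧ ∀ s, d s * w ^ e s ≤ 1 := by
  classical
  by_cases hex : ∃ t, e t < 0 ∧ 0 < d t
  · obtain ⟨t0, ht0, hdt0⟩ := hex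
    obtain ⟨t, ht, hmax⟩ := Finset.exists_max_image
      (Finset.univ.filter (fun t => e t < 0 ∧ 0 < d t)) (fun t => d t ^ ((1 : ℝ) / (e t).natAbs))
      ⟨t0, by simp [ht0, hdt0]⟩
    simp only [Finset.mem_filter, Finset.mem_univ, true_and] at ht hmax
    obtain ⟨het, hdt⟩ := ht
    set w : ℝ := d t ^ ((1 : ℝ) / (e t).natAbs) with hw
    have hw0 : 0 < w := Real.rpow_pos_of_pos hdt _
    have hroot : ∀ u, e u < 0 → (d u ^ ((1 : ℝ) / (e u).natAbs)) ^ (e u).natAbs = d u := by
      intro u hu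
      have h1 : (e u).natAbs ≠ 0 := by omega
      rw [← Real.rpow_natCast, ← Real.rpow_mul (hd u), one_div, inv_mul_cancel₀ (by exact_mod_cast h1),
        Real.rpow_one]
    have hwt : w ^ (e t).natAbs = d t := hroot t het
    refine ⟨w, hw0, fun s => ?_⟩
    rcases lt_trichotomy (e s) 0 with hs | hs | hs
    · rcases (hd s).eq_or_lt with hz | hz
      · rw [← hz, zero_mul]; exact zero_le_one
      · have h1 := hmax s ⟨hs, hz⟩
        have h2 : d s ≤ w ^ (e s).natAbs := by
          rw [← hroot s hs]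
          exact pow_le_pow_left₀ (Real.rpow_nonneg (hd s) _) h1 _
        have h3 : e s = -((e s).natAbs : ℤ) := by omega
        rw [h3, zpow_neg, zpow_natCast, ← div_eq_mul_inv, div_le_one (pow_pos hw0 _)]
        exact h2
    · rw [hs, zpow_zero, mul_one]; exact h0 s hs
    · have h1 := h s t hs het
      have h3 : e s = ((e s).natAbs : ℤ) := by omega
      have h4 : (d s * w ^ e s) ^ (e t).natAbs = d s ^ (e t).natAbs * d t ^ (e s).natAbs := by
        rw [mul_pow, h3, zpow_natCast, ← pow_mul, mul_comm (e s).natAbs, pow_mul, hwt,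
          Int.natAbs_natCast]
      have h5 : (d s * w ^ e s) ^ (e t).natAbs ≤ 1 := by rw [h4]; exact h1
      exact (pow_le_one_iff_of_nonneg (mul_nonneg (hd s) (zpow_nonneg hw0.le _))
        (by omega)).1 h5
  · push Not at hex
    have hD : 0 ≤ ∑ s, d s := Finset.sum_nonneg fun s _ => hd s
    have hpos : 0 < 1 + ∑ s, d s := by linarith
    refine ⟨(1 + ∑ s, d s)⁻¹, inv_pos.2 hpos, fun s => ?_⟩
    rcases lt_trichotomy (e s) 0 with hs | hs | hs
    · have : d s = 0 := le_antisymm (hex s hs) (hd s)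
      rw [this, zero_mul]; exact zero_le_one
    · rw [hs, zpow_zero, mul_one]; exact h0 s hs
    · have h3 : e s = ((e s).natAbs : ℤ) := by omega
      rw [h3, zpow_natCast]
      have h1 : ((1 + ∑ s, d s)⁻¹) ^ (e s).natAbs ≤ (1 + ∑ s, d s)⁻¹ := by
        apply pow_le_of_le_one (inv_nonneg.2 hpos.le) _ (by omega)
        exact inv_le_one_of_one_le₀ (by linarith)
      have h2 : d s ≤ ∑ s, d s := Finset.single_le_sum (fun s _ => hd s) (Finset.mem_univ s)
      calc d s * ((1 + ∑ s, d s)⁻¹) ^ (e s).natAbs ≤ d s * (1 + ∑ s, d s)⁻¹ :=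
            mul_le_mul_of_nonneg_left h1 (hd s)
        _ ≤ 1 := by
            rw [← div_eq_mul_inv, div_le_one hpos]; linarith

/-- Multiplicative Fourier-Motzkin: for finitely many vectors `p s` in `ℤ^n` there is a finite set `Λ`
of nonzero relations `l : S → ℕ`, `∑ l s • p s = 0`, such that for nonnegative numbers `c s` with
`∏ c s ^ l s ≤ 1` for all `l ∈ Λ` there is `ω ∈ (0, ∞)^n` with `c s * ω ^ p s ≤ 1` for all `s`. -/
theorem fm {S : Type} [Fintype S] {n : ℕ} (p : S → Fin n → ℤ) :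
    ∃ Λ : Finset (S → ℕ), (∀ l ∈ Λ, (∑ s, l s ≠ 0) ∧ ∀ i, ∑ s, (l s : ℤ) * p s i = 0) ∧
      ∀ c : S → ℝ, (∀ s, 0 ≤ c s) → (∀ l ∈ Λ, ∏ s, c s ^ l s ≤ 1) →
        ∃ ω : Fin n → ℝ, (∀ i, 0 < ω i) ∧ ∀ s, c s * ∏ i, ω i ^ p s i ≤ 1 := by
  classical
  induction n generalizing S with
  | zero =>
    refine ⟨Finset.univ.image (fun s : S => (Pi.single s 1 : S → ℕ)), ?_, ?_⟩
    · intro l hl
      obtain ⟨s, -, rfl⟩ := Finset.mem_image.1 hl
      refine ⟨?_, fun i => i.elim0⟩
      rw [Finset.sum_pi_single']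
      simp
    · intro c hc h
      refine ⟨fun i => i.elim0, fun i => i.elim0, fun s => ?_⟩
      have h1 := h _ (Finset.mem_image_of_mem _ (Finset.mem_univ s))
      have h2 : ∏ u, c u ^ (Pi.single s 1 : S → ℕ) u = c s := by
        rw [Finset.prod_eq_single s]
        · simp
        · intro b _ hb; simp [Pi.single_eq_of_ne hb]
        · simp
      rw [h2] at h1
      simpa using h1
  | succ n ih =>
    let a : S → ℕ := fun s => (p s 0).natAbs
    let S' : Type := {s : S // p s 0 = 0} ⊕ ({s : S // 0 < p s 0} × {t : S // p t 0 < 0})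
    let v : S' → S → ℕ := fun x => Sum.elim (fun s => (Pi.single s.1 1 : S → ℕ))
      (fun y => (Pi.single y.1.1 (a y.2.1) : S → ℕ) + (Pi.single y.2.1 (a y.1.1) : S → ℕ)) x
    let p' : S' → Fin n → ℤ := fun x i => ∑ s, (v x s : ℤ) * p s i.succ
    obtain ⟨Λ', hΛ', hΛ2⟩ := ih p'
    have hv0 : ∀ x, ∑ s, (v x s : ℤ) * p s 0 = 0 := by
      rintro (s | ⟨s, t⟩)
      · show ∑ u, (((Pi.single s.1 1 : S → ℕ) u : ℕ) : ℤ) * p u 0 = 0
        rw [Finset.sum_eq_single s.1]
        · simp [s.2]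
        · intro b _ hb; simp [Pi.single_eq_of_ne hb]
        · simp
      · show ∑ u, ((((Pi.single s.1 (a t.1) : S → ℕ) + (Pi.single t.1 (a s.1) : S → ℕ)) u : ℕ) : ℤ)
          * p u 0 = 0
        have h1 : ∀ (w : S) (k : ℕ), ∑ u, (((Pi.single w k : S → ℕ) u : ℕ) : ℤ) * p u 0 =
            k * p w 0 := by
          intro w k
          rw [Finset.sum_eq_single w]
          · simp
          · intro b _ hb; simp [Pi.single_eq_of_ne hb]
          · simp
        simp only [Pi.add_apply, Nat.cast_add, add_mul, Finset.sum_add_distrib, h1]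
        show (((p t.1 0).natAbs : ℕ) : ℤ) * p s.1 0 + (((p s.1 0).natAbs : ℕ) : ℤ) * p t.1 0 = 0
        have h2 := s.2
        have h3 := t.2
        rw [Int.ofNat_natAbs_of_nonpos h3.le, Int.natAbs_of_nonneg h2.le]
        ring
    have hvne : ∀ x, ∑ s, v x s ≠ 0 := by
      rintro (s | ⟨s, t⟩)
      · show ∑ u, (Pi.single s.1 1 : S → ℕ) u ≠ 0
        rw [Finset.sum_pi_single']
        simp
      · intro h0
        have h1 := (Finset.sum_eq_zero_iff.1 h0) s.1 (Finset.mem_univ _)
        have h2 : (Pi.single s.1 (a t.1) : S → ℕ) s.1 + (Pi.single t.1 (a s.1) : S → ℕ) s.1 = 0 := h1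
        rw [Pi.single_eq_same] at h2
        have h3 : a t.1 = (p t.1 0).natAbs := rfl
        have h4 := t.2
        omega
    let L : (S' → ℕ) → S → ℕ := fun l' s => ∑ x, l' x * v x s
    have hLsum : ∀ l', ∑ s, L l' s = ∑ x, l' x * ∑ s, v x s := by
      intro l'
      show ∑ s, ∑ x, l' x * v x s = _
      rw [Finset.sum_comm]
      exact Finset.sum_congr rfl fun x _ => by rw [Finset.mul_sum]
    have hLp : ∀ l' i, ∑ s, (L l' s : ℤ) * p s i = ∑ x, (l' x : ℤ) * ∑ s, (v x s : ℤ) * p s i := by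
      intro l' i
      show ∑ s, ((∑ x, l' x * v x s : ℕ) : ℤ) * p s i = _
      simp only [Nat.cast_sum, Nat.cast_mul, Finset.sum_mul, Finset.mul_sum]
      rw [Finset.sum_comm]
      exact Finset.sum_congr rfl fun x _ => Finset.sum_congr rfl fun s _ => by ring
    refine ⟨Λ'.image L, ?_, ?_⟩
    · intro l hl
      obtain ⟨l', hl', rfl⟩ := Finset.mem_image.1 hl
      obtain ⟨h1, h2⟩ := hΛ' l' hl'
      refine ⟨?_, fun i => ?_⟩
      · rw [hLsum]
        intro h0
        apply h1
        rw [Finset.sum_eq_zero_iff] at h0 ⊢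
        intro x hx
        rcases mul_eq_zero.1 (h0 x hx) with h3 | h3
        · exact h3
        · exact absurd h3 (hvne x)
      · rw [hLp]
        refine Fin.cases ?_ (fun j => ?_) i
        · exact Finset.sum_eq_zero fun x _ => by rw [hv0, mul_zero]
        · exact h2 j
    · intro c hc hcl
      let c' : S' → ℝ := fun x => ∏ s, c s ^ v x s
      have hc' : ∀ x, 0 ≤ c' x := fun x => Finset.prod_nonneg fun s _ => pow_nonneg (hc s) _
      have hcc : ∀ l' : S' → ℕ, ∏ x, c' x ^ l' x = ∏ s, c s ^ L l' s := by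
        intro l'
        show ∏ x, (∏ s, c s ^ v x s) ^ l' x = ∏ s, c s ^ ∑ x, l' x * v x s
        simp only [← Finset.prod_pow, ← Finset.prod_pow_eq_pow_sum]
        rw [Finset.prod_comm]
        exact Finset.prod_congr rfl fun s _ => Finset.prod_congr rfl fun x _ => by
          rw [← pow_mul, mul_comm]
      obtain ⟨ω', hω', hω2⟩ := hΛ2 c' hc' (fun l' hl' => by
        rw [hcc]; exact hcl _ (Finset.mem_image_of_mem _ hl'))
      let d : S → ℝ := fun s => c s * ∏ i, ω' i ^ p s i.succ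
      have hd : ∀ s, 0 ≤ d s := fun s => mul_nonneg (hc s)
        (Finset.prod_nonneg fun i _ => zpow_nonneg (hω' i).le _)
      have hdx : ∀ x, ∏ s, d s ^ v x s ≤ 1 := by
        intro x
        refine le_trans (le_of_eq ?_) (hω2 x)
        show ∏ s, (c s * ∏ i, ω' i ^ p s i.succ) ^ v x s =
          (∏ s, c s ^ v x s) * ∏ i, ω' i ^ (∑ s, (v x s : ℤ) * p s i.succ)
        simp only [mul_pow, Finset.prod_mul_distrib, ← Finset.prod_pow]
        congr 1
        rw [Finset.prod_comm]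
        refine Finset.prod_congr rfl fun i _ => ?_
        have h1 : ∀ T : Finset S, ω' i ^ (∑ s ∈ T, (v x s : ℤ) * p s i.succ) =
            ∏ s ∈ T, (ω' i ^ p s i.succ) ^ v x s := by
          intro T
          induction T using Finset.induction_on with
          | empty => simp
          | insert s T hs ih =>
            rw [Finset.sum_insert hs, Finset.prod_insert hs, zpow_add₀ (hω' i).ne', ih]
            congr 1
            rw [mul_comm, zpow_mul, zpow_natCast]
        exact (h1 _).symm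
      obtain ⟨w, hw, hw2⟩ := fm_one d hd (fun s => p s 0)
        (by
          intro s hs
          have h1 := hdx (Sum.inl ⟨s, hs⟩)
          have h2 : ∏ u, d u ^ v (Sum.inl ⟨s, hs⟩) u = d s := by
            show ∏ u, d u ^ (Pi.single s 1 : S → ℕ) u = d s
            rw [Finset.prod_eq_single s]
            · simp
            · intro b _ hb; simp [Pi.single_eq_of_ne hb]
            · simp
          rw [h2] at h1
          exact h1)
        (by
          intro s t hs ht
          have h1 := hdx (Sum.inr (⟨s, hs⟩, ⟨t, ht⟩))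
          have h2 : ∏ u, d u ^ v (Sum.inr (⟨s, hs⟩, ⟨t, ht⟩)) u =
              d s ^ (p t 0).natAbs * d t ^ (p s 0).natAbs := by
            show ∏ u, d u ^ ((Pi.single s (p t 0).natAbs : S → ℕ) +
              (Pi.single t (p s 0).natAbs : S → ℕ)) u = _
            have h3 : ∀ (u : S) (k : ℕ), ∏ r, d r ^ (Pi.single u k : S → ℕ) r = d u ^ k := by
              intro u k
              rw [Finset.prod_eq_single u]
              · simp
              · intro b _ hb; simp [Pi.single_eq_of_ne hb]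
              · simp
            simp only [Pi.add_apply, pow_add, Finset.prod_mul_distrib, h3]
          rw [h2] at h1
          exact h1)
      refine ⟨Fin.cons w ω', fun i => ?_, fun s => ?_⟩
      · refine Fin.cases ?_ (fun j => ?_) i
        · simpa using hw
        · simpa using hω' j
      · rw [Fin.prod_univ_succ]
        simp only [Fin.cons_zero, Fin.cons_succ]
        calc c s * (w ^ p s 0 * ∏ i : Fin n, ω' i ^ p s i.succ)
            = (c s * ∏ i : Fin n, ω' i ^ p s i.succ) * w ^ p s 0 := by ring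
          _ ≤ 1 := hw2 s

/-- The same with all relations of the same total degree `q ≥ 2`. -/
theorem fm_deg {S : Type} [Fintype S] {n : ℕ} (p : S → Fin n → ℤ) :
    ∃ q : ℕ, 2 ≤ q ∧ ∃ Λ : Finset (S → ℕ),
      (∀ l ∈ Λ, (∑ s, l s = q) ∧ ∀ i, ∑ s, (l s : ℤ) * p s i = 0) ∧
      ∀ c : S → ℝ, (∀ s, 0 ≤ c s) → (∀ l ∈ Λ, ∏ s, c s ^ l s ≤ 1) →
        ∃ ω : Fin n → ℝ, (∀ i, 0 < ω i) ∧ ∀ s, c s * ∏ i, ω i ^ p s i ≤ 1 := by
  classical
  obtain ⟨Λ, h1, h2⟩ := fm p
  let q : ℕ := 2 * ∏ l ∈ Λ, ∑ s, l s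
  have hprod : ∏ l ∈ Λ, ∑ s, l s ≠ 0 := Finset.prod_ne_zero_iff.2 fun l hl => (h1 l hl).1
  have hdvd : ∀ l ∈ Λ, (∑ s, l s) ∣ q := fun l hl =>
    (Finset.dvd_prod_of_mem (fun l => ∑ s, l s) hl).mul_left 2
  have hq0 : 0 < q := Nat.mul_pos two_pos (Nat.pos_of_ne_zero hprod)
  refine ⟨q, ?_, Λ.image (fun l s => q / (∑ s, l s) * l s), ?_, ?_⟩
  · show 2 ≤ 2 * ∏ l ∈ Λ, ∑ s, l s
    have := Nat.pos_of_ne_zero hprod
    omega
  · intro l hl
    obtain ⟨l', hl', rfl⟩ := Finset.mem_image.1 hl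
    refine ⟨?_, fun i => ?_⟩
    · show ∑ s, q / (∑ s, l' s) * l' s = q
      rw [← Finset.mul_sum]
      exact Nat.div_mul_cancel (hdvd l' hl')
    · show ∑ s, ((q / (∑ s, l' s) * l' s : ℕ) : ℤ) * p s i = 0
      have h3 := (h1 l' hl').2 i
      simp only [Nat.cast_mul, mul_assoc]
      rw [← Finset.mul_sum, h3, mul_zero]
  · intro c hc hcl
    refine h2 c hc fun l hl => ?_
    have h3 := hcl _ (Finset.mem_image_of_mem _ hl)
    have h4 : ∏ s, c s ^ (q / (∑ s, l s) * l s) = (∏ s, c s ^ l s) ^ (q / (∑ s, l s)) := by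
      rw [← Finset.prod_pow]
      exact Finset.prod_congr rfl fun s _ => by rw [← pow_mul, mul_comm]
    rw [h4] at h3
    have h5 : q / (∑ s, l s) ≠ 0 := by
      have h6 := Nat.le_of_dvd hq0 (hdvd l hl)
      have h7 : 0 < ∑ s, l s := Nat.pos_of_ne_zero (h1 l hl).1
      exact (Nat.div_pos h6 h7).ne'
    exact (pow_le_one_iff_of_nonneg (Finset.prod_nonneg fun s _ => pow_nonneg (hc s) _) h5).1 h3

end Pool.Agent.Abd
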