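import Pool.Agent.H.MP_e23cd6_ag.Basic
import Pool.Agent.H.MP_e23cd6_ag.FM

/-! The lower bound for the fibre integrals. -/

set_option autoImplicit false

open scoped Manifold ContDiff Topology ENNReal
open MeasureTheory Set

namespace Pool.Agent.Abd

theorem fiber_anti {x y : ℝ≥0∞} (m : ℕ) (h : x ≤ y) :
    y ^ (-(2 : ℝ) / m) ≤ x ^ (-(2 : ℝ) / m) := by
  rw [neg_div, ENNReal.rpow_neg, ENNReal.rpow_neg]
  exact ENNReal.inv_le_inv.2 (ENNReal.rpow_le_rpow h (by positivity))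

theorem fiber_vol {r : ℕ} (θ : Fin r → ℝ) :
    volume (Set.pi univ fun c => Metric.closedBall (0 : ℂ) (θ c)) =
      (∏ c, ENNReal.ofReal (θ c)) ^ 2 * (NNReal.pi : ℝ≥0∞) ^ r := by
  rw [volume_pi_pi]
  simp only [Complex.volume_closedBall]
  rw [Finset.prod_mul_distrib, Finset.prod_pow]
  simp

/-- One term of the sum is large. -/
theorem fiber_term (r m d : ℕ) (hm : 1 ≤ m) (s : Idx r d → ℂ) (A : ℝ) (hA : 0 < A)
    (N : ℕ) (hN : N = Fintype.card (Idx r d)) (hN0 : 0 < N)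
    (θ : Fin (r + 1) → ℝ) (hθ0 : ∀ c, 0 < θ c) (hθ1 : ∀ c, θ c ≤ 1) (e : Fin (r + 1))
    (he : θ e = 1)
    (h : ∀ α : Idx r d, ‖s α‖ * ∏ c, θ c ^ (α.1 c : ℕ) ≤ A * ∏ c, θ c ^ m) :
    ((NNReal.pi : ℝ≥0∞) ^ r * (N : ℝ≥0∞) ^ (-(2 : ℝ) / m)) * ENNReal.ofReal A ^ (-(2 : ℝ) / m) ≤
      ∫⁻ w in Metric.closedBall (0 : Fin r → ℂ) 1,
        ‖form s (e.insertNth (1 : ℂ) w)‖ₑ ^ (-(2 : ℝ) / m) := by
  set T : ℝ := ∏ c, θ c with hT
  have hT0 : 0 < T := Finset.prod_pos fun c _ => hθ0 c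
  have hTr : T = ∏ c : Fin r, θ (e.succAbove c) := by
    rw [hT, Fin.prod_univ_succAbove _ e, he, one_mul]
  set D : Set (Fin r → ℂ) := Set.pi univ fun c => Metric.closedBall (0 : ℂ) (θ (e.succAbove c))
    with hD
  have hDm : MeasurableSet D := MeasurableSet.univ_pi fun c => Metric.isClosed_closedBall.measurableSet
  have hDsub : D ⊆ Metric.closedBall (0 : Fin r → ℂ) 1 := by
    intro w hw
    rw [Metric.mem_closedBall, dist_zero_right, pi_norm_le_iff_of_nonneg zero_le_one]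
    intro c
    have h1 := hw c (mem_univ c)
    rw [Metric.mem_closedBall, dist_zero_right] at h1
    exact h1.trans (hθ1 _)
  have hform : ∀ w ∈ D, ‖form s (e.insertNth (1 : ℂ) w)‖ ≤ N * A * T ^ m := by
    intro w hw
    have hx : ∀ c, ‖(e.insertNth (1 : ℂ) w : Fin (r + 1) → ℂ) c‖ ≤ θ c := by
      intro c
      rcases Fin.eq_self_or_eq_succAbove e c with rfl | ⟨c', rfl⟩
      · rw [Fin.insertNth_apply_same, he]; simp
      · rw [Fin.insertNth_apply_succAbove]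
        have h1 := hw c' (mem_univ c')
        rwa [Metric.mem_closedBall, dist_zero_right] at h1
    unfold form
    calc ‖∑ α : Idx r d, s α * ∏ c, (e.insertNth (1 : ℂ) w : Fin (r + 1) → ℂ) c ^ (α.1 c : ℕ)‖
        ≤ ∑ α : Idx r d, ‖s α * ∏ c, (e.insertNth (1 : ℂ) w : Fin (r + 1) → ℂ) c ^ (α.1 c : ℕ)‖ :=
          norm_sum_le _ _
      _ ≤ ∑ α : Idx r d, A * T ^ m := by
          refine Finset.sum_le_sum fun α _ => ?_
          rw [norm_mul, norm_prod]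
          refine (mul_le_mul_of_nonneg_left ?_ (norm_nonneg _)).trans ((h α).trans ?_)
          · refine Finset.prod_le_prod (fun c _ => norm_nonneg _) fun c _ => ?_
            rw [norm_pow]
            exact pow_le_pow_left₀ (norm_nonneg _) (hx c) _
          · rw [Finset.prod_pow]
      _ = N * A * T ^ m := by
          rw [Finset.sum_const, Finset.card_univ, nsmul_eq_mul, hN]; ring
  have hbound : ∀ w ∈ D, (N : ℝ≥0∞) ^ (-(2 : ℝ) / m) * ENNReal.ofReal A ^ (-(2 : ℝ) / m) *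
      (ENNReal.ofReal T ^ 2)⁻¹ ≤ ‖form s (e.insertNth (1 : ℂ) w)‖ₑ ^ (-(2 : ℝ) / m) := by
    intro w hw
    have h1 : ‖form s (e.insertNth (1 : ℂ) w)‖ₑ ≤
        (N : ℝ≥0∞) * ENNReal.ofReal A * ENNReal.ofReal T ^ m := by
      rw [← ofReal_norm]
      refine (ENNReal.ofReal_le_ofReal (hform w hw)).trans (le_of_eq ?_)
      rw [ENNReal.ofReal_mul (by positivity), ENNReal.ofReal_mul (by positivity),
        ENNReal.ofReal_natCast, ENNReal.ofReal_pow hT0.le]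
    refine le_trans (le_of_eq ?_) (fiber_anti m h1)
    have hN' : (N : ℝ≥0∞) ≠ 0 := by exact_mod_cast hN0.ne'
    have hA' : ENNReal.ofReal A ≠ 0 := by simpa using hA
    have hT' : ENNReal.ofReal T ≠ 0 := by simpa using hT0
    rw [ENNReal.mul_rpow_of_ne_zero (mul_ne_zero hN' hA') (pow_ne_zero _ hT'),
      ENNReal.mul_rpow_of_ne_zero hN' hA']
    congr 1
    rw [← ENNReal.rpow_natCast (ENNReal.ofReal T) m, ← ENNReal.rpow_mul]
    have hm' : (m : ℝ) ≠ 0 := by exact_mod_cast (by omega : m ≠ 0)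
    rw [show (m : ℝ) * (-(2 : ℝ) / m) = -((2 : ℕ) : ℝ) by push_cast; field_simp,
      ENNReal.rpow_neg, ENNReal.rpow_natCast]
  calc ((NNReal.pi : ℝ≥0∞) ^ r * (N : ℝ≥0∞) ^ (-(2 : ℝ) / m)) *
        ENNReal.ofReal A ^ (-(2 : ℝ) / m)
      = (N : ℝ≥0∞) ^ (-(2 : ℝ) / m) * ENNReal.ofReal A ^ (-(2 : ℝ) / m) *
        (ENNReal.ofReal T ^ 2)⁻¹ * volume D := by
        have hT' : ENNReal.ofReal T ^ 2 ≠ 0 := pow_ne_zero _ (by simpa using hT0)
        have hT'' : ENNReal.ofReal T ^ 2 ≠ ⊤ := ENNReal.pow_ne_top ENNReal.ofReal_ne_top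
        have hv : volume D = ENNReal.ofReal T ^ 2 * (NNReal.pi : ℝ≥0∞) ^ r := by
          rw [hD, fiber_vol, hTr, ENNReal.ofReal_prod_of_nonneg fun c _ => (hθ0 _).le]
        rw [hv]
        calc ((NNReal.pi : ℝ≥0∞) ^ r * (N : ℝ≥0∞) ^ (-(2 : ℝ) / m)) *
              ENNReal.ofReal A ^ (-(2 : ℝ) / m)
            = (N : ℝ≥0∞) ^ (-(2 : ℝ) / m) * ENNReal.ofReal A ^ (-(2 : ℝ) / m) * 1 *
              (NNReal.pi : ℝ≥0∞) ^ r := by ring
          _ = _ := by rw [← ENNReal.inv_mul_cancel hT' hT'']; ring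
    _ = ∫⁻ _w in D, (N : ℝ≥0∞) ^ (-(2 : ℝ) / m) * ENNReal.ofReal A ^ (-(2 : ℝ) / m) *
        (ENNReal.ofReal T ^ 2)⁻¹ := by
        rw [MeasureTheory.setLIntegral_const]
    _ ≤ ∫⁻ w in D, ‖form s (e.insertNth (1 : ℂ) w)‖ₑ ^ (-(2 : ℝ) / m) :=
        setLIntegral_mono' hDm hbound
    _ ≤ _ := lintegral_mono_set hDsub

/-- Lower bound for the fibre integral, with a number `A`.

Proof. Let `d = t + (r + 1) * m`, `N` the number of elements of `Idx r d` (may assume it is positive,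
it is: the exponent `b`-vertex), and `αb e = m + (if e = b then t else 0)`, so `∑ αb = d`. Apply
`fm_deg` with `S = Idx r d`, `n = r + 1`, `p α e = α e - αb e`; this gives `q`, `Λ` with the first
property. Given `s`, `A`: apply it to `c α = ‖s α‖ / A` (the products are `≤ 1` as all degrees are
`q`), get `ω`. Choose `e` with `ω e` maximal and `θ c = ω c / ω e ∈ (0, 1]`. Then
`‖s α‖ * ∏ θ c ^ α c ≤ A * ∏ θ c ^ αb c` (all total degrees are `d`, so dividing by `ω e ^ d` on both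
sides of `‖s α‖ * ω ^ α ≤ A * ω ^ αb`) `≤ A * ∏ c, θ c ^ m`.
For `w` in the polydisc `D = {∀ c, ‖w c‖ ≤ θ (e.succAbove c)}` (contained in the closed unit ball of
`Fin r → ℂ`, which is the unit polydisc) the point `x = e.insertNth 1 w` has `‖x c‖ ≤ θ c` for all `c`,
so `‖form s x‖ ≤ N * A * ∏ θ c ^ m`, hence
`‖form s x‖ₑ ^ (-2/m) ≥ (N * A) ^ (-2/m) * (∏ θ c) ^ (-2)`. The volume of `D` is
`π ^ r * ∏ c, θ (e.succAbove c) ^ 2 = π ^ r * (∏ θ c) ^ 2` (`volume_pi`, `Complex.volume_closedBall`).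
So the integral over `D` is `≥ π ^ r * (N * A) ^ (-2/m)`. Take `c0 = π ^ r * N ^ (-2/m)`. -/
theorem fiber (r m t : ℕ) (hm : 1 ≤ m) (b : Fin (r + 1)) :
    ∃ q : ℕ, 2 ≤ q ∧ ∃ Λ : Finset (Idx r (t + (r + 1) * m) → ℕ),
      (∀ l ∈ Λ, ∑ α, l α = q ∧
        ∀ e, ∑ α, l α * (α.1 e : ℕ) = q * (m + if e = b then t else 0)) ∧
      ∃ c0 : ℝ≥0∞, c0 ≠ 0 ∧ c0 ≠ ⊤ ∧
        ∀ (s : Idx r (t + (r + 1) * m) → ℂ) (A : ℝ), 0 < A →
          (∀ l ∈ Λ, ∏ α, ‖s α‖ ^ l α ≤ A ^ q) →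
          c0 * ENNReal.ofReal A ^ (-(2 : ℝ) / m) ≤
            ∑ e : Fin (r + 1), ∫⁻ w in Metric.closedBall (0 : Fin r → ℂ) 1,
              ‖form s (e.insertNth (1 : ℂ) w)‖ₑ ^ (-(2 : ℝ) / m) := by
  classical
  set αb : Fin (r + 1) → ℕ := fun e => m + if e = b then t else 0 with hαb
  have hsum : ∑ e, αb e = t + (r + 1) * m := by
    simp only [hαb, Finset.sum_add_distrib, Finset.sum_const, Finset.card_univ, Fintype.card_fin,
      Finset.sum_ite_eq', Finset.mem_univ, if_true, smul_eq_mul]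
    ring
  obtain ⟨q, hq, Λ, hΛ, hc⟩ := fm_deg (S := Idx r (t + (r + 1) * m)) (n := r + 1)
    fun α e => ((α.1 e : ℕ) : ℤ) - (αb e : ℤ)
  refine ⟨q, hq, Λ, fun l hl => ⟨(hΛ l hl).1, fun e => ?_⟩, ?_⟩
  · have h1 := (hΛ l hl).2 e
    simp only [mul_sub, Finset.sum_sub_distrib, ← Finset.sum_mul] at h1
    have h2 : ((∑ α, l α * (α.1 e : ℕ) : ℕ) : ℤ) = ((q * αb e : ℕ) : ℤ) := by
      rw [← (hΛ l hl).1]
      push_cast
      linarith
    exact_mod_cast h2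
  · set N : ℕ := Fintype.card (Idx r (t + (r + 1) * m)) with hN
    have hN0 : 0 < N := by
      rw [hN, Fintype.card_pos_iff]
      have hle : ∀ e, αb e < t + (r + 1) * m + 1 := fun e => by
        have := Finset.single_le_sum (f := αb) (fun _ _ => Nat.zero_le _) (Finset.mem_univ e)
        omega
      exact ⟨⟨fun e => ⟨αb e, hle e⟩, hsum⟩⟩
    have hN' : (N : ℝ≥0∞) ≠ 0 := by exact_mod_cast hN0.ne'
    refine ⟨(NNReal.pi : ℝ≥0∞) ^ r * (N : ℝ≥0∞) ^ (-(2 : ℝ) / m), ?_, ?_, ?_⟩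
    · refine mul_ne_zero (pow_ne_zero _ ?_) ?_
      · exact_mod_cast NNReal.pi_pos.ne'
      · intro h0
        rcases ENNReal.rpow_eq_zero_iff.1 h0 with ⟨h1, _⟩ | ⟨h1, _⟩
        · exact hN' h1
        · exact ENNReal.natCast_ne_top N h1
    · refine ENNReal.mul_ne_top (ENNReal.pow_ne_top ENNReal.coe_ne_top) ?_
      exact ENNReal.rpow_ne_top_of_ne_zero hN' (ENNReal.natCast_ne_top N)
    · intro s A hA hs
      obtain ⟨v, hv0, hv⟩ := hc (fun α => ‖s α‖ / A) (fun α => by positivity) (fun l hl => by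
        simp only [div_pow]
        rw [Finset.prod_div_distrib, Finset.prod_pow_eq_pow_sum, (hΛ l hl).1]
        exact (div_le_one (by positivity)).2 (hs l hl))
      obtain ⟨e, he⟩ := Finite.exists_max v
      have h1 : ∀ α : Idx r (t + (r + 1) * m),
          ‖s α‖ * ∏ c, v c ^ (α.1 c : ℕ) ≤ A * ∏ c, v c ^ αb c := by
        intro α
        have h2 := hv α
        have h3 : ∏ i, v i ^ (((α.1 i : ℕ) : ℤ) - (αb i : ℤ)) =
            (∏ c, v c ^ (α.1 c : ℕ)) / ∏ c, v c ^ αb c := by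
          rw [← Finset.prod_div_distrib]
          refine Finset.prod_congr rfl fun i _ => ?_
          rw [zpow_sub₀ (hv0 i).ne', zpow_natCast, zpow_natCast]
        rw [h3] at h2
        have hB : 0 < ∏ c, v c ^ αb c := Finset.prod_pos fun c _ => pow_pos (hv0 c) _
        rw [div_mul_div_comm, div_le_one (mul_pos hA hB)] at h2
        exact h2
      have hθ1 : ∀ c, v c / v e ≤ 1 := fun c => (div_le_one (hv0 e)).2 (he c)
      have hθ0 : ∀ c, 0 < v c / v e := fun c => div_pos (hv0 c) (hv0 e)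
      refine le_trans (fiber_term r m (t + (r + 1) * m) hm s A hA N hN hN0 (fun c => v c / v e)
        hθ0 hθ1 e (div_self (hv0 e).ne') fun α => ?_) ?_
      · have h4 : ∀ β : Fin (r + 1) → ℕ, ∑ c, β c = t + (r + 1) * m →
            ∏ c, (v c / v e) ^ β c = (∏ c, v c ^ β c) / v e ^ (t + (r + 1) * m) := by
          intro β hβ
          simp only [div_pow]
          rw [Finset.prod_div_distrib, Finset.prod_pow_eq_pow_sum, hβ]
        have h5 : ‖s α‖ * ∏ c, (v c / v e) ^ (α.1 c : ℕ) ≤ A * ∏ c, (v c / v e) ^ αb c := by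
          rw [h4 (fun c => (α.1 c : ℕ)) α.2, h4 αb hsum, ← mul_div_assoc, ← mul_div_assoc]
          exact div_le_div_of_nonneg_right (h1 α) (pow_nonneg (hv0 e).le _)
        refine h5.trans (mul_le_mul_of_nonneg_left ?_ hA.le)
        refine Finset.prod_le_prod (fun c _ => pow_nonneg (hθ0 c).le _) fun c _ => ?_
        exact pow_le_pow_of_le_one (hθ0 c).le (hθ1 c) (Nat.le_add_right _ _)
      · exact Finset.single_le_sum
          (f := fun e : Fin (r + 1) => ∫⁻ w in Metric.closedBall (0 : Fin r → ℂ) 1,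
            ‖form s (e.insertNth (1 : ℂ) w)‖ₑ ^ (-(2 : ℝ) / m))
          (fun _ _ => zero_le) (Finset.mem_univ e)

/-- The lower bound in the form used later.

Proof. Take `q, Λ, c0` from `fiber`. Let `G = ∑ l ∈ Λ, ∏ α, ‖s α‖ ^ l α` (a real number). If `G > 0`,
use `A = G ^ (1/q)`, and `(G ^ (1/q)) ^ (-2/m) = G ^ (-2 / (m * q))`. If `G = 0` the left side is `⊤`
(`ENNReal.zero_rpow_of_neg`, `c0 ≠ 0`), and `fiber` holds for all `A = ε > 0`; let `ε → 0`: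
the right side is `≥ c0 * ofReal ε ^ (-2/m)`, which tends to `⊤`. -/
theorem fiber' (r m t : ℕ) (hm : 1 ≤ m) (b : Fin (r + 1)) :
    ∃ q : ℕ, 2 ≤ q ∧ ∃ Λ : Finset (Idx r (t + (r + 1) * m) → ℕ),
      (∀ l ∈ Λ, ∑ α, l α = q ∧
        ∀ e, ∑ α, l α * (α.1 e : ℕ) = q * (m + if e = b then t else 0)) ∧
      ∃ c0 : ℝ≥0∞, c0 ≠ 0 ∧ c0 ≠ ⊤ ∧ ∀ s : Idx r (t + (r + 1) * m) → ℂ,
        c0 * (∑ l : Λ, ‖∏ α, s α ^ (l : Idx r (t + (r + 1) * m) → ℕ) α‖ₑ) ^
            (-(2 : ℝ) / (m * q : ℕ)) ≤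
          ∑ e : Fin (r + 1), ∫⁻ w in Metric.closedBall (0 : Fin r → ℂ) 1,
            ‖form s (e.insertNth (1 : ℂ) w)‖ₑ ^ (-(2 : ℝ) / m) := by
  obtain ⟨q, hq, Λ, hΛ, c0, hc0, hc1, h⟩ := fiber r m t hm b
  refine ⟨q, hq, Λ, hΛ, c0, hc0, hc1, fun s => ?_⟩
  set G : ℝ := ∑ l ∈ Λ, ∏ α, ‖s α‖ ^ l α with hG
  have hmR : (m : ℝ) ≠ 0 := by exact_mod_cast (by omega : m ≠ 0)
  have hqR : (q : ℝ) ≠ 0 := by exact_mod_cast (by omega : q ≠ 0)
  have hterm : ∀ l ∈ Λ, 0 ≤ ∏ α, ‖s α‖ ^ l α := fun l _ =>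
    Finset.prod_nonneg fun α _ => pow_nonneg (norm_nonneg _) _
  have hG0 : 0 ≤ G := Finset.sum_nonneg hterm
  have hGe : (∑ l : Λ, ‖∏ α, s α ^ (l : Idx r (t + (r + 1) * m) → ℕ) α‖ₑ) = ENNReal.ofReal G := by
    rw [hG, ENNReal.ofReal_sum_of_nonneg hterm,
      ← Finset.sum_coe_sort Λ (fun l => ENNReal.ofReal (∏ α, ‖s α‖ ^ l α))]
    refine Finset.sum_congr rfl fun l _ => ?_
    rw [← ofReal_norm, norm_prod]
    simp only [norm_pow]
  rw [hGe]
  rcases hG0.eq_or_lt with h0 | h0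
  · -- the right side is infinite
    have hz : ∀ l ∈ Λ, ∏ α, ‖s α‖ ^ l α = 0 := by
      have := (Finset.sum_eq_zero_iff_of_nonneg hterm).1 h0.symm
      exact this
    set R := ∑ e : Fin (r + 1), ∫⁻ w in Metric.closedBall (0 : Fin r → ℂ) 1,
            ‖form s (e.insertNth (1 : ℂ) w)‖ₑ ^ (-(2 : ℝ) / m) with hR
    have hR' : R = ⊤ := by
      by_contra hne
      have hK : R / c0 ≠ ⊤ := ENNReal.div_ne_top hne hc0
      set X : ℝ := (R / c0).toReal + 1 with hX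
      have hX0 : 0 < X := by positivity
      have h1 := h s (X ^ (-((m : ℝ) / 2))) (Real.rpow_pos_of_pos hX0 _) fun l hl => by
        rw [hz l hl]; positivity
      rw [ENNReal.ofReal_rpow_of_pos (Real.rpow_pos_of_pos hX0 _), ← Real.rpow_mul hX0.le,
        show -((m : ℝ) / 2) * (-(2 : ℝ) / m) = 1 by field_simp, Real.rpow_one, mul_comm,
        ← ENNReal.le_div_iff_mul_le (Or.inl hc0) (Or.inl hc1)] at h1
      have h2 := (ENNReal.ofReal_le_iff_le_toReal hK).1 h1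
      rw [hX] at h2
      linarith
    rw [hR']
    exact le_top
  · have hA : 0 < G ^ ((1 : ℝ) / q) := Real.rpow_pos_of_pos h0 _
    have h1 := h s (G ^ ((1 : ℝ) / q)) hA fun l hl => by
      rw [← Real.rpow_natCast, ← Real.rpow_mul h0.le, one_div_mul_cancel hqR, Real.rpow_one]
      exact Finset.single_le_sum hterm hl
    refine le_trans (le_of_eq ?_) h1
    congr 1
    rw [ENNReal.ofReal_rpow_of_pos h0, ENNReal.ofReal_rpow_of_pos hA, ← Real.rpow_mul h0.le]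
    congr 2
    push_cast
    field_simp

end Pool.Agent.Abd
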