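import Pool.Agent.H.MP_e23cd6_ag.Basic

/-! The klt condition may be checked in one chart near each point. -/

set_option autoImplicit false

open scoped Manifold ContDiff Topology ENNReal
open MeasureTheory Set

namespace Pool.Agent.Abd

theorem kltchart_enorm_rpow {a b : ℂ} {C : ℝ≥0∞} (hC0 : C ≠ 0) (hC : C ≠ ⊤) {τ : ℝ} (hτ : 0 ≤ τ)
    (h : ‖a‖ₑ ≤ C * ‖b‖ₑ) : ‖b‖ₑ ^ (-τ) ≤ C ^ τ * ‖a‖ₑ ^ (-τ) := by
  have h1 : ‖a‖ₑ ^ τ ≤ C ^ τ * ‖b‖ₑ ^ τ := by
    rw [← ENNReal.mul_rpow_of_nonneg _ _ hτ]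
    exact ENNReal.rpow_le_rpow h hτ
  have hD0 : C ^ τ ≠ 0 := by
    intro h0
    rcases (ENNReal.rpow_eq_zero_iff).1 h0 with h2 | h2
    · exact hC0 h2.1
    · exact hC h2.1
  have hD : C ^ τ ≠ ⊤ := ENNReal.rpow_ne_top_of_nonneg hτ hC
  rw [ENNReal.rpow_neg, ENNReal.rpow_neg]
  have h3 : (C ^ τ * ‖b‖ₑ ^ τ)⁻¹ ≤ (‖a‖ₑ ^ τ)⁻¹ := ENNReal.inv_le_inv.2 h1
  rw [ENNReal.mul_inv (Or.inl hD0) (Or.inl hD)] at h3
  calc (‖b‖ₑ ^ τ)⁻¹ = C ^ τ * ((C ^ τ)⁻¹ * (‖b‖ₑ ^ τ)⁻¹) := by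
        rw [← mul_assoc, ENNReal.mul_inv_cancel hD0 hD, one_mul]
    _ ≤ C ^ τ * (‖a‖ₑ ^ τ)⁻¹ := by gcongr

section

variable {E : Type} [NormedAddCommGroup E] [NormedSpace ℂ E]
variable {M : Type} [TopologicalSpace M] [ChartedSpace E M] [IsManifold 𝓘(ℂ, E) ω M]

/-- Coordinate changes are analytic. -/
theorem kltchart_contDiffAt {φ ψ : OpenPartialHomeomorph M E} (hφ : φ ∈ Charts E M)
    (hψ : ψ ∈ Charts E M) {x : M} (hx : x ∈ φ.source) (hx' : x ∈ ψ.source) :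
    ContDiffAt ℂ ω (φ ∘ ψ.symm) (ψ x) := by
  have h1 : ContMDiffAt 𝓘(ℂ, E) 𝓘(ℂ, E) ω ψ.symm (ψ x) :=
    contMDiffAt_symm_of_mem_maximalAtlas hψ (ψ.map_source hx')
  have h2 : ContMDiffAt 𝓘(ℂ, E) 𝓘(ℂ, E) ω φ (ψ.symm (ψ x)) := by
    rw [ψ.left_inv hx']
    exact contMDiffAt_of_mem_maximalAtlas hφ hx
  exact (ContMDiffAt.comp (ψ x) h2 h1).contDiffAt

variable [FiniteDimensional ℂ E]

/-- The Jacobian determinant is continuous. -/
theorem kltchart_jac_continuousAt {φ ψ : OpenPartialHomeomorph M E} (hφ : φ ∈ Charts E M)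
    (hψ : ψ ∈ Charts E M) {x : M} (hx : x ∈ φ.source) (hx' : x ∈ ψ.source) :
    ContinuousAt (jac φ ψ) x := by
  have h1 := kltchart_contDiffAt hφ hψ hx hx'
  have h2 : ContDiffAt ℂ 0 (fderiv ℂ (φ ∘ ψ.symm)) (ψ x) :=
    h1.fderiv_right (m := 0) (n := ω) le_top
  have h3 : ContinuousAt (fun z => (fderiv ℂ (φ ∘ ψ.symm) z).det) (ψ x) :=
    ContinuousAt.comp (f := fderiv ℂ (φ ∘ ψ.symm)) (g := fun A : E →L[ℂ] E => A.det)
      ContinuousLinearMap.continuous_det.continuousAt h2.continuousAt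
  exact ContinuousAt.comp (f := ψ) (g := fun z => (fderiv ℂ (φ ∘ ψ.symm) z).det) h3
    (ψ.continuousAt hx')

end

variable {E : Type} [NormedAddCommGroup E] [NormedSpace ℂ E] [FiniteDimensional ℂ E]
  [MeasureSpace E] [BorelSpace E] [(volume : Measure E).IsAddHaarMeasure]
variable {M : Type} [TopologicalSpace M] [ChartedSpace E M] [IsManifold 𝓘(ℂ, E) ω M]

omit [MeasureSpace E] [BorelSpace E] [(volume : Measure E).IsAddHaarMeasure] in
/-- The real Jacobian determinant of an analytic map is continuous at a point. -/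
theorem kltchart_det_continuousAt {F : E → E} {z : E} (hF : ContDiffAt ℂ ω F z) :
    ContinuousAt (fun w => |((fderiv ℂ F w).restrictScalars ℝ).det|) z := by
  haveI : FiniteDimensional ℝ E := FiniteDimensional.complexToReal E
  have h2 : ContDiffAt ℂ 0 (fderiv ℂ F) z := hF.fderiv_right (m := 0) (n := ω) le_top
  have h4 : Continuous (fun A : E →L[ℂ] E => A.restrictScalars ℝ) :=
    (ContinuousLinearMap.restrictScalarsL ℂ E E ℝ ℝ).continuous
  have h5 : Continuous (fun A : E →L[ℂ] E => |(A.restrictScalars ℝ).det|) :=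
    (ContinuousLinearMap.continuous_det.comp h4).abs
  exact ContinuousAt.comp (f := fderiv ℂ F) (g := fun A : E →L[ℂ] E => |(A.restrictScalars ℝ).det|)
      h5.continuousAt h2.continuousAt

/-- The klt condition may be checked in one chart and one frame near each point.

Proof. Let `i', φ', x` be given and `i, φ, N` from the hypothesis at `x`. By `t.trans i i' φ φ'`:
`t.f i φ = g i i' ^ k * jac φ φ' ^ m * t.f i' φ'` near `x`, and `g i i'` and `jac φ φ'` are bounded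
near `x` (continuity: `B.hol`, and `φ ∘ φ'.symm` is analytic at `φ' x`, so its `fderiv` is continuous
there). So `‖t.f i φ‖ ≤ C ‖t.f i' φ'‖` near `x`, `‖t.f i' φ'‖ ^ (-τ) ≤ C ^ τ ‖t.f i φ‖ ^ (-τ)`
(`τ = 2/m ≥ 0`). Change of variables with `F = φ' ∘ φ.symm` on a small open (or compact) neighbourhood
`A ⊆ N` of `φ x` on which `F` is injective, differentiable over `ℝ` with derivative bounded in norm
(so `|det| ≤ C'`; `lintegral_image_eq_lintegral_abs_det_fderiv_mul`, derivative =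
`(fderiv ℂ F z).restrictScalars ℝ`): `∫_{F '' A} ‖t.f i φ (φ'.symm z')‖ ^ (-τ) dz' ≤
C' ∫_A ‖t.f i φ (φ.symm z)‖ ^ (-τ) dz < ⊤`, and `F '' A` is a neighbourhood of `φ' x`
(`A` open: image of an open set under the homeomorphism `φ.symm ≫ φ'`). -/
theorem klt_of_local {B : LineBundle E M} {k m : ℕ} (t : Sec B k m)
    (ht : ∀ x, ∃ i, ∃ φ ∈ Charts E M, x ∈ B.U i ∧ x ∈ φ.source ∧
      ∃ N ∈ 𝓝 (φ x), ∫⁻ z in N, ‖t.f i φ (φ.symm z)‖ₑ ^ (-(2 : ℝ) / m) < ⊤) : t.Klt := by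
  intro i' φ' hφ' x hxi' hxφ'
  obtain ⟨i, φ, hφ, hxi, hxφ, N, hN, hint⟩ := ht x
  haveI : FiniteDimensional ℝ E := FiniteDimensional.complexToReal E
  set τ : ℝ := 2 / m with hτd
  have hτ : 0 ≤ τ := by positivity
  have hτe : -(2 : ℝ) / m = -τ := by rw [hτd, neg_div]
  rw [hτe] at hint ⊢
  -- the bound near x
  have hg : ContinuousAt (B.g i i') x := (B.hol i i' x hxi hxi').continuousAt
  have hj : ContinuousAt (jac φ φ') x := kltchart_jac_continuousAt hφ hφ' hxφ hxφ'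
  have hgj : ContinuousAt (fun y => ‖B.g i i' y ^ k * jac φ φ' y ^ m‖) x :=
    ((hg.pow k).mul (hj.pow m)).norm
  set C : ℝ := ‖B.g i i' x ^ k * jac φ φ' x ^ m‖ + 1 with hC
  have hCpos : 0 < C := by positivity
  have hev1 : ∀ᶠ y in 𝓝 x, ‖B.g i i' y ^ k * jac φ φ' y ^ m‖ < C :=
    hgj.eventually_lt continuousAt_const (by rw [hC]; linarith)
  -- the Jacobian of the coordinate change
  set F : E → E := φ' ∘ φ.symm with hF
  have hFx : ContDiffAt ℂ ω F (φ x) := kltchart_contDiffAt hφ' hφ hxφ' hxφ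
  set J : E → ℝ := fun w => |((fderiv ℂ F w).restrictScalars ℝ).det| with hJ
  have hJc : ContinuousAt J (φ x) := kltchart_det_continuousAt hFx
  have hev2 : ∀ᶠ z in 𝓝 (φ x), J z < J (φ x) + 1 :=
    hJc.eventually_lt continuousAt_const (by linarith)
  -- pull back the first condition
  have hsymm : Filter.Tendsto φ.symm (𝓝 (φ x)) (𝓝 x) := by
    have h1 := φ.symm.continuousAt (φ.map_source hxφ)
    have h2 : φ.symm (φ x) = x := φ.left_inv hxφ
    rw [ContinuousAt, h2] at h1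
    exact h1
  have hev3 : ∀ᶠ y in 𝓝 x, y ∈ B.U i ∧ y ∈ B.U i' ∧ y ∈ φ.source ∧ y ∈ φ'.source ∧
      ‖B.g i i' y ^ k * jac φ φ' y ^ m‖ < C := by
    filter_upwards [(B.isOpen i).mem_nhds hxi, (B.isOpen i').mem_nhds hxi',
      φ.open_source.mem_nhds hxφ, φ'.open_source.mem_nhds hxφ', hev1] with y h1 h2 h3 h4 h5
    exact ⟨h1, h2, h3, h4, h5⟩
  have hev4 := hsymm.eventually hev3
  have hev5 : ∀ᶠ z in 𝓝 (φ x), z ∈ N ∧ z ∈ φ.target ∧ J z < J (φ x) + 1 ∧
      φ.symm z ∈ B.U i ∧ φ.symm z ∈ B.U i' ∧ φ.symm z ∈ φ.source ∧ φ.symm z ∈ φ'.source ∧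
      ‖B.g i i' (φ.symm z) ^ k * jac φ φ' (φ.symm z) ^ m‖ < C := by
    filter_upwards [hN, φ.open_target.mem_nhds (φ.map_source hxφ), hev2, hev4] with z h1 h2 h3 h4
    exact ⟨h1, h2, h3, h4⟩
  obtain ⟨A, hA, hAo, hxA⟩ := eventually_nhds_iff.1 hev5
  have hAsrc : A ⊆ (φ.symm.trans φ').source := by
    intro z hz
    have h1 := hA z hz
    simp only [OpenPartialHomeomorph.trans_source, OpenPartialHomeomorph.symm_source, mem_inter_iff,
      mem_preimage]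
    exact ⟨h1.2.1, h1.2.2.2.2.2.2.1⟩
  have hFe : ∀ z, (φ.symm.trans φ') z = F z := fun z => rfl
  have hFA : (φ.symm.trans φ') '' A = F '' A := rfl
  refine ⟨F '' A, ?_, ?_⟩
  · have h1 : IsOpen ((φ.symm.trans φ') '' A) :=
      (φ.symm.trans φ').isOpen_image_of_subset_source hAo hAsrc
    rw [hFA] at h1
    refine h1.mem_nhds ⟨φ x, hxA, ?_⟩
    simp only [hF, Function.comp, φ.left_inv hxφ]
  · have hinj : InjOn F A := by
      intro z hz w hw h
      exact (φ.symm.trans φ').injOn (hAsrc hz) (hAsrc hw) h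
    have hder : ∀ z ∈ A, HasFDerivWithinAt F ((fderiv ℂ F z).restrictScalars ℝ) A z := by
      intro z hz
      have h1 := hA z hz
      have h2 := kltchart_contDiffAt hφ' hφ h1.2.2.2.2.2.2.1 h1.2.2.2.2.2.1
      rw [φ.right_inv h1.2.1] at h2
      have h3 : HasFDerivAt F (fderiv ℂ F z) z :=
        (h2.differentiableAt (by simp)).hasFDerivAt
      exact (h3.restrictScalars ℝ).hasFDerivWithinAt
    rw [lintegral_image_eq_lintegral_abs_det_fderiv_mul volume hAo.measurableSet hder hinj]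
    have hle : ∀ z ∈ A, ENNReal.ofReal |((fderiv ℂ F z).restrictScalars ℝ).det| *
        ‖t.f i' φ' (φ'.symm (F z))‖ₑ ^ (-τ) ≤
        ENNReal.ofReal (J (φ x) + 1) * (ENNReal.ofReal C) ^ τ *
          ‖t.f i φ (φ.symm z)‖ₑ ^ (-τ) := by
      intro z hz
      obtain ⟨h1, h2, h3, h4, h5, h6, h7, h8⟩ := hA z hz
      have h9 : φ'.symm (F z) = φ.symm z := φ'.left_inv h7
      rw [h9, mul_assoc]
      refine mul_le_mul' (ENNReal.ofReal_le_ofReal h3.le) ?_
      refine kltchart_enorm_rpow (by simpa using hCpos) ENNReal.ofReal_ne_top hτ ?_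
      rw [t.trans i i' φ hφ φ' hφ' (φ.symm z) h4 h5 h6 h7, enorm_mul]
      refine mul_le_mul' ?_ le_rfl
      rw [← ofReal_norm]
      exact ENNReal.ofReal_le_ofReal h8.le
    calc _ ≤ ∫⁻ z in A, ENNReal.ofReal (J (φ x) + 1) * (ENNReal.ofReal C) ^ τ *
          ‖t.f i φ (φ.symm z)‖ₑ ^ (-τ) := setLIntegral_mono' hAo.measurableSet hle
      _ = ENNReal.ofReal (J (φ x) + 1) * (ENNReal.ofReal C) ^ τ *
          ∫⁻ z in A, ‖t.f i φ (φ.symm z)‖ₑ ^ (-τ) :=
        lintegral_const_mul' _ _ (ENNReal.mul_ne_top ENNReal.ofReal_ne_top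
          (ENNReal.rpow_ne_top_of_nonneg hτ ENNReal.ofReal_ne_top))
      _ < ⊤ := by
        refine ENNReal.mul_lt_top ?_ ?_
        · exact (ENNReal.mul_ne_top ENNReal.ofReal_ne_top
            (ENNReal.rpow_ne_top_of_nonneg hτ ENNReal.ofReal_ne_top)).lt_top
        · refine lt_of_le_of_lt (lintegral_mono_set ?_) hint
          exact fun z hz => (hA z hz).1

end Pool.Agent.Abd
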