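import Pool.Agent.H.MP_e23cd6_ag.Basic

/-! The Jacobian of the charts `κ p b φ` and `κ p c φ`. -/

set_option autoImplicit false

open scoped Manifold ContDiff Topology ENNReal
open MeasureTheory Set

namespace Pool.Agent.Abd

/-- The derivative matrix of the change of affine coordinates, up to a permutation of the rows. -/
noncomputable def jac1_A {r : ℕ} (j0 : Fin r) (w : Fin r → ℂ) : Matrix (Fin r) (Fin r) ℂ :=
  (w j0)⁻¹ • (1 + Matrix.replicateCol (Fin 1)
    (fun l => if l = j0 then -(w j0)⁻¹ - 1 else -(w l * (w j0)⁻¹)) *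
      Matrix.replicateRow (Fin 1) (fun i => if i = j0 then (1 : ℂ) else 0))

theorem jac1_det_A {r : ℕ} (j0 : Fin r) (w : Fin r → ℂ) :
    (jac1_A j0 w).det = -((w j0)⁻¹) ^ (r + 1) := by
  unfold jac1_A
  rw [Matrix.det_smul, Matrix.det_one_add_mul_comm, Matrix.det_fin_one, Fintype.card_fin,
    Matrix.add_apply, Matrix.one_apply_eq, Matrix.replicateRow_mul_replicateCol_apply]
  simp only [dotProduct, ite_mul, one_mul, zero_mul, Finset.sum_ite_eq', Finset.mem_univ,
    if_true]
  ring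

theorem jac1_A_apply {r : ℕ} (j0 : Fin r) (w : Fin r → ℂ) (l i : Fin r) :
    jac1_A j0 w l i = (w j0)⁻¹ * ((if l = i then 1 else 0) +
      (if l = j0 then -(w j0)⁻¹ - 1 else -(w l * (w j0)⁻¹)) * (if i = j0 then 1 else 0)) := by
  unfold jac1_A
  simp [Matrix.mul_apply, Matrix.one_apply]

/-- The coordinate functions, before the permutation of the rows. -/
noncomputable def jac1_S {r : ℕ} (j0 : Fin r) (w : Fin r → ℂ) : Fin r → ℂ :=
  fun l => (if l = j0 then 1 else w l) * (w j0)⁻¹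

theorem jac1_hasFDerivAt_S {r : ℕ} (j0 : Fin r) (w : Fin r → ℂ) (hw : w j0 ≠ 0) (l : Fin r) :
    HasFDerivAt (fun x => jac1_S j0 x l) ((ContinuousLinearMap.proj (R := ℂ)
      (φ := fun _ : Fin r => ℂ) l).comp
      (LinearMap.toContinuousLinearMap (Matrix.toLin' (jac1_A j0 w)))) w := by
  have h0 : ∀ i : Fin r, HasFDerivAt (fun w : Fin r → ℂ => w i)
      (ContinuousLinearMap.proj (R := ℂ) (φ := fun _ : Fin r => ℂ) i) w := fun i =>
    (ContinuousLinearMap.proj (R := ℂ) (φ := fun _ : Fin r => ℂ) i).hasFDerivAt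
  have h1 := (hasDerivAt_inv hw).comp_hasFDerivAt w (h0 j0)
  by_cases hl : l = j0
  · subst hl
    have e1 : (fun x : Fin r → ℂ => jac1_S l x l) = (fun x => x⁻¹) ∘ fun x : Fin r → ℂ => x l := by
      funext x
      simp [jac1_S]
    rw [e1]
    refine h1.congr_fderiv ?_
    refine ContinuousLinearMap.coe_injective (LinearMap.pi_ext' fun i => ?_)
    refine LinearMap.ext_ring ?_
    simp only [LinearMap.comp_apply, LinearMap.coe_single, ContinuousLinearMap.coe_coe,
      smul_apply, ContinuousLinearMap.proj_apply,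
      ContinuousLinearMap.comp_apply, LinearMap.coe_toContinuousLinearMap', Matrix.toLin'_apply,
      Matrix.mulVec_single_one, Matrix.col_apply, jac1_A_apply, smul_eq_mul]
    by_cases hi : i = l
    · subst hi
      simp
      field_simp
    · simp [hi, Ne.symm hi]
  · have e1 : (fun x : Fin r → ℂ => jac1_S j0 x l) =
        fun x : Fin r → ℂ => x l * (x j0)⁻¹ := by
      funext x
      simp [jac1_S, hl]
    rw [e1]
    refine ((h0 l).mul h1).congr_fderiv ?_
    refine ContinuousLinearMap.coe_injective (LinearMap.pi_ext' fun i => ?_)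
    refine LinearMap.ext_ring ?_
    simp only [LinearMap.comp_apply, LinearMap.coe_single, ContinuousLinearMap.coe_coe,
      smul_apply, ContinuousLinearMap.proj_apply, add_apply,
      ContinuousLinearMap.comp_apply, LinearMap.coe_toContinuousLinearMap', Matrix.toLin'_apply,
      Matrix.mulVec_single_one, Matrix.col_apply, jac1_A_apply, smul_eq_mul, Function.comp_apply,
      Pi.single_apply]
    by_cases hi : i = j0
    · subst hi
      simp [hl]
      ring
    · by_cases hil : l = i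
      · subst hil
        simp [hl, Ne.symm hl]
      · simp [hil, hi, Ne.symm hi]

/-- The change of affine coordinates. -/
theorem jac1_hasFDerivAt_R {r : ℕ} (j0 : Fin r) (σ : Fin r → Fin r) (w : Fin r → ℂ)
    (hw : w j0 ≠ 0) :
    HasFDerivAt (fun x j => jac1_S j0 x (σ j))
      (LinearMap.toContinuousLinearMap (Matrix.toLin' ((jac1_A j0 w).submatrix σ id))) w := by
  rw [hasFDerivAt_pi']
  intro j
  refine (jac1_hasFDerivAt_S j0 w hw (σ j)).congr_fderiv ?_
  refine ContinuousLinearMap.coe_injective (LinearMap.pi_ext' fun i => ?_)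
  refine LinearMap.ext_ring ?_
  simp

theorem jac1_det_R {r : ℕ} (j0 : Fin r) (σ : Equiv.Perm (Fin r)) (w : Fin r → ℂ) :
    ‖((jac1_A j0 w).submatrix σ id).det‖ = ‖(w j0)⁻¹‖ ^ (r + 1) := by
  rw [Matrix.det_permute, jac1_det_A, norm_mul, norm_neg, norm_pow]
  rcases Int.units_eq_one_or (Equiv.Perm.sign σ) with h | h <;> simp [h]

/-- The permutation of the coordinates. -/
theorem jac1_perm {r : ℕ} {b c : Fin (r + 1)} (hbc : b ≠ c) :
    ∃ (j0 : Fin r) (σ : Equiv.Perm (Fin r)), c.succAbove j0 = b ∧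
      ∀ (w : Fin r → ℂ) (j : Fin r),
        Fin.insertNth (α := fun _ => ℂ) c (1 : ℂ) w (b.succAbove j) = if σ j = j0 then 1 else w (σ j) := by
  obtain ⟨j0, hj0⟩ := Fin.exists_succAbove_eq hbc
  obtain ⟨j1, hj1⟩ := Fin.exists_succAbove_eq hbc.symm
  have h1 : ∀ j : Fin r, ∃ i : Fin r, (j = j1 → i = j0) ∧
      (j ≠ j1 → c.succAbove i = b.succAbove j) := by
    intro j
    by_cases hj : j = j1
    · exact ⟨j0, fun _ => rfl, fun h => (h hj).elim⟩
    · obtain ⟨i, hi⟩ := Fin.exists_succAbove_eq (x := b.succAbove j) (y := c)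
        (fun h => hj (Fin.succAbove_right_injective (h.trans hj1.symm)))
      exact ⟨i, fun h => (hj h).elim, fun _ => hi⟩
  choose τ h2 h3 using h1
  have hinj : Function.Injective τ := by
    intro j j' hjj
    by_cases hj : j = j1
    · by_cases hj' : j' = j1
      · rw [hj, hj']
      · exfalso
        have h4 := h3 j' hj'
        rw [← hjj, h2 j hj, hj0] at h4
        exact Fin.succAbove_ne b j' h4.symm
    · by_cases hj' : j' = j1
      · exfalso
        have h4 := h3 j hj
        rw [hjj, h2 j' hj', hj0] at h4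
        exact Fin.succAbove_ne b j h4.symm
      · have h4 := h3 j hj
        rw [hjj, h3 j' hj'] at h4
        exact (Fin.succAbove_right_injective h4).symm
  refine ⟨j0, Equiv.ofBijective τ (Finite.injective_iff_bijective.1 hinj), hj0, fun w j => ?_⟩
  rw [Equiv.ofBijective_apply]
  by_cases hj : j = j1
  · rw [if_pos (h2 j hj), hj, hj1, Fin.insertNth_apply_same]
  · rw [← h3 j hj, Fin.insertNth_apply_succAbove, if_neg]
    intro h4
    have h5 := h3 j hj
    rw [h4, hj0] at h5
    exact Fin.succAbove_ne b j h5.symm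

namespace SplitBundle

variable {E : Type} [NormedAddCommGroup E] [NormedSpace ℂ E] [FiniteDimensional ℂ E] {r : ℕ}
variable {X Y : Type} [TopologicalSpace X] [TopologicalSpace Y]
  [ChartedSpace (E × (Fin r → ℂ)) X] [ChartedSpace E Y]
variable {π : X → Y} (h : SplitBundle E r π)
variable [IsManifold 𝓘(ℂ, E) ω Y] [IsManifold 𝓘(ℂ, E × (Fin r → ℂ)) ω X]
variable {φ : OpenPartialHomeomorph Y E} (hφ : φ ∈ Charts E Y)

omit [FiniteDimensional ℂ E] [IsManifold 𝓘(ℂ, E) ω Y]
  [IsManifold 𝓘(ℂ, E × (Fin r → ℂ)) ω X] in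
/-- The change of charts in coordinates. -/
theorem jac1_comp (p : h.P) {b c : Fin (r + 1)} {j0 : Fin r} {σ : Equiv.Perm (Fin r)}
    (hj0 : c.succAbove j0 = b) (hσ : ∀ (w : Fin r → ℂ) (j : Fin r),
        Fin.insertNth (α := fun _ => ℂ) c (1 : ℂ) w (b.succAbove j) = if σ j = j0 then 1 else w (σ j))
    {y : Y} (hy : y ∈ h.W p) (hy' : y ∈ φ.source) {w : Fin r → ℂ} (hw : w j0 ≠ 0) :
    h.κ p b φ hφ ((h.κ p c φ hφ).symm (φ y, w)) = (φ y, fun j => jac1_S j0 w (σ j)) := by
  change h.κ p b φ hφ (h.pt p c φ hφ y w) = _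
  have hp := h.pi_pt hφ p c hy hy' w
  have hW : π (h.pt p c φ hφ y w) ∈ h.W p := by rw [hp]; exact hy
  have hc := h.pt_notMem hφ p c hy hy' w
  have hz := h.z_pt hφ p c hy hy' w
  have hzb : h.z p c (h.pt p c φ hφ y w) b = w j0 := by
    rw [← hj0]; exact h.z_pt_succAbove hφ p c hy hy' w j0
  have hb : h.pt p c φ hφ y w ∉ h.H b := by
    intro hb
    rw [← h.z_eq_zero p c b _ hW hc, hzb] at hb
    exact hw hb
  rw [h.κ_apply hφ p b _ ((h.mem_κ_source hφ p b _).2 ⟨hW, by rw [hp]; exact hy', hb⟩), hp]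
  congr 1
  funext j
  have h1 := h.z_mul p c b (b.succAbove j) _ hW hc hb
  rw [hzb, hz, hσ] at h1
  unfold jac1_S
  rw [← h1]
  field_simp

omit [IsManifold 𝓘(ℂ, E) ω Y] [IsManifold 𝓘(ℂ, E × (Fin r → ℂ)) ω X] in
/-- Change of the affine chart on the fibre: `|jac| = |x_c / x_b| ^ (r + 1)`. -/
theorem norm_jac_same (p : h.P) (b c : Fin (r + 1)) {x : X} (hp : π x ∈ h.W p)
    (hx : π x ∈ φ.source) (hb : x ∉ h.H b) (hc : x ∉ h.H c) :
    ‖jac (h.κ p b φ hφ) (h.κ p c φ hφ) x‖ = ‖h.z p b x c‖ ^ (r + 1) := by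
  have hxc : x ∈ (h.κ p c φ hφ).source := (h.mem_κ_source hφ p c x).2 ⟨hp, hx, hc⟩
  have hκx := h.κ_apply hφ p c x hxc
  unfold jac
  by_cases hbc : b = c
  · subst hbc
    have h1 : (h.κ p b φ hφ) ∘ (h.κ p b φ hφ).symm =ᶠ[𝓝 (h.κ p b φ hφ x)] id := by
      filter_upwards [(h.κ p b φ hφ).open_target.mem_nhds ((h.κ p b φ hφ).map_source hxc)]
        with v hv
      exact (h.κ p b φ hφ).right_inv hv
    rw [h1.fderiv_eq, fderiv_id, h.z_self p b x hp hb]
    simp [ContinuousLinearMap.det]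
  · obtain ⟨j0, σ, hj0, hσ⟩ := jac1_perm hbc
    set w : Fin r → ℂ := fun e => h.z p c x (c.succAbove e) with hwdef
    have hw0 : w j0 = h.z p c x b := by rw [hwdef]; simp only; rw [hj0]
    have hw : w j0 ≠ 0 := by
      rw [hw0]
      intro h0
      exact hb ((h.z_eq_zero p c b x hp hc).1 h0)
    have h1 : (h.κ p b φ hφ) ∘ (h.κ p c φ hφ).symm =ᶠ[𝓝 (h.κ p c φ hφ x)]
        Prod.map id (fun x j => jac1_S j0 x (σ j)) := by
      have hev1 := (h.κ p c φ hφ).open_target.mem_nhds ((h.κ p c φ hφ).map_source hxc)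
      have hev2 : ∀ᶠ v : E × (Fin r → ℂ) in 𝓝 (h.κ p c φ hφ x), v.2 j0 ≠ 0 := by
        have hcont : Continuous fun v : E × (Fin r → ℂ) => v.2 j0 := by fun_prop
        refine hcont.continuousAt.eventually_ne ?_
        rw [hκx]
        exact hw
      filter_upwards [hev1, hev2] with v hv hv2
      rw [h.κ_target hφ p c] at hv
      obtain ⟨⟨y, ⟨hy, hy'⟩, hyv⟩, -⟩ := hv
      obtain ⟨v1, v2⟩ := v
      simp only at hyv hv2
      subst hyv
      exact h.jac1_comp hφ p hj0 hσ hy hy' hv2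
    have h2 : HasFDerivAt (Prod.map id (fun x j => jac1_S j0 x (σ j)))
        ((ContinuousLinearMap.id ℂ E).prodMap (LinearMap.toContinuousLinearMap
          (Matrix.toLin' ((jac1_A j0 w).submatrix σ id)))) (h.κ p c φ hφ x) := by
      rw [hκx]
      exact HasFDerivAt.prodMap (p := (φ (π x), w)) (hasFDerivAt_id _) (jac1_hasFDerivAt_R j0 σ w hw)
    rw [h1.fderiv_eq, h2.fderiv]
    have h3 : ((ContinuousLinearMap.id ℂ E).prodMap (LinearMap.toContinuousLinearMap
          (Matrix.toLin' ((jac1_A j0 w).submatrix σ id)))).det =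
        ((jac1_A j0 w).submatrix σ id).det := by
      unfold ContinuousLinearMap.det
      rw [ContinuousLinearMap.coe_prodMap, LinearMap.det_prodMap]
      simp
    rw [h3, jac1_det_R, hw0]
    have h4 := h.z_mul p b c b x hp hb hc
    rw [h.z_self p b x hp hb] at h4
    rw [← hw0] at h4 ⊢
    rw [eq_inv_of_mul_eq_one_left h4]

end SplitBundle

end Pool.Agent.Abd
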