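import Pool.Agent.H.MP_e23cd6_ag.Basic

/-! Local integrability on product neighbourhoods. -/

set_option autoImplicit false

open scoped Manifold ContDiff Topology ENNReal
open MeasureTheory Set

namespace Pool.Agent.Abd

/-- Product neighbourhoods (tube lemma for local integrability).
Proof. `K` compact: choose for `w ∈ K` the neighbourhood of `(v, w)`, containing a product
`A_w ×ˢ B_w` of open sets; finitely many `B_w` cover `K`; `N = ⋂ A_w`, and
`∫_{N ×ˢ K} f ≤ ∑ ∫_{A_w ×ˢ B_w} f < ⊤` (`lintegral_biUnion_finset_le`). -/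
theorem exists_tube {V W : Type} [TopologicalSpace V] [TopologicalSpace W] [MeasurableSpace V]
    [MeasurableSpace W] (μ : Measure (V × W)) (f : V × W → ℝ≥0∞) (v : V) {K : Set W}
    (hK : IsCompact K) (h : ∀ w ∈ K, ∃ N ∈ 𝓝 (v, w), ∫⁻ u in N, f u ∂μ < ⊤) :
    ∃ N : Set V, IsOpen N ∧ v ∈ N ∧ ∫⁻ u in N ×ˢ K, f u ∂μ < ⊤ := by
  refine hK.induction_on (p := fun s : Set W => ∃ N : Set V, IsOpen N ∧ v ∈ N ∧
    ∫⁻ u in N ×ˢ s, f u ∂μ < ⊤) ?_ ?_ ?_ ?_
  · exact ⟨univ, isOpen_univ, mem_univ _, by simp⟩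
  · rintro s t hst ⟨N, hN, hv, hf⟩
    exact ⟨N, hN, hv, (lintegral_mono_set (prod_mono_right hst)).trans_lt hf⟩
  · rintro s t ⟨N, hN, hv, hf⟩ ⟨N', hN', hv', hf'⟩
    refine ⟨N ∩ N', hN.inter hN', ⟨hv, hv'⟩, ?_⟩
    have hsub : (N ∩ N') ×ˢ (s ∪ t) ⊆ N ×ˢ s ∪ N' ×ˢ t := by
      rintro ⟨a, b⟩ ⟨⟨h1, h2⟩, h3⟩
      rcases h3 with h3 | h3
      · exact Or.inl ⟨h1, h3⟩
      · exact Or.inr ⟨h2, h3⟩
    exact ((lintegral_mono_set hsub).trans (lintegral_union_le _ _ _)).trans_lt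
      (ENNReal.add_lt_top.2 ⟨hf, hf'⟩)
  · intro w hw
    obtain ⟨N, hN, hf⟩ := h w hw
    obtain ⟨A, B, hA, hvA, hB, hwB, hs⟩ := mem_nhds_prod_iff'.1 hN
    exact ⟨B, mem_nhdsWithin_of_mem_nhds (hB.mem_nhds hwB), A, hA, hvA,
      (lintegral_mono_set hs).trans_lt hf⟩

namespace SplitBundle

variable {E : Type} [NormedAddCommGroup E] [NormedSpace ℂ E] [FiniteDimensional ℂ E]
  [MeasureSpace E] [BorelSpace E] [(volume : Measure E).IsAddHaarMeasure] {r : ℕ}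
variable {X Y : Type} [TopologicalSpace X] [TopologicalSpace Y]
  [ChartedSpace (E × (Fin r → ℂ)) X] [ChartedSpace E Y]
variable {π : X → Y} (h : SplitBundle E r π)
variable [IsManifold 𝓘(ℂ, E) ω Y] [IsManifold 𝓘(ℂ, E × (Fin r → ℂ)) ω X]
variable {L : LineBundle E Y} {a k m : ℕ}

/-- The fibre integrals over the unit polydiscs are locally integrable on the base.
Proof. For each `b`: `s.Klt` for `(i, p, b)`, the chart `κ p b φ` and the points `pt p b φ y w`,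
`‖w‖ ≤ 1` (`κ_pt`), and `exists_tube` give an open `N_b ∋ φ y` with
`∫_{N_b ×ˢ closedBall} ‖loc‖ ^ (-2/m) < ⊤`; may intersect `N_b` with the open set
`φ '' (L.U i ∩ W p ∩ φ.source)`, where `loc` is continuous (`loc_analyticAt`), so that the integrand is
measurable on `N_b ×ˢ closedBall`; Tonelli (`lintegral_prod`, `Measure.prod_restrict`,
`volume_eq_prod`) gives the iterated integral. Sum over `b`, `N = ⋂ N_b`. -/
theorem klt_fiber (s : Sec (h.twist L a) k m) (hs : s.Klt) (i : L.ι) (p : h.P)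
    {φ : OpenPartialHomeomorph Y E} (hφ : φ ∈ Charts E Y) {y : Y} (hi : y ∈ L.U i)
    (hp : y ∈ h.W p) (hy : y ∈ φ.source) :
    ∃ N : Set E, IsOpen N ∧ φ y ∈ N ∧ N ⊆ φ '' (L.U i ∩ h.W p ∩ φ.source) ∧
      ∫⁻ v in N, ∑ b : Fin (r + 1), ∫⁻ w in Metric.closedBall (0 : Fin r → ℂ) 1,
        ‖h.loc s i p b φ hφ (v, w)‖ₑ ^ (-(2 : ℝ) / m) < ⊤ := by
  have : ProperSpace E := FiniteDimensional.proper ℂ E
  have hO : IsOpen (φ '' (L.U i ∩ h.W p ∩ φ.source)) :=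
    φ.isOpen_image_of_subset_source (((L.isOpen i).inter (h.isOpen p)).inter φ.open_source)
      inter_subset_right
  have hyO : φ y ∈ φ '' (L.U i ∩ h.W p ∩ φ.source) := ⟨y, ⟨⟨hi, hp⟩, hy⟩, rfl⟩
  have h1 : ∀ b : Fin (r + 1), ∃ N : Set E, IsOpen N ∧ φ y ∈ N ∧
      ∫⁻ u in N ×ˢ Metric.closedBall (0 : Fin r → ℂ) 1,
        ‖h.loc s i p b φ hφ u‖ₑ ^ (-(2 : ℝ) / m) < ⊤ := by
    intro b
    refine exists_tube volume (fun u => ‖h.loc s i p b φ hφ u‖ₑ ^ (-(2 : ℝ) / m)) (φ y)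
      (isCompact_closedBall _ _) ?_
    intro w _
    have hx := h.pt_mem hφ p b hp hy w
    have h2 := hs (i, p, b) (h.κ p b φ hφ) (h.κ_mem hφ p b) (h.pt p b φ hφ y w)
      ⟨by rw [h.pi_pt hφ p b hp hy w]; exact hi, by rw [h.pi_pt hφ p b hp hy w]; exact hp,
        h.pt_notMem hφ p b hp hy w⟩ hx
    rw [h.κ_pt hφ p b hp hy w] at h2
    exact h2
  choose N hN hyN hf using h1
  have h3 : ∀ b : Fin (r + 1), AEMeasurable
      (fun u : E × (Fin r → ℂ) => ‖h.loc s i p b φ hφ u‖ₑ ^ (-(2 : ℝ) / m))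
      ((volume.restrict (φ '' (L.U i ∩ h.W p ∩ φ.source))).prod
        (volume.restrict (Metric.closedBall (0 : Fin r → ℂ) 1))) := by
    intro b
    rw [Measure.prod_restrict]
    have hc : ContinuousOn (h.loc s i p b φ hφ)
        ((φ '' (L.U i ∩ h.W p ∩ φ.source)) ×ˢ Metric.closedBall (0 : Fin r → ℂ) 1) := by
      rintro ⟨v, w⟩ ⟨⟨y', hy', hv⟩, _⟩
      have hv' : φ y' = v := hv
      subst hv'
      exact (h.loc_analyticAt hφ s b hy'.1.1 hy'.1.2 hy'.2 w).continuousAt.continuousWithinAt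
    exact (hc.aemeasurable (hO.measurableSet.prod Metric.isClosed_closedBall.measurableSet)).enorm.pow_const _
  refine ⟨φ '' (L.U i ∩ h.W p ∩ φ.source) ∩ ⋂ b, N b, hO.inter (isOpen_iInter_of_finite hN),
    ⟨hyO, mem_iInter.2 hyN⟩, inter_subset_left, ?_⟩
  have h4 : ∀ b : Fin (r + 1), AEMeasurable
      (fun u : E × (Fin r → ℂ) => ‖h.loc s i p b φ hφ u‖ₑ ^ (-(2 : ℝ) / m))
      ((volume.restrict (φ '' (L.U i ∩ h.W p ∩ φ.source) ∩ ⋂ b, N b)).prod
        (volume.restrict (Metric.closedBall (0 : Fin r → ℂ) 1))) := by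
    intro b
    have h5 := h3 b
    rw [Measure.prod_restrict] at h5 ⊢
    exact h5.mono_measure (Measure.restrict_mono (prod_mono_left inter_subset_left) le_rfl)
  rw [lintegral_finsetSum' _ (fun b _ => (h4 b).lintegral_prod_right')]
  refine ENNReal.sum_lt_top.2 (fun b _ => ?_)
  rw [← lintegral_prod _ (h4 b), Measure.prod_restrict]
  refine (lintegral_mono_set (prod_mono_left ?_)).trans_lt (hf b)
  exact inter_subset_right.trans (iInter_subset _ b)

end SplitBundle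

end Pool.Agent.Abd
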