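import Pool.Agent.H.MP_e23cd6_ag.EdgeSec
import Pool.Agent.H.MP_e23cd6_ag.Fiber
import Pool.Agent.H.MP_e23cd6_ag.Bertini
import Pool.Agent.H.MP_e23cd6_ag.Coef
import Pool.Agent.H.MP_e23cd6_ag.KltLoc
import Pool.Agent.H.MP_e23cd6_ag.KltChart

/-! The pairs on the sections are klt. -/

set_option autoImplicit false

open scoped Manifold ContDiff Topology ENNReal
open MeasureTheory Set

namespace Pool.Agent.Abd

namespace SplitBundle

variable {E : Type} [NormedAddCommGroup E] [NormedSpace ℂ E] [FiniteDimensional ℂ E]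
  [MeasureSpace E] [BorelSpace E] [(volume : Measure E).IsAddHaarMeasure] {r : ℕ}
variable {X Y : Type} [TopologicalSpace X] [TopologicalSpace Y]
  [ChartedSpace (E × (Fin r → ℂ)) X] [ChartedSpace E Y]
variable {π : X → Y} (h : SplitBundle E r π)
variable [IsManifold 𝓘(ℂ, E) ω Y] [IsManifold 𝓘(ℂ, E × (Fin r → ℂ)) ω X] [CompactSpace Y]
variable {L : LineBundle E Y} {a k m : ℕ}

theorem edge_klt (hm : 1 ≤ m) (s : Sec (h.twist L a) k m) (hs : s.Klt) (b : Fin (r + 1)) :
    ∃ q : ℕ, 1 ≤ q ∧ ∃ t : Sec (h.edge L a b) (k * q) (m * q), t.Klt := by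
  classical
  obtain ⟨c, chol, crep, ctrans⟩ := h.exists_coef s
  obtain ⟨q, hq, Λ, hΛ, c0, hc0, hc0', hfib⟩ := fiber' r m (k * a) hm b
  refine ⟨q, by omega, ?_⟩
  -- the data near each point
  have hdata : ∀ y : Y, ∃ i p, y ∈ L.U i ∧ y ∈ h.W p ∧ ∃ N : Set E, IsOpen N ∧ chartAt E y y ∈ N ∧
      N ⊆ chartAt E y '' (L.U i ∩ h.W p ∩ (chartAt E y).source) ∧
      ∫⁻ v in N, (∑ l : Λ, ‖∏ α, c i p (chartAt E y) α ((chartAt E y).symm v) ^
        (l : Idx r (k * a + (r + 1) * m) → ℕ) α‖ₑ) ^ (-(2 : ℝ) / (m * q : ℕ)) < ⊤ := by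
    intro y
    obtain ⟨i, hi⟩ := L.cover y
    obtain ⟨p, hp⟩ := h.cover y
    have hφ := IsManifold.chart_mem_maximalAtlas (I := 𝓘(ℂ, E)) (n := ω) y
    have hy := mem_chart_source E y
    obtain ⟨N, hN, hyN, hNs, hint⟩ := h.klt_fiber s hs i p hφ hi hp hy
    refine ⟨i, p, hi, hp, N, hN, hyN, hNs, ?_⟩
    have hle : c0 * ∫⁻ v in N, (∑ l : Λ, ‖∏ α, c i p (chartAt E y) α ((chartAt E y).symm v) ^
        (l : Idx r (k * a + (r + 1) * m) → ℕ) α‖ₑ) ^ (-(2 : ℝ) / (m * q : ℕ)) ≤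
        ∫⁻ v in N, ∑ b : Fin (r + 1), ∫⁻ w in Metric.closedBall (0 : Fin r → ℂ) 1,
        ‖h.loc s i p b (chartAt E y) hφ (v, w)‖ₑ ^ (-(2 : ℝ) / m) := by
      rw [← lintegral_const_mul' _ _ hc0']
      refine setLIntegral_mono' hN.measurableSet ?_
      intro v hv
      obtain ⟨y', ⟨⟨hi', hp'⟩, hy'⟩, rfl⟩ := hNs hv
      rw [(chartAt E y).left_inv hy']
      refine (hfib (fun α => c i p (chartAt E y) α y')).trans (le_of_eq ?_)
      refine Finset.sum_congr rfl (fun e _ => ?_)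
      refine lintegral_congr (fun w => ?_)
      have h1 := crep i p e (chartAt E y) hφ y' hi' hp' hy' w
      rw [← enorm_norm (h.loc s i p e (chartAt E y) hφ (chartAt E y y', w)), h1, enorm_norm]
    have hlt := lt_of_le_of_lt hle hint
    exact ENNReal.lt_top_of_mul_ne_top_right hlt.ne hc0
  choose i p hi hp N hN hyN hNs hint using hdata
  -- finite cover
  have hV : ∀ y, IsOpen ((chartAt E y).source ∩ chartAt E y ⁻¹' N y) := fun y =>
    (chartAt E y).isOpen_inter_preimage (hN y)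
  obtain ⟨T, -, hT⟩ := isCompact_univ.elim_nhds_subcover
    (fun y => (chartAt E y).source ∩ chartAt E y ⁻¹' N y)
    (fun y _ => (hV y).mem_nhds ⟨mem_chart_source E y, hyN y⟩)
  obtain ⟨C, hC⟩ := bertini (Λ := Λ) (J := T) (V := E) (fun j => volume.restrict (N j))
    (fun j l v => ∏ α, c (i j) (p j) (chartAt E (j : Y)) α ((chartAt E (j : Y)).symm v) ^
        (l : Idx r (k * a + (r + 1) * m) → ℕ) α)
    (by
      intro j l
      refine ContinuousOn.aemeasurable ?_ (hN j).measurableSet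
      refine continuousOn_finsetProd _ (fun α _ => ContinuousOn.pow ?_ _)
      intro v hv
      obtain ⟨y', ⟨⟨hi', hp'⟩, hy'⟩, rfl⟩ := hNs j hv
      have hφ := IsManifold.chart_mem_maximalAtlas (I := 𝓘(ℂ, E)) (n := ω) (j : Y)
      have h1 : ContinuousAt (c (i j) (p j) (chartAt E (j : Y)) α)
          ((chartAt E (j : Y)).symm (chartAt E (j : Y) y')) := by
        rw [(chartAt E (j : Y)).left_inv hy']
        exact (chol (i j) (p j) _ hφ y' hi' hp' hy' α).continuousAt
      have h2 : ContinuousAt (chartAt E (j : Y)).symm (chartAt E (j : Y) y') :=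
        (chartAt E (j : Y)).continuousAt_symm ((chartAt E (j : Y)).map_source hy')
      exact (ContinuousAt.comp h1 h2).continuousWithinAt)
    (τ := 2 / ((m * q : ℕ) : ℝ)) (by positivity) (by
      rw [div_lt_iff₀ (by positivity)]
      have : (1 : ℝ) < ((m * q : ℕ) : ℝ) := by
        have : 1 < m * q := by nlinarith
        exact_mod_cast this
      linarith)
    (by
      intro j
      have := hint j
      rw [neg_div] at this
      exact this)
  refine ⟨h.combSec b c chol ctrans Λ hΛ C, klt_of_local _ ?_⟩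
  intro x
  have hx := hT (mem_univ x)
  rw [mem_iUnion₂] at hx
  obtain ⟨y, hyT, hxy, hxN⟩ := hx
  refine ⟨(i y, p y), chartAt E y, IsManifold.chart_mem_maximalAtlas y, ?_, hxy, N y,
    (hN y).mem_nhds hxN, ?_⟩
  · obtain ⟨y', ⟨⟨hi', hp'⟩, hy'⟩, he⟩ := hNs y hxN
    have : y' = x := (chartAt E y).injOn hy' hxy he
    subst this
    exact ⟨hi', hp'⟩
  · have := hC ⟨y, hyT⟩
    rw [← neg_div] at this
    exact this

end SplitBundle

end Pool.Agent.Abd
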