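import Pool.Agent.H.MP_e23cd6_ag.Jac2

/-! Nefness of `π^* L ⊗ 𝒪(a)` from nefness of its restrictions to the sections. -/

set_option autoImplicit false

open scoped Manifold ContDiff Topology ENNReal
open MeasureTheory Set

namespace Pool.Agent.Abd

section curve

variable {C : Type} [TopologicalSpace C] [ChartedSpace ℂ C] [IsManifold 𝓘(ℂ) ω C]

omit [IsManifold 𝓘(ℂ) ω C] in
/-- a holomorphic function read in a chart -/
theorem nef2_analytic {f : C → ℂ} {c : C} (hf : HolAt ℂ f c) {χ : OpenPartialHomeomorph C ℂ}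
    (hχ : χ ∈ Charts ℂ C) (hc : c ∈ χ.source) : AnalyticAt ℂ (f ∘ χ.symm) (χ c) := by
  have h2 : ContMDiffAt 𝓘(ℂ) 𝓘(ℂ) ω χ.symm (χ c) :=
    contMDiffAt_symm_of_mem_maximalAtlas hχ (χ.map_source hc)
  have h3 : ContMDiffAt 𝓘(ℂ) 𝓘(ℂ) ω f (χ.symm (χ c)) := by
    rw [χ.left_inv hc]
    exact hf
  have h4 := (ContMDiffAt.comp (χ c) h3 h2).contDiffAt
  exact h4.analyticAt

/-- the change of charts is analytic -/
theorem nef2_change {c : C} {χ χ' : OpenPartialHomeomorph C ℂ}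
    (hχ : χ ∈ Charts ℂ C) (hχ' : χ' ∈ Charts ℂ C) (hc : c ∈ χ.source) (hc' : c ∈ χ'.source) :
    AnalyticAt ℂ (χ ∘ χ'.symm) (χ' c) := by
  have h1 : HolAt ℂ (χ : C → ℂ) c := contMDiffAt_of_mem_maximalAtlas hχ hc
  exact nef2_analytic h1 hχ' hc'

omit [ChartedSpace ℂ C] [IsManifold 𝓘(ℂ) ω C] in
theorem nef2_ev_symm {c : C} {χ : OpenPartialHomeomorph C ℂ} (hc : c ∈ χ.source) :
    Filter.Tendsto χ.symm (𝓝 (χ c)) (𝓝 c) := by
  have h1 := χ.continuousAt_symm (χ.map_source hc)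
  unfold ContinuousAt at h1
  rwa [χ.left_inv hc] at h1

theorem nef2_change_deriv {c : C} {χ χ' : OpenPartialHomeomorph C ℂ}
    (hχ : χ ∈ Charts ℂ C) (hχ' : χ' ∈ Charts ℂ C) (hc : c ∈ χ.source) (hc' : c ∈ χ'.source) :
    deriv (χ ∘ χ'.symm) (χ' c) ≠ 0 := by
  have h1 := (nef2_change hχ hχ' hc hc').differentiableAt.hasDerivAt
  have h2 := (nef2_change hχ' hχ hc' hc).differentiableAt.hasDerivAt
  have e1 : (χ ∘ χ'.symm) (χ' c) = χ c := by
    show χ (χ'.symm (χ' c)) = χ c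
    rw [χ'.left_inv hc']
  have h2' : HasDerivAt (χ' ∘ χ.symm) (deriv (χ' ∘ χ.symm) (χ c)) ((χ ∘ χ'.symm) (χ' c)) := by
    rw [e1]
    exact h2
  have h3 := HasDerivAt.comp (χ' c) h2' h1
  have h4 : HasDerivAt ((χ' ∘ χ.symm) ∘ (χ ∘ χ'.symm)) 1 (χ' c) := by
    apply (hasDerivAt_id (χ' c)).congr_of_eventuallyEq
    have h5 : ∀ᶠ z in 𝓝 (χ' c), χ'.symm z ∈ χ.source :=
      (nef2_ev_symm hc').eventually (χ.open_source.mem_nhds hc)
    have h6 : ∀ᶠ z in 𝓝 (χ' c), z ∈ χ'.target := χ'.open_target.mem_nhds (χ'.map_source hc')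
    filter_upwards [h5, h6] with z h7 h8
    show χ' (χ.symm (χ (χ'.symm z))) = z
    rw [χ.left_inv h7, χ'.right_inv h8]
  have h5 := h3.unique h4
  intro h0
  rw [h0, mul_zero] at h5
  exact zero_ne_one h5

omit [ChartedSpace ℂ C] [IsManifold 𝓘(ℂ) ω C] in
theorem nef2_tendsto_symm {c : C} {χ : OpenPartialHomeomorph C ℂ} (hc : c ∈ χ.source) :
    Filter.Tendsto χ.symm (𝓝[≠] (χ c)) (𝓝[≠] c) := by
  apply tendsto_nhdsWithin_iff.2
  refine ⟨(nef2_ev_symm hc).mono_left nhdsWithin_le_nhds, ?_⟩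
  have h6 : ∀ᶠ z in 𝓝[≠] (χ c), z ∈ χ.target :=
    nhdsWithin_le_nhds (χ.open_target.mem_nhds (χ.map_source hc))
  filter_upwards [h6, self_mem_nhdsWithin] with z h7 h8
  intro h9
  apply h8
  have h10 : χ.symm z = c := h9
  rw [← h10, χ.right_inv h7]
  rfl

omit [ChartedSpace ℂ C] [IsManifold 𝓘(ℂ) ω C] in
theorem nef2_tendsto {c : C} {χ : OpenPartialHomeomorph C ℂ} (hc : c ∈ χ.source) :
    Filter.Tendsto χ (𝓝[≠] c) (𝓝[≠] (χ c)) := by
  apply tendsto_nhdsWithin_iff.2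
  refine ⟨(χ.continuousAt hc).mono_left nhdsWithin_le_nhds, ?_⟩
  have h6 : ∀ᶠ z in 𝓝[≠] c, z ∈ χ.source :=
    nhdsWithin_le_nhds (χ.open_source.mem_nhds hc)
  filter_upwards [h6, self_mem_nhdsWithin] with z h7 h8
  intro h9
  exact h8 (χ.injOn h7 hc h9)

/-- identity theorem -/
theorem nef2_isolated {f : C → ℂ} {c : C} (hf : HolAt ℂ f c) :
    (∀ᶠ x in 𝓝 c, f x = 0) ∨ ∀ᶠ x in 𝓝[≠] c, f x ≠ 0 := by
  have hχ := IsManifold.chart_mem_maximalAtlas (I := 𝓘(ℂ)) (n := ω) c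
  have hc := mem_chart_source ℂ c
  have h1 := nef2_analytic hf hχ hc
  have hs : ∀ᶠ x in 𝓝 c, x ∈ (chartAt ℂ c).source := (chartAt ℂ c).open_source.mem_nhds hc
  rcases h1.eventually_eq_zero_or_eventually_ne_zero with h2 | h2
  · left
    have h3 := ((chartAt ℂ c).continuousAt hc).eventually h2
    filter_upwards [h3, hs] with x h4 h5
    have h6 : f ((chartAt ℂ c).symm (chartAt ℂ c x)) = 0 := h4
    rwa [(chartAt ℂ c).left_inv h5] at h6
  · right
    have h3 := (nef2_tendsto hc).eventually h2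
    filter_upwards [h3, nhdsWithin_le_nhds hs] with x h4 h5
    have h6 : f ((chartAt ℂ c).symm (chartAt ℂ c x)) ≠ 0 := h4
    rwa [(chartAt ℂ c).left_inv h5] at h6

variable {E : Type} [NormedAddCommGroup E] [NormedSpace ℂ E]
variable {M : Type} [TopologicalSpace M] [ChartedSpace E M]

/-- it suffices to know the order in one frame and one chart at each point -/
theorem nef2_meroSec (B : LineBundle E M) {ν : C → M} (hν : ContMDiff 𝓘(ℂ) 𝓘(ℂ, E) ω ν)
    (σ : B.ι → C → ℂ) (o : C → ℤ)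
    (h1 : ∀ i j c, ν c ∈ B.U i → ν c ∈ B.U j → σ i c = B.g i j (ν c) * σ j c)
    (h2 : ∀ c, ∃ i, ∃ χ ∈ Charts ℂ C, ν c ∈ B.U i ∧ c ∈ χ.source ∧
      MeromorphicAt (σ i ∘ χ.symm) (χ c) ∧
      meromorphicOrderAt (σ i ∘ χ.symm) (χ c) = (o c : WithTop ℤ)) :
    IsMeroSec B ν σ o := by
  refine ⟨h1, ?_⟩
  intro j c χ' hχ' hj hc'
  obtain ⟨i, χ, hχ, hi, hc, hm, ho⟩ := h2 c
  -- change of chart
  have hg := nef2_change hχ hχ' hc hc'
  have hg' := nef2_change_deriv hχ hχ' hc hc'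
  have e1 : (χ ∘ χ'.symm) (χ' c) = χ c := by
    show χ (χ'.symm (χ' c)) = χ c
    rw [χ'.left_inv hc']
  have hm1 : MeromorphicAt ((σ i ∘ χ.symm) ∘ (χ ∘ χ'.symm)) (χ' c) := by
    apply MeromorphicAt.comp_analyticAt _ hg
    rw [e1]
    exact hm
  have ho1 : meromorphicOrderAt ((σ i ∘ χ.symm) ∘ (χ ∘ χ'.symm)) (χ' c) = (o c : WithTop ℤ) := by
    rw [meromorphicOrderAt_comp_of_deriv_ne_zero hg hg', e1]
    exact ho
  have hev : ∀ᶠ z in 𝓝 (χ' c), χ'.symm z ∈ χ.source :=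
    (nef2_ev_symm hc').eventually (χ.open_source.mem_nhds hc)
  have hci : ContinuousAt ν c := (hν c).continuousAt
  have hev2 : ∀ᶠ z in 𝓝 (χ' c), ν (χ'.symm z) ∈ B.U i :=
    (nef2_ev_symm hc').eventually (hci.eventually ((B.isOpen i).mem_nhds hi))
  have hev3 : ∀ᶠ z in 𝓝 (χ' c), ν (χ'.symm z) ∈ B.U j :=
    (nef2_ev_symm hc').eventually (hci.eventually ((B.isOpen j).mem_nhds hj))
  have hG : HolAt ℂ (B.g j i ∘ ν) c := (B.hol j i (ν c) hj hi).comp c (hν c)
  have hGa := nef2_analytic hG hχ' hc'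
  have hG0 : ((B.g j i ∘ ν) ∘ χ'.symm) (χ' c) ≠ 0 := by
    show B.g j i (ν (χ'.symm (χ' c))) ≠ 0
    rw [χ'.left_inv hc']
    intro h0
    have h3 := B.mul j i j (ν c) hj hi hj
    rw [h0, zero_mul, B.one j _ hj] at h3
    exact zero_ne_one h3
  have heq : σ j ∘ χ'.symm =ᶠ[𝓝 (χ' c)]
      ((B.g j i ∘ ν) ∘ χ'.symm) * ((σ i ∘ χ.symm) ∘ (χ ∘ χ'.symm)) := by
    filter_upwards [hev, hev2, hev3] with z h3 h4 h5
    show σ j (χ'.symm z) = B.g j i (ν (χ'.symm z)) * σ i (χ.symm (χ (χ'.symm z)))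
    rw [χ.left_inv h3]
    exact h1 j i _ h5 h4
  have heq' := heq.filter_mono (nhdsWithin_le_nhds (s := {χ' c}ᶜ))
  constructor
  · exact (hGa.meromorphicAt.mul hm1).congr heq'.symm
  · rw [meromorphicOrderAt_congr heq', meromorphicOrderAt_mul_of_ne_zero hGa hG0]
    exact ho1

/-- the orders of a meromorphic section vanish near each point, outside the point -/
theorem nef2_order_zero {B : LineBundle E M} {ν : C → M} (hν : ContMDiff 𝓘(ℂ) 𝓘(ℂ, E) ω ν)
    {σ : B.ι → C → ℂ} {o : C → ℤ} (h : IsMeroSec B ν σ o) (c : C) :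
    ∀ᶠ x in 𝓝[≠] c, o x = 0 := by
  have hχ := IsManifold.chart_mem_maximalAtlas (I := 𝓘(ℂ)) (n := ω) c
  have hc := mem_chart_source ℂ c
  obtain ⟨i, hi⟩ := B.cover (ν c)
  obtain ⟨hm, ho⟩ := h.2 i c _ hχ hi hc
  have h1 := hm.eventually_analyticAt
  have h2 : ∀ᶠ z in 𝓝[≠] (chartAt ℂ c c), (σ i ∘ (chartAt ℂ c).symm) z ≠ 0 := by
    apply (meromorphicOrderAt_ne_top_iff_eventually_ne_zero hm).1
    rw [ho]
    exact WithTop.coe_ne_top
  have h3 := (nef2_tendsto hc).eventually (h1.and h2)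
  have hs : ∀ᶠ x in 𝓝[≠] c, x ∈ (chartAt ℂ c).source :=
    nhdsWithin_le_nhds ((chartAt ℂ c).open_source.mem_nhds hc)
  have hU : ∀ᶠ x in 𝓝[≠] c, ν x ∈ B.U i :=
    nhdsWithin_le_nhds ((hν c).continuousAt.eventually ((B.isOpen i).mem_nhds hi))
  filter_upwards [h3, hs, hU] with x h4 h5 h6
  obtain ⟨-, h7⟩ := h.2 i x _ hχ h6 h5
  have h8 : meromorphicOrderAt (σ i ∘ (chartAt ℂ c).symm) (chartAt ℂ c x) = 0 := by
    rw [h4.1.meromorphicOrderAt_eq, h4.1.analyticOrderAt_eq_zero.2 h4.2]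
    rfl
  rw [h7] at h8
  exact_mod_cast h8

omit [ChartedSpace ℂ C] [IsManifold 𝓘(ℂ) ω C] in
/-- a function on a compact space, vanishing near each point outside the point, has finite
support -/
theorem nef2_finite [CompactSpace C] {f : C → ℤ} (h : ∀ c, ∀ᶠ x in 𝓝[≠] c, f x = 0) :
    (Function.support f).Finite := by
  have h1 : ∀ c : C, ∀ᶠ x in 𝓝 c, x ≠ c → f x = 0 := fun c => eventually_nhdsWithin_iff.1 (h c)
  obtain ⟨t, ht⟩ := CompactSpace.elim_nhds_subcover (fun c => {x | x ≠ c → f x = 0}) h1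
  apply t.finite_toSet.subset
  intro x hx
  have h2 : x ∈ ⋃ c ∈ t, {x | x ≠ c → f x = 0} := by
    rw [ht]
    trivial
  simp only [mem_iUnion, exists_prop] at h2
  obtain ⟨c, hc, h3⟩ := h2
  by_contra h4
  apply hx
  apply h3
  rintro rfl
  exact h4 hc

end curve

namespace SplitBundle

variable {E : Type} [NormedAddCommGroup E] [NormedSpace ℂ E] {r : ℕ}
variable {X Y : Type} [TopologicalSpace X] [TopologicalSpace Y]
  [ChartedSpace (E × (Fin r → ℂ)) X] [ChartedSpace E Y]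
variable {π : X → Y} (h : SplitBundle E r π)
variable [IsManifold 𝓘(ℂ, E) ω Y] [IsManifold 𝓘(ℂ, E × (Fin r → ℂ)) ω X]
variable {L : LineBundle E Y} {a : ℕ}

/-- Proof. Let `ν : C → X` be given with a meromorphic section `σ` of `ν^* (twist L a)` with orders `o`.
Fix `c0 ∈ C` and `b` with `ν c0 ∉ H b`. For `c ∈ C` with `ν c ∈ U (i, p, e)` the function
`u_{p,e} = z p e (ν ·) b` is holomorphic near `c`, and it vanishes exactly where `ν · ∈ H b`
(`z_eq_zero`). The set of `c` such that `ν x ∈ H b` for all `x` near `c` is open and closed (identity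
theorem: if `u` vanishes at points accumulating at `c`, it vanishes near `c`), and it does not contain
`c0`; `C` connected: it is empty. So the order `n c` of `u_{p,e}` at `c` is a natural number; it does
not depend on `p, e` (`z p e x b = z p e x e' * z p e' x b`, `z_trans`, nonvanishing factors) nor on the
chart of `C` (`meromorphicOrderAt_comp_of_deriv_ne_zero`). Define `σ' (i, p) c = σ (i, p, b) c` if
`ν c ∉ H b` and `0` otherwise. It is a meromorphic section of `(π ∘ ν)^* (edge L a b)` with orders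
`o' c = o c - a * n c`: near `c` (with `ν c ∉ H e`), at the points with `ν x ∉ H b`:
`σ (i,p,b) x = z p b (ν x) e ^ a * σ (i,p,e) x` and `z p b (ν x) e = (z p e (ν x) b)⁻¹`
(`meromorphicOrderAt_mul`, `meromorphicOrderAt_pow`, `meromorphicOrderAt_inv`,
`meromorphicOrderAt_congr`). By nefness of `edge L a b`: `0 ≤ ∑ᶠ o'`. Since `n ≥ 0`,
`∑ᶠ o = ∑ᶠ o' + a ∑ᶠ n ≥ 0`, where the supports of `o` and `n` (hence of `o'`) are finite: near each
point `c` the orders at the other points are `0` (meromorphic functions of finite order are analytic and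
nonvanishing in a punctured neighbourhood), and `C` is compact. -/
theorem nef_of_edge (hb : ∀ b, (h.edge L a b).Nef) : (h.twist L a).Nef := by
  classical
  intro C _ _ _ _ _ _ ν hν σ o hσ
  obtain ⟨c0⟩ := (inferInstance : Nonempty C)
  obtain ⟨b, hb0⟩ := h.inter (ν c0)
  choose pc hpc using fun c : C => h.cover (π (ν c))
  choose ec hec using fun c : C => h.inter (ν c)
  choose ic hic using fun c : C => L.cover (π (ν c))
  have hπν : ContMDiff 𝓘(ℂ) 𝓘(ℂ, E) ω (π ∘ ν) := fun c =>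
    ContMDiffAt.comp c (h.pi_contMDiffAt (ν c)) (hν c)
  -- the functions u
  have hu : ∀ c, HolAt ℂ (fun x => h.z (pc c) (ec c) (ν x) b) c := fun c =>
    ContMDiffAt.comp c (h.z_hol (pc c) (ec c) b (ν c) (hpc c) (hec c)) (hν c)
  have hW : ∀ c, ∀ᶠ x in 𝓝 c, π (ν x) ∈ h.W (pc c) := fun c =>
    (hπν c).continuousAt.eventually ((h.isOpen (pc c)).mem_nhds (hpc c))
  have hH : ∀ c, ∀ᶠ x in 𝓝 c, ν x ∉ h.H (ec c) := fun c =>
    (hν c).continuousAt.eventually ((h.closed (ec c)).isOpen_compl.mem_nhds (hec c))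
  have hL : ∀ c, ∀ᶠ x in 𝓝 c, π (ν x) ∈ L.U (ic c) := fun c =>
    (hπν c).continuousAt.eventually ((L.isOpen (ic c)).mem_nhds (hic c))
  -- the points where the curve lies in `H b` are isolated
  have hiso : ∀ c, ∀ᶠ x in 𝓝[≠] c, ν x ∉ h.H b := by
    have hor : ∀ c, (∀ᶠ x in 𝓝 c, ν x ∈ h.H b) ∨ ∀ᶠ x in 𝓝[≠] c, ν x ∉ h.H b := by
      intro c
      rcases nef2_isolated (hu c) with h1 | h1
      · left
        filter_upwards [h1, hW c, hH c] with x h2 h3 h4
        exact (h.z_eq_zero (pc c) (ec c) b (ν x) h3 h4).1 h2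
      · right
        filter_upwards [h1, nhdsWithin_le_nhds (hW c), nhdsWithin_le_nhds (hH c)] with x h2 h3 h4
        intro h5
        exact h2 ((h.z_eq_zero (pc c) (ec c) b (ν x) h3 h4).2 h5)
    have hopen : IsOpen {c | ∀ᶠ x in 𝓝 c, ν x ∈ h.H b} := isOpen_setOfPred_eventually_nhds
    have hclosed : IsClosed {c | ∀ᶠ x in 𝓝 c, ν x ∈ h.H b} := by
      rw [← isOpen_compl_iff, isOpen_iff_mem_nhds]
      intro c hc
      have h1 : ∀ᶠ x in 𝓝[≠] c, ν x ∉ h.H b := (hor c).resolve_left hc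
      rw [eventually_nhdsWithin_iff] at h1
      filter_upwards [h1] with x h2 h3
      have h4 : ν x ∈ h.H b := h3.self_of_nhds
      by_cases hxc : x = c
      · rw [hxc] at h3
        exact hc h3
      · exact h2 hxc h4
    have hempty : {c | ∀ᶠ x in 𝓝 c, ν x ∈ h.H b} = ∅ := by
      rcases isClopen_iff.1 ⟨hclosed, hopen⟩ with h1 | h1
      · exact h1
      · exfalso
        have h2 : c0 ∈ {c | ∀ᶠ x in 𝓝 c, ν x ∈ h.H b} := by
          rw [h1]
          trivial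
        have h3 : ∀ᶠ x in 𝓝 c0, ν x ∈ h.H b := h2
        have h4 : ν c0 ∈ h.H b := h3.self_of_nhds
        exact hb0 h4
    intro c
    refine (hor c).resolve_left (fun h1 => ?_)
    have h2 : c ∈ {c | ∀ᶠ x in 𝓝 c, ν x ∈ h.H b} := h1
    rw [hempty] at h2
    exact h2
  -- the order of `u`
  have hχ : ∀ c : C, chartAt ℂ c ∈ Charts ℂ C := fun c =>
    IsManifold.chart_mem_maximalAtlas (I := 𝓘(ℂ)) (n := ω) c
  have hcs : ∀ c : C, c ∈ (chartAt ℂ c).source := fun c => mem_chart_source ℂ c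
  have hua : ∀ c : C, AnalyticAt ℂ
      ((fun x => h.z (pc c) (ec c) (ν x) b) ∘ (chartAt ℂ c).symm) (chartAt ℂ c c) := fun c =>
    nef2_analytic (hu c) (hχ c) (hcs c)
  have hev : ∀ c : C, ∀ᶠ x in 𝓝[≠] c, ν x ∉ h.H b ∧ π (ν x) ∈ h.W (pc c) ∧
      ν x ∉ h.H (ec c) ∧ π (ν x) ∈ L.U (ic c) := fun c =>
    (hiso c).and (((hW c).filter_mono nhdsWithin_le_nhds).and
      (((hH c).filter_mono nhdsWithin_le_nhds).and ((hL c).filter_mono nhdsWithin_le_nhds)))
  have hne : ∀ c : C, analyticOrderAt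
      ((fun x => h.z (pc c) (ec c) (ν x) b) ∘ (chartAt ℂ c).symm) (chartAt ℂ c c) ≠ ⊤ := by
    intro c htop
    rw [analyticOrderAt_eq_top] at htop
    have h1 := (nef2_tendsto_symm (hcs c)).eventually (hev c)
    have h2 := htop.filter_mono (nhdsWithin_le_nhds (s := {chartAt ℂ c c}ᶜ))
    obtain ⟨z, h3, h4⟩ := (h1.and h2).exists
    exact h3.1 ((h.z_eq_zero (pc c) (ec c) b _ h3.2.1 h3.2.2.1).1 h4)
  let n : C → ℕ := fun c => (analyticOrderAt
      ((fun x => h.z (pc c) (ec c) (ν x) b) ∘ (chartAt ℂ c).symm) (chartAt ℂ c c)).toNat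
  have hn : ∀ c, meromorphicOrderAt ((fun x => h.z (pc c) (ec c) (ν x) b) ∘ (chartAt ℂ c).symm)
      (chartAt ℂ c c) = ((n c : ℤ) : WithTop ℤ) := by
    intro c
    rw [(hua c).meromorphicOrderAt_eq, ← ENat.natCast_toNat (hne c)]
    rfl
  have hn0 : ∀ c, ν c ∉ h.H b → n c = 0 := by
    intro c hc
    have h1 : analyticOrderAt
      ((fun x => h.z (pc c) (ec c) (ν x) b) ∘ (chartAt ℂ c).symm) (chartAt ℂ c c) = 0 := by
      rw [(hua c).analyticOrderAt_eq_zero]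
      show h.z (pc c) (ec c) (ν ((chartAt ℂ c).symm (chartAt ℂ c c))) b ≠ 0
      rw [(chartAt ℂ c).left_inv (hcs c)]
      intro h2
      exact hc ((h.z_eq_zero (pc c) (ec c) b _ (hpc c) (hec c)).1 h2)
    show (analyticOrderAt
      ((fun x => h.z (pc c) (ec c) (ν x) b) ∘ (chartAt ℂ c).symm) (chartAt ℂ c c)).toNat = 0
    rw [h1]
    rfl
  -- the section of the edge bundle
  let σ' : L.ι × h.P → C → ℂ := fun i c => if ν c ∈ h.H b then 0 else σ (i.1, i.2, b) c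
  let o' : C → ℤ := fun c => o c - a * n c
  have hsec : IsMeroSec (h.edge L a b) (π ∘ ν) σ' o' := by
    apply nef2_meroSec (h.edge L a b) hπν
    · rintro ⟨i, p⟩ ⟨j, q⟩ c hi hj
      show (if ν c ∈ h.H b then 0 else σ (i, p, b) c) =
        L.g i j (π (ν c)) * h.γ q p b (π (ν c)) ^ a * (if ν c ∈ h.H b then 0 else σ (j, q, b) c)
      split_ifs with hc
      · rw [mul_zero]
      · have h1 := hσ.1 (i, p, b) (j, q, b) c ⟨hi.1, hi.2, hc⟩ ⟨hj.1, hj.2, hc⟩
        rw [h1]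
        show L.g i j (π (ν c)) * (h.γ q p b (π (ν c)) * h.z q b (ν c) b) ^ a * σ (j, q, b) c = _
        rw [h.z_self q b (ν c) hj.2 hc, mul_one]
    · intro c
      refine ⟨(ic c, pc c), chartAt ℂ c, hχ c, ⟨hic c, hpc c⟩, hcs c, ?_⟩
      obtain ⟨hm, ho⟩ := hσ.2 (ic c, pc c, ec c) c _ (hχ c) ⟨hic c, hpc c, hec c⟩ (hcs c)
      have heq : σ' (ic c, pc c) ∘ (chartAt ℂ c).symm =ᶠ[𝓝[≠] (chartAt ℂ c c)]
          (((fun x => h.z (pc c) (ec c) (ν x) b) ∘ (chartAt ℂ c).symm)⁻¹) ^ a *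
            (σ (ic c, pc c, ec c) ∘ (chartAt ℂ c).symm) := by
        have h1 := (nef2_tendsto_symm (hcs c)).eventually (hev c)
        filter_upwards [h1] with z h2
        obtain ⟨h3, h4, h5, h6⟩ := h2
        show (if ν ((chartAt ℂ c).symm z) ∈ h.H b then 0
            else σ (ic c, pc c, b) ((chartAt ℂ c).symm z)) =
          (h.z (pc c) (ec c) (ν ((chartAt ℂ c).symm z)) b)⁻¹ ^ a *
            σ (ic c, pc c, ec c) ((chartAt ℂ c).symm z)
        rw [if_neg h3]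
        have h7 := hσ.1 (ic c, pc c, b) (ic c, pc c, ec c) ((chartAt ℂ c).symm z)
          ⟨h6, h4, h3⟩ ⟨h6, h4, h5⟩
        rw [h7]
        show L.g (ic c) (ic c) (π (ν ((chartAt ℂ c).symm z))) *
          (h.γ (pc c) (pc c) b (π (ν ((chartAt ℂ c).symm z))) *
            h.z (pc c) b (ν ((chartAt ℂ c).symm z)) (ec c)) ^ a * _ = _
        rw [L.one _ _ h6, h.γ_one _ _ _ h4, one_mul, one_mul]
        congr 2
        apply eq_inv_of_mul_eq_one_left
        rw [h.z_mul (pc c) b (ec c) b _ h4 h3 h5, h.z_self _ _ _ h4 h3]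
      have hmi := ((hua c).meromorphicAt.inv).pow a
      constructor
      · exact (hmi.mul hm).congr heq.symm
      · rw [meromorphicOrderAt_congr heq, meromorphicOrderAt_mul hmi hm, ho,
          meromorphicOrderAt_pow (hua c).meromorphicAt.inv, meromorphicOrderAt_inv, hn c]
        show (a : WithTop ℤ) * -((n c : ℤ) : WithTop ℤ) + (o c : WithTop ℤ) = ((o c - a * n c : ℤ) : WithTop ℤ)
        have h1 : (o c - a * n c : ℤ) = a * (-(n c : ℤ)) + o c := by ring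
        rw [h1]
        norm_cast
  have h0 := hb b C (π ∘ ν) hπν σ' o' hsec
  have hfo : (Function.support o).Finite := nef2_finite (nef2_order_zero hν hσ)
  have hfo' : (Function.support o').Finite := nef2_finite (nef2_order_zero hπν hsec)
  have hfn : (Function.support (fun c => (a : ℤ) * (n c : ℤ))).Finite := by
    apply nef2_finite
    intro c
    filter_upwards [hiso c] with x hx
    rw [hn0 x hx]
    simp
  have hsum : ∑ᶠ c, o c = ∑ᶠ c, o' c + ∑ᶠ c, (a : ℤ) * (n c : ℤ) := by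
    rw [← finsum_add_distrib hfo' hfn]
    apply finsum_congr
    intro c
    show o c = o c - a * n c + a * n c
    ring
  rw [hsum]
  apply add_nonneg h0
  apply finsum_nonneg
  intro c
  positivity

end SplitBundle

end Pool.Agent.Abd
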