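import Pool.Agent.H.MP_e23cd6_ag.Jac2

/-! Semiampleness and nefness: from `X` to the sections, and semiampleness back. -/

set_option autoImplicit false

open scoped Manifold ContDiff Topology ENNReal
open MeasureTheory Set

namespace Pool.Agent.Abd

namespace SplitBundle

variable {E : Type} [NormedAddCommGroup E] [NormedSpace ℂ E] {r : ℕ}
variable {X Y : Type} [TopologicalSpace X] [TopologicalSpace Y]
  [ChartedSpace (E × (Fin r → ℂ)) X] [ChartedSpace E Y]
variable {π : X → Y} (h : SplitBundle E r π)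
variable [IsManifold 𝓘(ℂ, E) ω Y] [IsManifold 𝓘(ℂ, E × (Fin r → ℂ)) ω X]
variable {L : LineBundle E Y} {a : ℕ}

/-- the power of a section -/
noncomputable def semi_powSec {F : Type} [NormedAddCommGroup F] [NormedSpace ℂ F] {M : Type}
    [TopologicalSpace M] [ChartedSpace F M] {B : LineBundle F M} {k : ℕ} (τ : PowSec B k)
    (n : ℕ) : PowSec B (k * n) where
  f := fun i x => τ.f i x ^ n
  hol := fun i x hx => ContMDiffAt.pow (τ.hol i x hx) n
  trans := by
    intro i j x hx hx'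
    rw [τ.trans i j x hx hx', mul_pow, pow_mul]

/-- the section of `twist` defined by a section of `edge` -/
noncomputable def semi_lift {b : Fin (r + 1)} {k : ℕ} (τ : PowSec (h.edge L a b) k) :
    PowSec (h.twist L a) k where
  f := fun i x => h.z i.2.1 i.2.2 x b ^ (k * a) * τ.f (i.1, i.2.1) (π x)
  hol := by
    rintro ⟨i, p, c⟩ x hx
    have h1 : HolAt (E × (Fin r → ℂ)) (fun x => h.z p c x b) x := h.z_hol p c b x hx.2.1 hx.2.2
    have h2 : HolAt (E × (Fin r → ℂ)) (fun x => τ.f (i, p) (π x)) x :=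
      (τ.hol (i, p) (π x) ⟨hx.1, hx.2.1⟩).comp x (h.pi_contMDiffAt x)
    exact (ContMDiffAt.pow h1 (k * a)).mul h2
  trans := by
    rintro ⟨i, p, c⟩ ⟨j, q, e⟩ x hx hx'
    have h1 := τ.trans (i, p) (j, q) (π x) ⟨hx.1, hx.2.1⟩ ⟨hx'.1, hx'.2.1⟩
    have h2 := h.z_trans q p c b x hx'.2.1 hx.2.1 hx.2.2
    have h3 := h.z_mul q c e b x hx'.2.1 hx.2.2 hx'.2.2
    have h4 : h.z p c x b * h.γ q p b (π x) =
        h.γ q p c (π x) * h.z q c x e * h.z q e x b := by
      rw [mul_assoc, h3, h2, mul_comm]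
    show h.z p c x b ^ (k * a) * τ.f (i, p) (π x) =
      (L.g i j (π x) * (h.γ q p c (π x) * h.z q c x e) ^ a) ^ k *
        (h.z q e x b ^ (k * a) * τ.f (j, q) (π x))
    rw [h1]
    show h.z p c x b ^ (k * a) * ((L.g i j (π x) * h.γ q p b (π x) ^ a) ^ k * τ.f (j, q) (π x)) =
      (L.g i j (π x) * (h.γ q p c (π x) * h.z q c x e) ^ a) ^ k *
        (h.z q e x b ^ (k * a) * τ.f (j, q) (π x))
    have h5 : h.z p c x b ^ (k * a) * (h.γ q p b (π x) ^ a) ^ k =
        ((h.γ q p c (π x) * h.z q c x e) ^ a) ^ k * h.z q e x b ^ (k * a) := by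
      rw [← pow_mul, ← pow_mul, mul_comm a k, ← mul_pow, ← mul_pow, h4]
    calc _ = L.g i j (π x) ^ k * (h.z p c x b ^ (k * a) * (h.γ q p b (π x) ^ a) ^ k) *
          τ.f (j, q) (π x) := by ring
      _ = _ := by rw [h5]; ring

/-- Proof. For `τ : PowSec (edge L a b) k` define `F (j, q, c) x = z q c x b ^ (k * a) * τ.f (j, q) (π x)`
for `x ∉ H c`; transitions: with `x ∈ U (i,p,c) ∩ U (j,q,e)`:
`(γ q p c * z q c x e) ^ (a k) * z q e x b ^ (k a) = (γ q p c * z q c x b) ^ (a k) = (γ q p b * z p c x b) ^ (a k)`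
(`z_mul`, `z_trans q p c b`). It is nonzero at `x` iff `x ∉ H b` and `τ.f (j, q) (π x) ≠ 0`. Let `K`
be the product of the exponents `k_b` for `edge L a b`; raise to the power `K / k_b`. Given `x`, choose
`b` with `x ∉ H b`, then the index `(j, q, b)`. -/
theorem semiample_of_edge (hb : ∀ b, (h.edge L a b).Semiample) : (h.twist L a).Semiample := by
  choose k hk hs using hb
  refine ⟨∏ b, k b, Nat.one_le_iff_ne_zero.2
    (Finset.prod_ne_zero_iff.2 fun b _ => Nat.one_le_iff_ne_zero.1 (hk b)), fun x => ?_⟩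
  obtain ⟨b, hxb⟩ := h.inter x
  obtain ⟨τ, ⟨i, p⟩, hi, hne⟩ := hs b (π x)
  obtain ⟨n, hn⟩ : k b ∣ ∏ b, k b := Finset.dvd_prod_of_mem k (Finset.mem_univ b)
  rw [hn]
  refine ⟨h.semi_lift (semi_powSec τ n), (i, p, b), ⟨hi.1, hi.2, hxb⟩, ?_⟩
  show h.z p b x b ^ (k b * n * a) * τ.f (i, p) (π x) ^ n ≠ 0
  rw [h.z_self p b x hi.2 hxb, one_pow, one_mul]
  exact pow_ne_zero _ hne

/-- the restriction of a section of `twist` to the section `sect b` -/
noncomputable def semi_res (b : Fin (r + 1)) {k : ℕ} (τ : PowSec (h.twist L a) k) :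
    PowSec (h.edge L a b) k where
  f := fun i y => τ.f (i.1, i.2, b) (h.sect b y)
  hol := by
    rintro ⟨i, p⟩ y hy
    have hx : h.sect b y ∈ (h.twist L a).U (i, p, b) := by
      refine ⟨?_, ?_, h.sect_notMem b y⟩
      · show π _ ∈ L.U i
        rw [h.pi_sect]; exact hy.1
      · show π _ ∈ h.W p
        rw [h.pi_sect]; exact hy.2
    exact ContMDiffAt.comp y (τ.hol (i, p, b) _ hx) (h.sect_contMDiffAt b y)
  trans := by
    rintro ⟨i, p⟩ ⟨j, q⟩ y hy hy'
    have hx : h.sect b y ∈ (h.twist L a).U (i, p, b) := by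
      refine ⟨?_, ?_, h.sect_notMem b y⟩
      · show π _ ∈ L.U i
        rw [h.pi_sect]; exact hy.1
      · show π _ ∈ h.W p
        rw [h.pi_sect]; exact hy.2
    have hx' : h.sect b y ∈ (h.twist L a).U (j, q, b) := by
      refine ⟨?_, ?_, h.sect_notMem b y⟩
      · show π _ ∈ L.U j
        rw [h.pi_sect]; exact hy'.1
      · show π _ ∈ h.W q
        rw [h.pi_sect]; exact hy'.2
    have h1 := τ.trans (i, p, b) (j, q, b) _ hx hx'
    show τ.f (i, p, b) (h.sect b y) =
      (L.g i j y * h.γ q p b y ^ a) ^ k * τ.f (j, q, b) (h.sect b y)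
    rw [h1]
    show (L.g i j (π (h.sect b y)) * (h.γ q p b (π (h.sect b y)) *
      h.z q b (h.sect b y) b) ^ a) ^ k * τ.f (j, q, b) (h.sect b y) = _
    rw [h.z_self q b _ (by rw [h.pi_sect]; exact hy'.2) (h.sect_notMem b y), h.pi_sect, mul_one]

/-- Proof. Pull back along `sect b`: `τ ↦ (fun (i, p) y => τ.f (i, p, b) (sect b y))`; holomorphic by
`sect_contMDiffAt`, transitions by `z_self`; at `y` the point `sect b y` only lies in sets
`U (i, p, b)` (`eq_of_sect_notMem`). -/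
theorem edge_semiample (hs : (h.twist L a).Semiample) (b : Fin (r + 1)) :
    (h.edge L a b).Semiample := by
  obtain ⟨k, hk, hs⟩ := hs
  refine ⟨k, hk, fun y => ?_⟩
  obtain ⟨τ, ⟨i, p, c⟩, hi, hne⟩ := hs (h.sect b y)
  obtain rfl : c = b := h.eq_of_sect_notMem hi.2.2
  refine ⟨h.semi_res c τ, (i, p), ⟨?_, ?_⟩, hne⟩
  · have := hi.1
    rwa [h.pi_sect] at this
  · have := hi.2.1
    change π _ ∈ h.W p at this
    rwa [h.pi_sect] at this

/-- Proof. For `ν : C → Y` use `sect b ∘ ν : C → X`; a meromorphic section `σ` of `ν^* (edge L a b)`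
gives the section `fun (i, p, c) => σ (i, p)` of `(sect b ∘ ν)^* (twist L a)` with the same orders
(only the indices `(i, p, b)` matter, `eq_of_sect_notMem`, `z_self`, `pi_sect`). -/
theorem edge_nef (hn : (h.twist L a).Nef) (b : Fin (r + 1)) : (h.edge L a b).Nef := by
  intro C _ _ _ _ _ _ ν hν σ o hσ
  refine hn C (fun c => h.sect b (ν c)) (fun c => ?_) (fun i c => σ (i.1, i.2.1) c) o ⟨?_, ?_⟩
  · exact ContMDiffAt.comp c (h.sect_contMDiffAt b (ν c)) (hν c)
  · rintro ⟨i, p, d⟩ ⟨j, q, e⟩ c hi hj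
    obtain rfl : d = b := h.eq_of_sect_notMem hi.2.2
    obtain rfl : e = d := h.eq_of_sect_notMem hj.2.2
    have i1 : ν c ∈ L.U i := by
      have := hi.1
      change π _ ∈ L.U i at this
      rwa [h.pi_sect] at this
    have i2 : ν c ∈ h.W p := by
      have := hi.2.1
      change π _ ∈ h.W p at this
      rwa [h.pi_sect] at this
    have j1 : ν c ∈ L.U j := by
      have := hj.1
      change π _ ∈ L.U j at this
      rwa [h.pi_sect] at this
    have j2 : ν c ∈ h.W q := by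
      have := hj.2.1
      change π _ ∈ h.W q at this
      rwa [h.pi_sect] at this
    show σ (i, p) c = (L.g i j (π (h.sect e (ν c))) * (h.γ q p e (π (h.sect e (ν c))) *
      h.z q e (h.sect e (ν c)) e) ^ a) * σ (j, q) c
    rw [h.z_self q e _ (by rw [h.pi_sect]; exact j2) (h.sect_notMem e (ν c)), h.pi_sect, mul_one]
    exact hσ.1 (i, p) (j, q) c ⟨i1, i2⟩ ⟨j1, j2⟩
  · rintro ⟨i, p, d⟩ c χ hχ hi hc
    obtain rfl : d = b := h.eq_of_sect_notMem hi.2.2
    have i1 : ν c ∈ L.U i := by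
      have := hi.1
      change π _ ∈ L.U i at this
      rwa [h.pi_sect] at this
    have i2 : ν c ∈ h.W p := by
      have := hi.2.1
      change π _ ∈ h.W p at this
      rwa [h.pi_sect] at this
    exact hσ.2 (i, p) c χ hχ ⟨i1, i2⟩ hc

end SplitBundle

end Pool.Agent.Abd
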